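import Pool.Agent.Y550.Mag.WA

set_option autoImplicit false

namespace Pool.Agent.Y550.Mag

open Wd

/-- one state, all words -/
def w1 : Wd where
  k := 1
  A := fun _ => {0}
  B := fun _ => {0}
  q0 := 0
  F := {0}

/-- one state, only the empty word -/
def w2 : Wd where
  k := 1
  A := fun _ => ∅
  B := fun _ => ∅
  q0 := 0
  F := {0}

theorem w1_st (x : Fin 2) (S : Finset ℕ) (h : S.Nonempty) : w1.st x S = {0} := by
  obtain ⟨i, hi⟩ := h
  ext j
  rw [mem_st]
  have e : (if x = 0 then w1.A i else w1.B i) = {0} := by split_ifs <;> rfl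
  constructor
  · rintro ⟨i', _, hj⟩
    have e' : (if x = 0 then w1.A i' else w1.B i') = {0} := by split_ifs <;> rfl
    rwa [e'] at hj
  · intro hj
    exact ⟨i, hi, by rw [e]; exact hj⟩

theorem w2_st (x : Fin 2) (S : Finset ℕ) : w2.st x S = ∅ := by
  rw [Finset.eq_empty_iff_forall_notMem]
  intro j hj
  rw [mem_st] at hj
  obtain ⟨i, _, hj⟩ := hj
  have e : (if x = 0 then w2.A i else w2.B i) = ∅ := by split_ifs <;> rfl
  rw [e] at hj
  exact Finset.notMem_empty _ hj

theorem w1_good : Good w1 {{0}} {0} (fun _ => []) (fun _ => {0}) where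
  q0 := by show 0 < 1; omega
  hA := by
    intro i _ j hj
    have : j = 0 := Finset.mem_singleton.1 hj
    show j < 1
    omega
  hB := by
    intro i _ j hj
    have : j = 0 := Finset.mem_singleton.1 hj
    show j < 1
    omega
  hF := by
    intro j hj
    have : j = 0 := Finset.mem_singleton.1 hj
    show j < 1
    omega
  h0 := Finset.mem_singleton_self _
  hcl := by
    intro S hS x
    rw [Finset.mem_singleton] at hS ⊢
    rw [hS]
    exact w1_st x {0} ⟨0, Finset.mem_singleton_self _⟩
  hr := by
    intro S hS
    rw [Finset.mem_singleton] at hS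
    exact ⟨[], by rw [hS]; rfl⟩
  er := by
    intro p hp q hq
    have hp' : p < 1 := hp
    have hq' : q < 1 := hq
    constructor
    · intro _; omega
    · intro _
      have : p = 0 := by omega
      rw [this]
      exact ⟨0, Finset.mem_singleton_self _, Finset.mem_singleton_self _⟩
  hE := Finset.mem_singleton_self _
  cr := fun _ _ => trivial
  hZ := fun _ _ => Finset.mem_singleton_self _
  hZm := by
    intro q hq
    have hq' : q < 1 := hq
    rw [Finset.mem_singleton]; omega
  hZo := by
    intro p hp q hq hne
    have hp' : p < 1 := hp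
    have hq' : q < 1 := hq
    omega

theorem w2_good : Good w2 {{0}, ∅} ∅ (fun _ => []) (fun _ => {0}) where
  q0 := by show 0 < 1; omega
  hA := by
    intro i _ j hj
    exact absurd hj (Finset.notMem_empty _)
  hB := by
    intro i _ j hj
    exact absurd hj (Finset.notMem_empty _)
  hF := by
    intro j hj
    have : j = 0 := Finset.mem_singleton.1 hj
    show j < 1
    omega
  h0 := Finset.mem_insert_self _ _
  hcl := by
    intro S hS x
    rw [w2_st]
    exact Finset.mem_insert_of_mem (Finset.mem_singleton_self _)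
  hr := by
    intro S hS
    rw [Finset.mem_insert, Finset.mem_singleton] at hS
    rcases hS with hS | hS
    · exact ⟨[], by rw [hS]; rfl⟩
    · refine ⟨[0], ?_⟩
      rw [hS, run_cons, w2_st]
      rfl
  er := by
    intro p hp q hq
    have hp' : p < 1 := hp
    have hq' : q < 1 := hq
    constructor
    · intro _; omega
    · intro _
      have : p = 0 := by omega
      rw [this]
      exact ⟨0, Finset.mem_singleton_self _, Finset.mem_singleton_self _⟩
  hE := Finset.mem_insert_of_mem (Finset.mem_singleton_self _)
  cr := fun _ _ => trivial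
  hZ := fun _ _ => Finset.mem_insert_self _ _
  hZm := by
    intro q hq
    have hq' : q < 1 := hq
    rw [Finset.mem_singleton]; omega
  hZo := by
    intro p hp q hq hne
    have hp' : p < 1 := hp
    have hq' : q < 1 := hq
    omega

theorem att1 (j : ℕ) : Att (1 + j) (1 + j) := by
  have h := w1_good.att j
  rw [Finset.card_singleton] at h
  exact h

theorem att2 (j : ℕ) : Att (1 + j) (2 + j) := by
  have h := w2_good.att j
  have e : ({{0}, ∅} : Finset (Finset ℕ)).card = 2 := by
    rw [Finset.card_pair]
    exact Finset.singleton_ne_empty 0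
  rw [e] at h
  exact h

theorem att_all : ∀ m : ℕ, 1 ≤ m → ∀ α j : ℕ, m ≤ α → α ≤ 2 ^ m → Att (m + j) (α + j) := by
  intro m hm
  induction m, hm using Nat.le_induction with
  | base =>
    intro α j h1 h2
    have h3 : α = 1 ∨ α = 2 := by omega
    rcases h3 with rfl | rfl
    · exact att1 j
    · exact att2 j
  | succ m hm ih =>
    intro α j h1 h2
    by_cases h3 : α ≤ 2 ^ m + 1
    · have h4 := ih (α - 1) (j + 1) (by omega) (by omega)
      have e1 : m + (j + 1) = m + 1 + j := by omega
      have e2 : α - 1 + (j + 1) = α + j := by omega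
      rwa [e1, e2] at h4
    · obtain ⟨K, rfl⟩ : ∃ K, m = K + 1 := ⟨m - 1, by omega⟩
      have hp : 2 ^ (K + 1) = 2 * 2 ^ K := by rw [pow_succ]; ring
      have hp2 : 2 ^ (K + 1 + 1) = 4 * 2 ^ K := by rw [pow_succ, pow_succ]; ring
      have hlt : K < 2 ^ K := Nat.lt_two_pow_self
      by_cases h4 : α + 1 ≤ 3 * 2 ^ K
      · have h5 := attP K (α - 2 ^ (K + 1)) (by omega) (by omega) j
        have e : 2 ^ (K + 1) + (α - 2 ^ (K + 1)) + j = α + j := by omega
        rw [e] at h5
        exact h5
      · by_cases h5 : α + K + 1 ≤ 4 * 2 ^ K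
        · have h6 := attA K (α + K - 3 * 2 ^ K) (by
            rcases Nat.eq_zero_or_pos K with h7 | h7
            · subst h7; omega
            · omega) (by omega) j
          have e : 3 * 2 ^ K + (α + K - 3 * 2 ^ K) - K + j = α + j := by omega
          rw [e] at h6
          exact h6
        · have h6 := attD (K + 1) (2 ^ (K + 1 + 1) - α) (by omega) (by omega) j
          have e : 2 ^ (K + 1 + 1) - (2 ^ (K + 1 + 1) - α) + j = α + j := by omega
          rw [e] at h6
          exact h6

theorem att_main (n : ℕ) (hn : 1 ≤ n) (α : ℕ) (h1 : n ≤ α) (h2 : α ≤ 2 ^ n) : Att n α :=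
  att_all n hn α 0 h1 h2

end Pool.Agent.Y550.Mag
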