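import Mathlib

set_option autoImplicit false

namespace Pool.Agent.Y550.Mag

/-- The number `α` is attained by a minimal `n`-state automaton with one initial state. -/
def Att (n α : ℕ) : Prop :=
  ∃ M : NFA (Fin 2) (Fin n), (∃ q : Fin n, M.start = {q}) ∧
    (∀ m : ℕ, m < n → ∀ N : NFA (Fin 2) (Fin m),
      (∃ q : Fin m, N.start = {q}) → N.accepts ≠ M.accepts) ∧
    Nat.card (Set.range (fun u : List (Fin 2) =>
      ({w : List (Fin 2) | u ++ w ∈ M.accepts} : Set (List (Fin 2))))) = α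

/-- The fooling set bound. -/
theorem fooling {n m : ℕ} (M : NFA (Fin 2) (Fin m)) (S : Set (List (Fin 2)))
    (hM : ∀ w, w ∈ M.accepts ↔ w ∈ S) (x y : Fin n → List (Fin 2))
    (h1 : ∀ i, x i ++ y i ∈ S) (h2 : ∀ i j, i ≠ j → x i ++ y j ∉ S ∨ x j ++ y i ∉ S) :
    n ≤ m := by
  have h3 : ∀ i, ∃ s : Fin m, s ∈ M.evalFrom M.start (x i) ∧
      ∃ t ∈ M.accept, t ∈ M.evalFrom {s} (y i) := by
    intro i
    have h4 := (hM _).2 (h1 i)
    rw [NFA.mem_accepts] at h4
    obtain ⟨t, ht, h5⟩ := h4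
    rw [NFA.evalFrom_append, NFA.mem_evalFrom_iff_exists] at h5
    obtain ⟨s, hs, h6⟩ := h5
    exact ⟨s, hs, t, ht, h6⟩
  choose f hf1 hf2 using h3
  have h4 : ∀ i j, f i = f j → x i ++ y j ∈ S := by
    intro i j hij
    rw [← hM, NFA.mem_accepts]
    obtain ⟨t, ht, h5⟩ := hf2 j
    refine ⟨t, ht, ?_⟩
    rw [NFA.evalFrom_append, NFA.mem_evalFrom_iff_exists]
    refine ⟨f j, ?_, h5⟩
    rw [← hij]; exact hf1 i
  have hinj : Function.Injective f := by
    intro i j hij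
    by_contra hne
    rcases h2 i j hne with h5 | h5
    · exact h5 (h4 i j hij)
    · exact h5 (h4 j i hij.symm)
  simpa using Fintype.card_le_of_injective f hinj

/-- an automaton over the letters `a = 0`, `b = 1` with states `0, ..., k-1` given by its rows -/
structure Wd where
  k : ℕ
  A : ℕ → Finset ℕ
  B : ℕ → Finset ℕ
  q0 : ℕ
  F : Finset ℕ

namespace Wd

def st (w : Wd) (x : Fin 2) (S : Finset ℕ) : Finset ℕ :=
  if x = 0 then S.biUnion w.A else S.biUnion w.B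

def run (w : Wd) (S : Finset ℕ) (u : List (Fin 2)) : Finset ℕ :=
  u.foldl (fun T x => w.st x T) S

def acc (w : Wd) (S : Finset ℕ) : Prop := ∃ i ∈ S, i ∈ w.F

theorem run_nil (w : Wd) (S : Finset ℕ) : w.run S [] = S := rfl

theorem run_cons (w : Wd) (S : Finset ℕ) (x : Fin 2) (u : List (Fin 2)) :
    w.run S (x :: u) = w.run (w.st x S) u := rfl

theorem run_append (w : Wd) (S : Finset ℕ) (u v : List (Fin 2)) :
    w.run S (u ++ v) = w.run (w.run S u) v := by simp [run, List.foldl_append]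

theorem mem_st (w : Wd) (x : Fin 2) (S : Finset ℕ) (j : ℕ) :
    j ∈ w.st x S ↔ ∃ i ∈ S, j ∈ (if x = 0 then w.A i else w.B i) := by
  unfold st; split_ifs <;> simp

theorem st_union (w : Wd) (x : Fin 2) (S T : Finset ℕ) :
    w.st x (S ∪ T) = w.st x S ∪ w.st x T := by
  unfold st; split_ifs <;> rw [Finset.union_biUnion]

theorem st_empty (w : Wd) (x : Fin 2) : w.st x ∅ = ∅ := by
  unfold st; split_ifs <;> simp

theorem run_union (w : Wd) (u : List (Fin 2)) : ∀ S T : Finset ℕ,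
    w.run (S ∪ T) u = w.run S u ∪ w.run T u := by
  induction u with
  | nil => intro S T; rfl
  | cons x u ih => intro S T; rw [run_cons, run_cons, run_cons, st_union, ih]

theorem run_empty (w : Wd) (u : List (Fin 2)) : w.run ∅ u = ∅ := by
  induction u with
  | nil => rfl
  | cons x u ih => rw [run_cons, st_empty, ih]

theorem mem_run (w : Wd) (u : List (Fin 2)) : ∀ (S : Finset ℕ) (j : ℕ),
    j ∈ w.run S u ↔ ∃ i ∈ S, j ∈ w.run {i} u := by
  intro S j
  induction S using Finset.induction_on with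
  | empty => rw [run_empty]; simp
  | insert a S ha ih =>
    rw [Finset.insert_eq, run_union, Finset.mem_union, ih]
    simp

theorem acc_run (w : Wd) (u : List (Fin 2)) (S : Finset ℕ) :
    w.acc (w.run S u) ↔ ∃ i ∈ S, w.acc (w.run {i} u) := by
  unfold acc
  constructor
  · rintro ⟨j, hj, hF⟩
    obtain ⟨i, hi, hj⟩ := (w.mem_run u S j).1 hj
    exact ⟨i, hi, j, hj, hF⟩
  · rintro ⟨i, hi, j, hj, hF⟩
    exact ⟨j, (w.mem_run u S j).2 ⟨i, hi, hj⟩, hF⟩

/-- the automaton -/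
def M (w : Wd) (h : w.q0 < w.k) : NFA (Fin 2) (Fin w.k) where
  step := fun i x => {j | j.val ∈ (if x = 0 then w.A i.val else w.B i.val)}
  start := {⟨w.q0, h⟩}
  accept := {j | j.val ∈ w.F}

def ts (w : Wd) (S : Finset ℕ) : Set (Fin w.k) := {j | j.val ∈ S}

theorem ts_st (w : Wd) (h : w.q0 < w.k) (S : Finset ℕ) (hS : ∀ i ∈ S, i < w.k) (x : Fin 2) :
    (w.M h).stepSet (w.ts S) x = w.ts (w.st x S) := by
  ext j
  rw [NFA.mem_stepSet]
  unfold ts
  simp only [Set.mem_setOf_eq]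
  rw [mem_st]
  constructor
  · rintro ⟨i, hi, hj⟩
    exact ⟨i.val, hi, hj⟩
  · rintro ⟨i, hi, hj⟩
    exact ⟨⟨i, hS i hi⟩, hi, hj⟩

theorem st_lt (w : Wd) (hA : ∀ i < w.k, ∀ j ∈ w.A i, j < w.k) (hB : ∀ i < w.k, ∀ j ∈ w.B i, j < w.k)
    (S : Finset ℕ) (hS : ∀ i ∈ S, i < w.k) (x : Fin 2) : ∀ i ∈ w.st x S, i < w.k := by
  intro j hj
  obtain ⟨i, hi, hj⟩ := (w.mem_st x S j).1 hj
  split_ifs at hj
  · exact hA i (hS i hi) j hj
  · exact hB i (hS i hi) j hj

theorem ts_run (w : Wd) (h : w.q0 < w.k)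
    (hA : ∀ i < w.k, ∀ j ∈ w.A i, j < w.k) (hB : ∀ i < w.k, ∀ j ∈ w.B i, j < w.k)
    (u : List (Fin 2)) : ∀ (S : Finset ℕ), (∀ i ∈ S, i < w.k) →
    (w.M h).evalFrom (w.ts S) u = w.ts (w.run S u) := by
  induction u with
  | nil => intro S _; rfl
  | cons x u ih =>
    intro S hS
    rw [NFA.evalFrom_cons, w.ts_st h S hS x, ih _ (w.st_lt hA hB S hS x), run_cons]

theorem run_lt (w : Wd)
    (hA : ∀ i < w.k, ∀ j ∈ w.A i, j < w.k) (hB : ∀ i < w.k, ∀ j ∈ w.B i, j < w.k)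
    (u : List (Fin 2)) : ∀ (S : Finset ℕ), (∀ i ∈ S, i < w.k) → ∀ i ∈ w.run S u, i < w.k := by
  induction u with
  | nil => intro S h; exact h
  | cons x u ih =>
    intro S hS
    rw [run_cons]
    exact ih _ (w.st_lt hA hB S hS x)

theorem accepts (w : Wd) (h : w.q0 < w.k)
    (hA : ∀ i < w.k, ∀ j ∈ w.A i, j < w.k) (hB : ∀ i < w.k, ∀ j ∈ w.B i, j < w.k)
    (u : List (Fin 2)) : u ∈ (w.M h).accepts ↔ w.acc (w.run {w.q0} u) := by
  have h0 : (w.M h).start = w.ts {w.q0} := by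
    ext j
    show j = ⟨w.q0, h⟩ ↔ j.val ∈ ({w.q0} : Finset ℕ)
    rw [Finset.mem_singleton, Fin.ext_iff]
  have hq : ∀ i ∈ ({w.q0} : Finset ℕ), i < w.k := by
    intro i hi; rw [Finset.mem_singleton.1 hi]; exact h
  rw [NFA.mem_accepts, h0, w.ts_run h hA hB u _ hq]
  constructor
  · rintro ⟨s, h1, h2⟩
    exact ⟨s.val, h2, h1⟩
  · rintro ⟨i, h1, h2⟩
    exact ⟨⟨i, w.run_lt hA hB u _ hq i h1⟩, h2, h1⟩

/-- the general criterion -/
theorem att_core (w : Wd) (h : w.q0 < w.k)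
    (hA : ∀ i < w.k, ∀ j ∈ w.A i, j < w.k) (hB : ∀ i < w.k, ∀ j ∈ w.B i, j < w.k)
    (G : Finset (Finset ℕ)) (h0 : {w.q0} ∈ G)
    (hcl : ∀ S ∈ G, ∀ x, w.st x S ∈ G)
    (hr : ∀ S ∈ G, ∃ u, w.run {w.q0} u = S)
    (hd : ∀ S ∈ G, ∀ T ∈ G, (∀ u, w.acc (w.run S u) ↔ w.acc (w.run T u)) → S = T)
    (x y : Fin w.k → List (Fin 2))
    (h1 : ∀ i, w.acc (w.run {w.q0} (x i ++ y i)))
    (h2 : ∀ i j, i ≠ j → ¬ w.acc (w.run {w.q0} (x i ++ y j)) ∨
      ¬ w.acc (w.run {w.q0} (x j ++ y i))) :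
    Att w.k G.card := by
  refine ⟨w.M h, ⟨⟨w.q0, h⟩, rfl⟩, ?_, ?_⟩
  · intro m hm N _ heq
    have hM : ∀ u, u ∈ N.accepts ↔
        u ∈ ({u | w.acc (w.run {w.q0} u)} : Set (List (Fin 2))) := by
      intro u
      rw [heq, w.accepts h hA hB]
      rfl
    have := fooling N _ hM x y h1 h2
    omega
  · have hmem : ∀ u : List (Fin 2), ({v : List (Fin 2) | u ++ v ∈ (w.M h).accepts} :
        Set (List (Fin 2))) = {v | w.acc (w.run (w.run {w.q0} u) v)} := by
      intro u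
      ext v
      show u ++ v ∈ (w.M h).accepts ↔ _
      rw [w.accepts h hA hB, w.run_append]
      rfl
    have hrunG : ∀ u : List (Fin 2), ∀ S ∈ G, w.run S u ∈ G := by
      intro u
      induction u with
      | nil => intro S hS; exact hS
      | cons x u ih => intro S hS; exact ih _ (hcl S hS x)
    have hφ : ∀ S : {S // S ∈ G}, ({v | w.acc (w.run S.1 v)} :
        Set (List (Fin 2))) ∈
        Set.range (fun u : List (Fin 2) =>
        ({v : List (Fin 2) | u ++ v ∈ (w.M h).accepts} : Set (List (Fin 2)))) := by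
      rintro ⟨S, hS⟩
      obtain ⟨u, hu⟩ := hr S hS
      refine ⟨u, ?_⟩
      show ({v : List (Fin 2) | u ++ v ∈ (w.M h).accepts} : Set (List (Fin 2))) = _
      rw [hmem u, hu]
    let φ : {S // S ∈ G} → Set.range (fun u : List (Fin 2) =>
        ({v : List (Fin 2) | u ++ v ∈ (w.M h).accepts} : Set (List (Fin 2)))) :=
      fun c => ⟨_, hφ c⟩
    have hbij : Function.Bijective φ := by
      constructor
      · rintro ⟨S, hS⟩ ⟨T, hT⟩ hcc
        have h2 : ({v | w.acc (w.run S v)} : Set (List (Fin 2))) =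
            {v | w.acc (w.run T v)} := congrArg Subtype.val hcc
        have h3 : S = T := by
          apply hd S hS T hT
          intro v
          have h4 : v ∈ ({v | w.acc (w.run S v)} : Set (List (Fin 2))) ↔
            v ∈ ({v | w.acc (w.run T v)} : Set (List (Fin 2))) := by rw [h2]
          exact h4
        exact Subtype.ext h3
      · rintro ⟨S, u, hu⟩
        refine ⟨⟨w.run {w.q0} u, hrunG u _ h0⟩, ?_⟩
        apply Subtype.ext
        show ({v | w.acc (w.run (w.run {w.q0} u) v)} : Set (List (Fin 2))) = S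
        rw [← hu, ← hmem u]
    show Nat.card (Set.range (fun u : List (Fin 2) =>
      ({v : List (Fin 2) | u ++ v ∈ (w.M h).accepts} : Set (List (Fin 2))))) = G.card
    rw [← Nat.card_eq_of_bijective φ hbij]
    simp

end Wd

end Pool.Agent.Y550.Mag
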