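import Pool.Agent.Y550.Mag.Core

set_option autoImplicit false

namespace Pool.Agent.Y550.Mag

namespace Wd

/-- the word `v` is rejected from all chain states -/
def CR (w : Wd) (E : Finset ℕ) : List (Fin 2) → Prop
  | [] => True
  | x :: v => if x = 0 then ¬ w.acc (w.run E v) else (CR w E v ∧ ¬ w.acc (w.run {w.q0} v))

/-- chain of `j` states in front of the automaton -/
def ext (w : Wd) (E : Finset ℕ) (j : ℕ) : Wd where
  k := w.k + j
  A := fun i => if i < w.k then w.A i else E
  B := fun i => if i < w.k then w.B i else if i + 1 < w.k + j then {i + 1} else {w.q0}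
  q0 := if j = 0 then w.q0 else w.k
  F := w.F

structure Good (w : Wd) (G : Finset (Finset ℕ)) (E : Finset ℕ) (wd : ℕ → List (Fin 2))
    (Z : ℕ → Finset ℕ) : Prop where
  q0 : w.q0 < w.k
  hA : ∀ i < w.k, ∀ j ∈ w.A i, j < w.k
  hB : ∀ i < w.k, ∀ j ∈ w.B i, j < w.k
  hF : ∀ i ∈ w.F, i < w.k
  h0 : {w.q0} ∈ G
  hcl : ∀ S ∈ G, ∀ x, w.st x S ∈ G
  hr : ∀ S ∈ G, ∃ u, w.run {w.q0} u = S
  er : ∀ p < w.k, ∀ q < w.k, (w.acc (w.run {p} (wd q)) ↔ p = q)
  hE : E ∈ G
  cr : ∀ q < w.k, w.CR E (wd q)
  hZ : ∀ q < w.k, Z q ∈ G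
  hZm : ∀ q < w.k, q ∈ Z q
  hZo : ∀ p < w.k, ∀ q < w.k, p ≠ q → ¬ (p ∈ Z q ∧ q ∈ Z p)

theorem ext_st (w : Wd) (E : Finset ℕ) (j : ℕ) (S : Finset ℕ) (hS : ∀ i ∈ S, i < w.k) (x : Fin 2) :
    (w.ext E j).st x S = w.st x S := by
  ext i
  rw [mem_st, mem_st]
  constructor
  · rintro ⟨p, hp, h⟩
    refine ⟨p, hp, ?_⟩
    simpa [ext, hS p hp] using h
  · rintro ⟨p, hp, h⟩
    refine ⟨p, hp, ?_⟩
    simpa [ext, hS p hp] using h

theorem ext_run (w : Wd) (E : Finset ℕ) (j : ℕ)
    (hA : ∀ i < w.k, ∀ j ∈ w.A i, j < w.k) (hB : ∀ i < w.k, ∀ j ∈ w.B i, j < w.k)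
    (u : List (Fin 2)) : ∀ (S : Finset ℕ), (∀ i ∈ S, i < w.k) →
    (w.ext E j).run S u = w.run S u := by
  induction u with
  | nil => intro S _; rfl
  | cons x u ih =>
    intro S hS
    rw [run_cons, run_cons, w.ext_st E j S hS x, ih _ (w.st_lt hA hB S hS x)]

theorem ext_a (w : Wd) (E : Finset ℕ) (j i : ℕ) :
    (w.ext E j).st 0 {w.k + i} = E := by
  ext p
  rw [mem_st]
  simp [ext]

theorem ext_b (w : Wd) (E : Finset ℕ) (j i : ℕ) :
    (w.ext E j).st 1 {w.k + i} = if i + 1 < j then {w.k + (i + 1)} else {w.q0} := by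
  ext p
  rw [mem_st]
  by_cases h : i + 1 < j
  · have h2 : w.k + i + 1 < w.k + j := by omega
    simp [ext, h, add_assoc]
  · have h2 : ¬ (w.k + i + 1 < w.k + j) := by omega
    simp [ext, h, h2]

/-- the word `b^i` -/
def bw (i : ℕ) : List (Fin 2) := List.replicate i 1

/-- the word `a^i` -/
def aw (i : ℕ) : List (Fin 2) := List.replicate i 0

theorem bw_add (i j : ℕ) : bw (i + j) = bw i ++ bw j := List.replicate_add i j 1

theorem aw_add (i j : ℕ) : aw (i + j) = aw i ++ aw j := List.replicate_add i j 0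

theorem ext_bw (w : Wd) (E : Finset ℕ) (j : ℕ) (m : ℕ) : ∀ i, i + m < j →
    (w.ext E j).run {w.k + i} (bw m) = {w.k + (i + m)} := by
  induction m with
  | zero => intro i _; rfl
  | succ m ih =>
    intro i h
    have : bw (m + 1) = 1 :: bw m := rfl
    rw [this, run_cons, ext_b, if_pos (by omega), ih (i + 1) (by omega)]
    congr 1; omega

theorem ext_bw' (w : Wd) (E : Finset ℕ) (j i : ℕ) (h : i < j) :
    (w.ext E j).run {w.k + i} (bw (j - i)) = {w.q0} := by
  obtain ⟨m, hm⟩ : ∃ m, j = i + m + 1 := ⟨j - i - 1, by omega⟩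
  have h2 : j - i = m + 1 := by omega
  rw [h2, bw_add, run_append, w.ext_bw E j m i (by omega)]
  have : bw 1 = 1 :: [] := rfl
  rw [this, run_cons, ext_b, if_neg (by omega)]
  rfl

theorem ext_start (w : Wd) (E : Finset ℕ) (j : ℕ) :
    (w.ext E j).run {(w.ext E j).q0} (bw j) = {w.q0} := by
  by_cases hj : j = 0
  · subst hj
    simp [ext, bw, run_nil]
  · have : (w.ext E j).q0 = w.k + 0 := by simp [ext, hj]
    rw [this]
    have := w.ext_bw' E j 0 (by omega)
    simpa using this

theorem ext_start' (w : Wd) (E : Finset ℕ) (j i : ℕ) (h : i < j) :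
    (w.ext E j).run {(w.ext E j).q0} (bw i) = {w.k + i} := by
  have hj : j ≠ 0 := by omega
  have : (w.ext E j).q0 = w.k + 0 := by simp [ext, hj]
  rw [this]
  have := w.ext_bw E j i 0 (by omega)
  simpa using this

theorem Good.lt {w : Wd} {G : Finset (Finset ℕ)} {E : Finset ℕ} {wd : ℕ → List (Fin 2)}
    {Z : ℕ → Finset ℕ} (g : Good w G E wd Z) : ∀ S ∈ G, ∀ i ∈ S, i < w.k := by
  intro S hS
  obtain ⟨u, hu⟩ := g.hr S hS
  rw [← hu]
  apply w.run_lt g.hA g.hB
  intro i hi
  rw [Finset.mem_singleton.1 hi]; exact g.q0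

theorem Good.reject {w : Wd} {G : Finset (Finset ℕ)} {E : Finset ℕ} {wd : ℕ → List (Fin 2)}
    {Z : ℕ → Finset ℕ} (g : Good w G E wd Z) (j : ℕ) (v : List (Fin 2)) :
    ∀ i < j, w.CR E v → ¬ (w.ext E j).acc ((w.ext E j).run {w.k + i} v) := by
  induction v with
  | nil =>
    intro i _ _
    rintro ⟨p, hp, hF⟩
    rw [run_nil, Finset.mem_singleton] at hp
    have := g.hF p hF
    omega
  | cons x v ih =>
    intro i hi hcr
    rw [run_cons]
    by_cases hx : x = 0
    · subst hx
      rw [ext_a, w.ext_run E j g.hA g.hB _ _ (g.lt E g.hE)]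
      show ¬ w.acc (w.run E v)
      simpa [CR] using hcr
    · have hx1 : x = 1 := by omega
      subst hx1
      have h2 : w.CR E v ∧ ¬ w.acc (w.run {w.q0} v) := by simpa [CR] using hcr
      rw [ext_b]
      split_ifs with h
      · exact ih (i + 1) h h2.1
      · rw [w.ext_run E j g.hA g.hB _ _ (g.lt _ g.h0)]
        exact h2.2

theorem Good.acc_iff {w : Wd} {G : Finset (Finset ℕ)} {E : Finset ℕ} {wd : ℕ → List (Fin 2)}
    {Z : ℕ → Finset ℕ} (g : Good w G E wd Z) (S : Finset ℕ) (hS : ∀ i ∈ S, i < w.k) (q : ℕ)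
    (hq : q < w.k) : w.acc (w.run S (wd q)) ↔ q ∈ S := by
  rw [w.acc_run]
  constructor
  · rintro ⟨i, hi, h⟩
    rw [g.er i (hS i hi) q hq] at h
    rw [← h]; exact hi
  · intro h
    exact ⟨q, h, (g.er q hq q hq).2 rfl⟩

theorem Good.att {w : Wd} {G : Finset (Finset ℕ)} {E : Finset ℕ} {wd : ℕ → List (Fin 2)}
    {Z : ℕ → Finset ℕ} (g : Good w G E wd Z) (j : ℕ) : Att (w.k + j) (G.card + j) := by
  classical
  set w' := w.ext E j with hw'
  have hk : w'.k = w.k + j := rfl
  set C : Finset (Finset ℕ) := (Finset.range j).image (fun i => ({w.k + i} : Finset ℕ)) with hC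
  have hCm : ∀ S, S ∈ C ↔ ∃ i < j, {w.k + i} = S := by
    intro S; rw [hC]; simp
  have hcard : (G ∪ C).card = G.card + j := by
    rw [Finset.card_union_of_disjoint]
    · rw [hC, Finset.card_image_of_injective, Finset.card_range]
      intro a b hab
      have := Finset.singleton_injective hab
      omega
    · rw [Finset.disjoint_left]
      intro S hS hS'
      obtain ⟨i, hi, rfl⟩ := (hCm S).1 hS'
      have := g.lt _ hS (w.k + i) (Finset.mem_singleton_self _)
      omega
  have hF' : ∀ S, w'.acc S ↔ w.acc S := fun S => Iff.rfl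
  have hrun : ∀ S ∈ G, ∀ u, w'.run S u = w.run S u := fun S hS u =>
    w.ext_run E j g.hA g.hB u S (g.lt S hS)
  have hq0 : w'.q0 < w'.k := by
    have := g.q0
    by_cases hj : j = 0
    · simp [hw', ext, hj]; exact this
    · simp [hw', ext, hj]; omega
  have hstart := w.ext_start E j
  have hstart' := w.ext_start' E j
  rw [← hw'] at hstart hstart'
  have hEk := g.lt E g.hE
  rw [← hcard]
  have hZlt : ∀ q < w.k, ∀ i ∈ Z q, i < w.k := fun q hq => g.lt _ (g.hZ q hq)
  have hex : ∀ q : ℕ, ∃ u, q < w.k → w.run {w.q0} u = Z q := by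
    intro q
    by_cases hq : q < w.k
    · obtain ⟨u, hu⟩ := g.hr _ (g.hZ q hq)
      exact ⟨u, fun _ => hu⟩
    · exact ⟨[], fun h => absurd h hq⟩
  choose uq huq using hex
  have accq : ∀ q < w.k, ∀ u, w'.acc (w'.run {w'.q0} (bw j ++ uq q ++ u)) ↔
      w.acc (w.run (Z q) u) := by
    intro q hq u
    rw [run_append, run_append, hstart, hrun _ g.h0, huq q hq, hrun _ (g.hZ q hq)]
    exact Iff.rfl
  apply w'.att_core hq0 ?_ ?_ (G ∪ C) ?_ ?_ ?_ ?_
    (fun i => if i.val < w.k then bw j ++ uq i.val else bw (i.val - w.k))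
    (fun i => if i.val < w.k then wd i.val else bw (j - (i.val - w.k)) ++ wd w.q0) ?_ ?_
  · intro i hi p hp
    by_cases h : i < w.k
    · have : p ∈ w.A i := by simpa [hw', ext, h] using hp
      have := g.hA i h p this
      omega
    · have : p ∈ E := by simpa [hw', ext, h] using hp
      have := hEk p this
      omega
  · intro i hi p hp
    have hq := g.q0
    by_cases h : i < w.k
    · have : p ∈ w.B i := by simpa [hw', ext, h] using hp
      have := g.hB i h p this
      omega
    · by_cases h2 : i + 1 < w.k + j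
      · have : p = i + 1 := by simpa [hw', ext, h, h2] using hp
        omega
      · have : p = w.q0 := by simpa [hw', ext, h, h2] using hp
        omega
  · rw [Finset.mem_union, hCm]
    by_cases hj : j = 0
    · left
      have : w'.q0 = w.q0 := by simp [hw', ext, hj]
      rw [this]; exact g.h0
    · right
      refine ⟨0, by omega, ?_⟩
      have : w'.q0 = w.k := by simp [hw', ext, hj]
      rw [this]; rfl
  · intro S hS x
    rw [Finset.mem_union] at hS ⊢
    rcases hS with hS | hS
    · left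
      rw [hw', w.ext_st E j S (g.lt S hS)]
      exact g.hcl S hS x
    · obtain ⟨i, hi, rfl⟩ := (hCm S).1 hS
      by_cases hx : x = 0
      · subst hx
        left
        rw [hw', ext_a]; exact g.hE
      · have hx1 : x = 1 := by omega
        subst hx1
        rw [hw', ext_b]
        split_ifs with h
        · right; rw [hCm]; exact ⟨i + 1, h, rfl⟩
        · left; exact g.h0
  · intro S hS
    rw [Finset.mem_union] at hS
    rcases hS with hS | hS
    · obtain ⟨u, hu⟩ := g.hr S hS
      refine ⟨bw j ++ u, ?_⟩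
      rw [run_append, hstart, hrun _ g.h0, hu]
    · obtain ⟨i, hi, rfl⟩ := (hCm S).1 hS
      exact ⟨bw i, hstart' i hi⟩
  · have key : ∀ S ∈ G, ∀ i < j, ¬ (∀ u, w'.acc (w'.run S u) ↔ w'.acc (w'.run {w.k + i} u)) := by
      intro S hS i hi h
      by_cases hne : S.Nonempty
      · obtain ⟨q, hq⟩ := hne
        have hqk := g.lt S hS q hq
        have h1 := h (wd q)
        rw [hrun S hS] at h1
        exact g.reject j (wd q) i hi (g.cr q hqk) (h1.1 ((g.acc_iff S (g.lt S hS) q hqk).2 hq))
      · rw [Finset.not_nonempty_iff_eq_empty] at hne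
        subst hne
        have h1 := h (bw (j - i) ++ wd w.q0)
        rw [run_append, run_append, run_empty, run_empty, hw', w.ext_bw' E j i hi, ← hw',
          hrun _ g.h0] at h1
        have h2 : w'.acc (w.run {w.q0} (wd w.q0)) :=
          (g.er _ g.q0 _ g.q0).2 rfl
        obtain ⟨p, hp, _⟩ := h1.2 h2
        simp at hp
    intro S hS T hT h
    rw [Finset.mem_union] at hS hT
    rcases hS with hS | hS <;> rcases hT with hT | hT
    · ext q
      by_cases hq : q < w.k
      · rw [← g.acc_iff S (g.lt S hS) q hq, ← g.acc_iff T (g.lt T hT) q hq,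
          ← hrun S hS, ← hrun T hT]
        exact h (wd q)
      · constructor
        · intro h'; exact absurd (g.lt S hS q h') hq
        · intro h'; exact absurd (g.lt T hT q h') hq
    · obtain ⟨i, hi, rfl⟩ := (hCm T).1 hT
      exact absurd h (key S hS i hi)
    · obtain ⟨i, hi, rfl⟩ := (hCm S).1 hS
      exact absurd (fun u => (h u).symm) (key T hT i hi)
    · have key2 : ∀ i i', i < i' → i' < j →
          ¬ (∀ u, w'.acc (w'.run {w.k + i} u) ↔ w'.acc (w'.run {w.k + i'} u)) := by
        intro i i' h1 h2 h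
        have h3 := h (bw (j - i') ++ wd w.q0)
        rw [run_append, run_append, hw', w.ext_bw' E j i' h2,
          w.ext_bw E j (j - i') i (by omega), ← hw', hrun _ g.h0] at h3
        exact g.reject j (wd w.q0) (i + (j - i')) (by omega) (g.cr _ g.q0)
          (h3.2 ((g.er _ g.q0 _ g.q0).2 rfl))
      obtain ⟨i, hi, rfl⟩ := (hCm S).1 hS
      obtain ⟨i', hi', rfl⟩ := (hCm T).1 hT
      rcases Nat.lt_trichotomy i i' with h3 | h3 | h3
      · exact absurd h (key2 i i' h3 hi')
      · rw [h3]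
      · exact absurd (fun u => (h u).symm) (key2 i' i h3 hi)
  · rintro ⟨i, hi⟩
    have hi' : i < w.k + j := hi
    by_cases h : i < w.k
    · simp only [h, if_true]
      rw [accq i h, g.acc_iff _ (hZlt i h) i h]
      exact g.hZm i h
    · simp only [h, if_false]
      rw [run_append, run_append, hstart' (i - w.k) (by omega), hw',
        w.ext_bw' E j (i - w.k) (by omega), ← hw', hrun _ g.h0]
      exact (g.er _ g.q0 _ g.q0).2 rfl
  · have key : ∀ i i' : ℕ, i < i' → i' < w.k + j →
        (¬ w'.acc (w'.run {w'.q0} ((if i < w.k then bw j ++ uq i else bw (i - w.k)) ++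
          (if i' < w.k then wd i' else bw (j - (i' - w.k)) ++ wd w.q0))) ∨
        ¬ w'.acc (w'.run {w'.q0} ((if i' < w.k then bw j ++ uq i' else bw (i' - w.k)) ++
          (if i < w.k then wd i else bw (j - (i - w.k)) ++ wd w.q0)))) := by
      intro i i' h1 h2
      by_cases h3 : i' < w.k
      · have h4 : i < w.k := by omega
        rw [if_pos h4, if_pos h3, if_pos h3, if_pos h4, accq i h4, accq i' h3,
          g.acc_iff _ (hZlt i h4) i' h3, g.acc_iff _ (hZlt i' h3) i h4]
        by_contra hcon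
        push Not at hcon
        exact g.hZo i h4 i' h3 (by omega) ⟨hcon.2, hcon.1⟩
      · by_cases h4 : i < w.k
        · right
          rw [if_neg h3, if_pos h4, run_append, hstart' (i' - w.k) (by omega)]
          exact g.reject j (wd i) (i' - w.k) (by omega) (g.cr i h4)
        · left
          rw [if_neg h4, if_neg h3, ← List.append_assoc, run_append, run_append,
            hstart' (i - w.k) (by omega), hw',
            w.ext_bw E j (j - (i' - w.k)) (i - w.k) (by omega), ← hw']
          exact g.reject j (wd w.q0) _ (by omega) (g.cr _ g.q0)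
    rintro ⟨i, hi⟩ ⟨i', hi'⟩ hne
    have hne' : i ≠ i' := fun h => hne (Fin.ext h)
    rcases Nat.lt_or_gt_of_ne hne' with h1 | h1
    · exact key i i' h1 hi'
    · exact (key i' i h1 hi).symm

end Wd

end Pool.Agent.Y550.Mag
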