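import Mathlib

set_option autoImplicit false

namespace Pool.Agent.Y550.Mag

/-- injective functions from `{0, ..., K-1}` to `{1, ..., K}` without interior local maxima -/
structure Val (K : ℕ) (π : ℕ → ℕ) : Prop where
  pos : ∀ i < K, 1 ≤ π i
  le : ∀ i < K, π i ≤ K
  inj : ∀ i < K, ∀ j < K, π i = π j → i = j
  val : ∀ i j k, i < j → j < k → k < K → π j < max (π i) (π k)

theorem exists_val (K : ℕ) : ∀ V, V < 2 ^ K → ∃ (π : ℕ → ℕ) (s : ℕ), Val K π ∧ s ≤ K ∧
    ∑ j ∈ Finset.range (K - s), 2 ^ (K - π (s + j)) = V := by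
  induction K with
  | zero =>
    intro V hV
    refine ⟨fun _ => 0, 0, ⟨?_, ?_, ?_, ?_⟩, le_refl _, ?_⟩
    · intro i hi; omega
    · intro i hi; omega
    · intro i hi; omega
    · intro i j k _ _ hi; omega
    · simp at hV ⊢; omega
  | succ K ih =>
    intro V hV
    obtain ⟨π, s, hπ, hs, hsum⟩ := ih (V / 2) (by rw [pow_succ] at hV; omega)
    rcases Nat.mod_two_eq_zero_or_one V with h2 | h2
    · refine ⟨fun i => if i = 0 then K + 1 else π (i - 1), s + 1, ⟨?_, ?_, ?_, ?_⟩, by omega, ?_⟩
      · intro i hi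
        by_cases h : i = 0
        · simp [h]
        · simp only [h, if_false]; exact hπ.pos _ (by omega)
      · intro i hi
        by_cases h : i = 0
        · simp [h]
        · simp only [h, if_false]; have := hπ.le (i - 1) (by omega); omega
      · intro i hi j hj hij
        by_cases h : i = 0 <;> by_cases h' : j = 0
        · omega
        · simp only [h, h', if_true, if_false] at hij
          have := hπ.le (j - 1) (by omega); omega
        · simp only [h, h', if_true, if_false] at hij
          have := hπ.le (i - 1) (by omega); omega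
        · simp only [h, h', if_false] at hij
          have := hπ.inj (i - 1) (by omega) (j - 1) (by omega) hij; omega
      · intro i j k hij hjk hk
        have hj : j ≠ 0 := by omega
        have hk' : k ≠ 0 := by omega
        simp only [hj, hk', if_false]
        by_cases h : i = 0
        · simp only [h, if_true]
          have := hπ.le (j - 1) (by omega)
          exact lt_of_lt_of_le (by omega) (le_max_left _ _)
        · simp only [h, if_false]
          exact hπ.val (i - 1) (j - 1) (k - 1) (by omega) (by omega) (by omega)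
      · have e1 : K + 1 - (s + 1) = K - s := by omega
        rw [e1]
        have e2 : ∀ j ∈ Finset.range (K - s), 2 ^ (K + 1 - (fun i => if i = 0 then K + 1 else
            π (i - 1)) (s + 1 + j)) = 2 * 2 ^ (K - π (s + j)) := by
          intro j hj
          rw [Finset.mem_range] at hj
          have h3 : s + 1 + j ≠ 0 := by omega
          have h4 : s + 1 + j - 1 = s + j := by omega
          have h5 := hπ.le (s + j) (by omega)
          simp only [h3, if_false, h4]
          have h6 : K + 1 - π (s + j) = (K - π (s + j)) + 1 := by omega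
          rw [h6, pow_succ]; ring
        rw [Finset.sum_congr rfl e2, ← Finset.mul_sum, hsum]
        omega
    · refine ⟨fun i => if i = K then K + 1 else π i, s, ⟨?_, ?_, ?_, ?_⟩, by omega, ?_⟩
      · intro i hi
        by_cases h : i = K
        · simp [h]
        · simp only [h, if_false]; exact hπ.pos _ (by omega)
      · intro i hi
        by_cases h : i = K
        · simp [h]
        · simp only [h, if_false]; have := hπ.le i (by omega); omega
      · intro i hi j hj hij
        by_cases h : i = K <;> by_cases h' : j = K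
        · omega
        · simp only [h, h', if_true, if_false] at hij
          have := hπ.le j (by omega); omega
        · simp only [h, h', if_true, if_false] at hij
          have := hπ.le i (by omega); omega
        · simp only [h, h', if_false] at hij
          exact hπ.inj i (by omega) j (by omega) hij
      · intro i j k hij hjk hk
        have hj : j ≠ K := by omega
        have hi' : i ≠ K := by omega
        simp only [hj, hi', if_false]
        by_cases h : k = K
        · simp only [h, if_true]
          have := hπ.le j (by omega)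
          exact lt_of_lt_of_le (by omega) (le_max_right _ _)
        · simp only [h, if_false]
          exact hπ.val i j k (by omega) (by omega) (by omega)
      · have e1 : K + 1 - s = (K - s) + 1 := by omega
        rw [e1, Finset.sum_range_succ]
        have e2 : ∀ j ∈ Finset.range (K - s), 2 ^ (K + 1 - (fun i => if i = K then K + 1 else
            π i) (s + j)) = 2 * 2 ^ (K - π (s + j)) := by
          intro j hj
          rw [Finset.mem_range] at hj
          have h3 : s + j ≠ K := by omega
          have h5 := hπ.le (s + j) (by omega)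
          simp only [h3, if_false]
          have h6 : K + 1 - π (s + j) = (K - π (s + j)) + 1 := by omega
          rw [h6, pow_succ]; ring
        rw [Finset.sum_congr rfl e2, ← Finset.mul_sum, hsum]
        have h3 : s + (K - s) = K := by omega
        simp only [h3, if_true, Nat.sub_self, pow_zero]
        omega

/-- the counting function -/
def phi (K : ℕ) (π : ℕ → ℕ) (m h : ℕ) : ℕ :=
  ∑ j ∈ Finset.range (K - h), 2 ^ (K - max (π (m + j)) (π (h + j)))

theorem phi_succ (K : ℕ) (π : ℕ → ℕ) (m h : ℕ) (hh : h < K) :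
    phi K π m h = phi K π (m + 1) (h + 1) + 2 ^ (K - max (π m) (π h)) := by
  unfold phi
  have e : K - h = (K - (h + 1)) + 1 := by omega
  rw [e, Finset.sum_range_succ']
  congr 1
  apply Finset.sum_congr rfl
  intro j _
  rw [show m + (j + 1) = m + 1 + j by omega, show h + (j + 1) = h + 1 + j by omega]

theorem Val.max_lt {K : ℕ} {π : ℕ → ℕ} (hπ : Val K π) {m i h : ℕ} (h1 : m ≤ i) (h2 : i ≤ h)
    (h3 : h < K) : π i ≤ max (π m) (π h) := by
  rcases Nat.eq_or_lt_of_le h1 with h4 | h4
  · rw [h4]; exact le_max_left _ _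
  · rcases Nat.eq_or_lt_of_le h2 with h5 | h5
    · rw [h5]; exact le_max_right _ _
    · exact (hπ.val m i h h4 h5 h3).le

theorem phi_zero {K : ℕ} {π : ℕ → ℕ} (hπ : Val K π) (h : ℕ) (h1 : 1 ≤ h) (h2 : h ≤ K) :
    phi K π 0 h + 1 = 2 ^ (K - h) := by
  set M : ℕ → ℕ := fun j => max (π (0 + j)) (π (h + j)) with hM
  have hinj : Set.InjOn M (Finset.range (K - h) : Set ℕ) := by
    intro i hi j hj hij
    rw [Finset.coe_range, Set.mem_Iio] at hi hj
    have key : ∀ i j, i < j → j < K - h → M i ≠ M j := by
      intro i j hij' hj' he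
      have hA : M i = π i ∨ M i = π (h + i) := by
        simp only [hM, zero_add]
        rcases max_choice (π i) (π (h + i)) with h3 | h3
        · left; exact h3
        · right; exact h3
      have hB : M j = π j ∨ M j = π (h + j) := by
        simp only [hM, zero_add]
        rcases max_choice (π j) (π (h + j)) with h3 | h3
        · left; exact h3
        · right; exact h3
      have hA1 : π i ≤ M i := by simp only [hM, zero_add]; exact le_max_left _ _
      have hB1 : π (h + j) ≤ M j := by simp only [hM, zero_add]; exact le_max_right _ _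
      rcases hA with hA | hA <;> rcases hB with hB | hB
      · rw [hA, hB] at he
        have := hπ.inj i (by omega) j (by omega) he
        omega
      · rw [hA, hB] at he
        have := hπ.inj i (by omega) (h + j) (by omega) he
        omega
      · have he' := he
        rw [hA, hB] at he'
        have h3 := hπ.inj (h + i) (by omega) j (by omega) he'
        have h4 := hπ.val i j (h + j) (by omega) (by omega) (by omega)
        rw [← hB] at h4
        have : max (π i) (π (h + j)) ≤ M j := max_le (by rw [← he]; exact hA1) hB1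
        omega
      · rw [hA, hB] at he
        have := hπ.inj (h + i) (by omega) (h + j) (by omega) he
        omega
    rcases Nat.lt_trichotomy i j with h3 | h3 | h3
    · exact absurd hij (key i j h3 hj)
    · exact h3
    · exact absurd hij.symm (key j i h3 hi)
  have himg : (Finset.range (K - h)).image M = Finset.Icc (h + 1) K := by
    apply Finset.eq_of_subset_of_card_le
    · intro x hx
      obtain ⟨j, hj, rfl⟩ := Finset.mem_image.1 hx
      rw [Finset.mem_range] at hj
      rw [Finset.mem_Icc]
      constructor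
      · have h3 : (Finset.Icc j (h + j)).image π ⊆ Finset.Icc 1 (M j) := by
          intro y hy
          obtain ⟨i, hi, rfl⟩ := Finset.mem_image.1 hy
          rw [Finset.mem_Icc] at hi ⊢
          refine ⟨hπ.pos i (by omega), ?_⟩
          have := hπ.max_lt hi.1 hi.2 (by omega)
          simpa only [hM, zero_add] using this
        have h4 := Finset.card_le_card h3
        rw [Finset.card_image_of_injOn, Nat.card_Icc, Nat.card_Icc] at h4
        · omega
        · intro a ha b hb hab
          rw [Finset.coe_Icc, Set.mem_Icc] at ha hb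
          exact hπ.inj a (by omega) b (by omega) hab
      · simp only [hM, zero_add]
        exact max_le (hπ.le _ (by omega)) (hπ.le _ (by omega))
    · rw [Finset.card_image_of_injOn hinj, Finset.card_range, Nat.card_Icc]
      omega
  have h5 : phi K π 0 h = ∑ x ∈ Finset.Icc (h + 1) K, 2 ^ (K - x) := by
    rw [← himg, Finset.sum_image hinj]
    rfl
  have h6 : ∀ d h, K - h = d → h ≤ K → ∑ x ∈ Finset.Icc (h + 1) K, 2 ^ (K - x) + 1 = 2 ^ (K - h) := by
    intro d
    induction d with
    | zero =>
      intro h h1 h2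
      have : h = K := by omega
      subst this
      simp
    | succ d ih =>
      intro h h1 h2
      rw [← Finset.add_sum_Ioc_eq_sum_Icc (by omega : h + 1 ≤ K)]
      have : Finset.Ioc (h + 1) K = Finset.Icc (h + 1 + 1) K := by
        ext x; simp only [Finset.mem_Ioc, Finset.mem_Icc]; omega
      rw [this]
      have h7 := ih (h + 1) (by omega) (by omega)
      have h8 : K - h = (K - (h + 1)) + 1 := by omega
      rw [h8, pow_succ]
      omega
  rw [h5]
  exact h6 _ h rfl h2

/-- shift -/
def sh (S : Finset ℕ) : Finset ℕ := S.image (· + 1)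

/-- the second move -/
def bs (π : ℕ → ℕ) (S : Finset ℕ) : Finset ℕ := insert 0 (S.image π)

/-- sets reachable from `S` before the first exit -/
inductive Rc (K : ℕ) (π : ℕ → ℕ) (S : Finset ℕ) : Finset ℕ → Prop
  | refl : Rc K π S S
  | a (R : Finset ℕ) : Rc K π S R → (∀ i ∈ R, i + 1 < K) → Rc K π S (sh R)
  | b (R : Finset ℕ) : Rc K π S R → (∀ i ∈ R, π i ≠ K) → Rc K π S (bs π R)

theorem Rc.trans {K : ℕ} {π : ℕ → ℕ} {S T R : Finset ℕ} (h1 : Rc K π S T) (h2 : Rc K π T R) :
    Rc K π S R := by
  induction h2 with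
  | refl => exact h1
  | a R _ h ih => exact Rc.a R ih h
  | b R _ h ih => exact Rc.b R ih h

theorem Rc.head {K : ℕ} {π : ℕ → ℕ} {S R : Finset ℕ} (h : Rc K π S R) :
    R = S ∨ ((∀ i ∈ S, i + 1 < K) ∧ Rc K π (sh S) R) ∨
      ((∀ i ∈ S, π i ≠ K) ∧ Rc K π (bs π S) R) := by
  induction h with
  | refl => left; rfl
  | a R h1 h2 ih =>
    rcases ih with rfl | ⟨h3, h4⟩ | ⟨h3, h4⟩
    · right; left; exact ⟨h2, Rc.refl⟩
    · right; left; exact ⟨h3, Rc.a R h4 h2⟩
    · right; right; exact ⟨h3, Rc.a R h4 h2⟩
  | b R h1 h2 ih =>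
    rcases ih with rfl | ⟨h3, h4⟩ | ⟨h3, h4⟩
    · right; right; exact ⟨h2, Rc.refl⟩
    · right; left; exact ⟨h3, Rc.b R h4 h2⟩
    · right; right; exact ⟨h3, Rc.b R h4 h2⟩

/-- `m` and `h` are the minimum and the maximum of `S` -/
def Ex (S : Finset ℕ) (m h : ℕ) : Prop := m ∈ S ∧ h ∈ S ∧ ∀ i ∈ S, m ≤ i ∧ i ≤ h

theorem Ex.uniq {S : Finset ℕ} {m h m' h' : ℕ} (h1 : Ex S m h) (h2 : Ex S m' h') :
    m = m' ∧ h = h' := by
  have a1 := h1.2.2 m' h2.1
  have a2 := h1.2.2 h' h2.2.1
  have a3 := h2.2.2 m h1.1
  have a4 := h2.2.2 h h1.2.1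
  omega

theorem Ex.sh {S : Finset ℕ} {m h : ℕ} (h1 : Ex S m h) : Ex (sh S) (m + 1) (h + 1) := by
  unfold Mag.sh
  refine ⟨Finset.mem_image_of_mem _ h1.1, Finset.mem_image_of_mem _ h1.2.1, ?_⟩
  intro i hi
  obtain ⟨j, hj, rfl⟩ := Finset.mem_image.1 hi
  have := h1.2.2 j hj
  omega

theorem Ex.bs {S : Finset ℕ} {m h K : ℕ} {π : ℕ → ℕ} (hπ : Val K π) (h1 : Ex S m h) (hK : h < K) :
    Ex (bs π S) 0 (max (π m) (π h)) := by
  unfold Mag.bs
  refine ⟨Finset.mem_insert_self _ _, ?_, ?_⟩
  · apply Finset.mem_insert_of_mem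
    rcases max_choice (π m) (π h) with h3 | h3
    · rw [h3]; exact Finset.mem_image_of_mem _ h1.1
    · rw [h3]; exact Finset.mem_image_of_mem _ h1.2.1
  · intro i hi
    refine ⟨Nat.zero_le _, ?_⟩
    rcases Finset.mem_insert.1 hi with rfl | hi
    · exact Nat.zero_le _
    · obtain ⟨j, hj, rfl⟩ := Finset.mem_image.1 hi
      exact hπ.max_lt (h1.2.2 j hj).1 (h1.2.2 j hj).2 hK

theorem Ex.a_iff {S : Finset ℕ} {m h K : ℕ} (h1 : Ex S m h) :
    (∀ i ∈ S, i + 1 < K) ↔ h + 1 < K := by
  constructor
  · intro h2; exact h2 h h1.2.1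
  · intro h2 i hi
    have := (h1.2.2 i hi).2
    omega

theorem Ex.b_iff {S : Finset ℕ} {m h K : ℕ} {π : ℕ → ℕ} (hπ : Val K π) (h1 : Ex S m h)
    (hK : h < K) : (∀ i ∈ S, π i ≠ K) ↔ max (π m) (π h) < K := by
  constructor
  · intro h2
    have a1 := h2 m h1.1
    have a2 := h2 h h1.2.1
    have a3 := hπ.le h hK
    have a4 := hπ.le m (lt_of_le_of_lt (h1.2.2 h h1.2.1).1 hK)
    exact max_lt (by omega) (by omega)
  · intro h2 i hi
    have := hπ.max_lt (h1.2.2 i hi).1 (h1.2.2 i hi).2 hK
    omega

theorem phi_a {K : ℕ} {π : ℕ → ℕ} (m h : ℕ) (hh : h < K) :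
    phi K π (m + 1) (h + 1) < phi K π m h := by
  rw [phi_succ K π m h hh]
  have : 0 < 2 ^ (K - max (π m) (π h)) := by positivity
  omega

theorem phi_b {K : ℕ} {π : ℕ → ℕ} (hπ : Val K π) (m h : ℕ) (hm : m ≤ h) (hh : h < K)
    (h2 : max (π m) (π h) < K) :
    phi K π 0 (max (π m) (π h)) < phi K π m h := by
  have h3 := hπ.pos m (by omega)
  have h4 := phi_zero hπ (max (π m) (π h)) (le_trans h3 (le_max_left _ _)) h2.le
  rw [phi_succ K π m h hh]
  omega

/-- the counting function decreases along the moves -/
theorem Rc.mono {K : ℕ} {π : ℕ → ℕ} (hπ : Val K π) {S R : Finset ℕ} (h : Rc K π S R) {m t : ℕ}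
    (hS : Ex S m t) (ht : t < K) :
    ∃ m' t', Ex R m' t' ∧ t' < K ∧ phi K π m' t' ≤ phi K π m t := by
  induction h with
  | refl => exact ⟨m, t, hS, ht, le_refl _⟩
  | a R _ h ih =>
    obtain ⟨m', t', h1, h2, h3⟩ := ih
    refine ⟨m' + 1, t' + 1, h1.sh, h1.a_iff.1 h, ?_⟩
    have := phi_a (π := π) m' t' h2
    omega
  | b R _ h ih =>
    obtain ⟨m', t', h1, h2, h3⟩ := ih
    have h4 := (h1.b_iff hπ h2).1 h
    refine ⟨0, _, h1.bs hπ h2, h4, ?_⟩
    have := phi_b hπ m' t' (h1.2.2 t' h1.2.1).1 h2 h4
    omega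

theorem sh_inj {S T : Finset ℕ} (h : sh S = sh T) : S = T := by
  unfold sh at h
  exact Finset.image_injective (fun a b hab => by simpa using hab) h

theorem zero_notMem_sh (S : Finset ℕ) : 0 ∉ sh S := by
  unfold sh; simp

theorem zero_mem_bs (π : ℕ → ℕ) (S : Finset ℕ) : 0 ∈ bs π S := by
  unfold bs; simp

theorem bs_inj {K : ℕ} {π : ℕ → ℕ} (hπ : Val K π) {S T : Finset ℕ} (hS : ∀ i ∈ S, i < K)
    (hT : ∀ i ∈ T, i < K) (h : bs π S = bs π T) : S = T := by
  have key : ∀ S T : Finset ℕ, (∀ i ∈ S, i < K) → (∀ i ∈ T, i < K) → bs π S = bs π T → S ⊆ T := by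
    intro S T hS hT h i hi
    have h1 : π i ∈ bs π T := by
      rw [← h]; exact Finset.mem_insert_of_mem (Finset.mem_image_of_mem _ hi)
    have h2 := hπ.pos i (hS i hi)
    rcases Finset.mem_insert.1 h1 with h3 | h3
    · omega
    · obtain ⟨j, hj, h4⟩ := Finset.mem_image.1 h3
      have := hπ.inj j (hT j hj) i (hS i hi) h4
      rw [← this]; exact hj
  exact Finset.Subset.antisymm (key S T hS hT h) (key T S hT hS h.symm)

theorem Rc.lt {K : ℕ} {π : ℕ → ℕ} (hπ : Val K π) {S R : Finset ℕ} (h : Rc K π S R)
    (hK : 0 < K) (hS : ∀ i ∈ S, i < K) : ∀ i ∈ R, i < K := by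
  induction h with
  | refl => exact hS
  | a R _ h ih =>
    intro i hi
    unfold sh at hi
    obtain ⟨j, hj, rfl⟩ := Finset.mem_image.1 hi
    exact h j hj
  | b R _ h ih =>
    intro i hi
    unfold bs at hi
    rcases Finset.mem_insert.1 hi with rfl | hi
    · exact hK
    · obtain ⟨j, hj, rfl⟩ := Finset.mem_image.1 hi
      have := hπ.le j (ih j hj)
      have := h j hj
      omega

theorem Rc.comp {K : ℕ} {π : ℕ → ℕ} (hπ : Val K π) (hK : 0 < K) {X Y R : Finset ℕ}
    (hX : ∀ i ∈ X, i < K) (hY : ∀ i ∈ Y, i < K)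
    (h1 : Rc K π X R) (h2 : Rc K π Y R) : Rc K π X Y ∨ Rc K π Y X := by
  induction h1 with
  | refl => right; exact h2
  | a R h3 h4 ih =>
    generalize hR : sh R = R' at h2
    cases h2 with
    | refl => left; rw [← hR]; exact Rc.a R h3 h4
    | a R2 h5 h6 =>
      have := sh_inj hR
      subst this
      exact ih h5
    | b R2 h5 h6 =>
      have := zero_mem_bs π R2
      rw [← hR] at this
      exact absurd this (zero_notMem_sh R)
  | b R h3 h4 ih =>
    generalize hR : bs π R = R' at h2
    cases h2 with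
    | refl => left; rw [← hR]; exact Rc.b R h3 h4
    | a R2 h5 h6 =>
      have := zero_mem_bs π R
      rw [hR] at this
      exact absurd this (zero_notMem_sh R2)
    | b R2 h5 h6 =>
      have := bs_inj hπ (h3.lt hπ hK hX) (h5.lt hπ hK hY) hR
      subst this
      exact ih h5

open Classical in
/-- the finite set of reachable sets -/
noncomputable def RS (K : ℕ) (π : ℕ → ℕ) (S : Finset ℕ) : Finset (Finset ℕ) :=
  (Finset.range K).powerset.filter (fun R => Rc K π S R)

theorem mem_RS {K : ℕ} {π : ℕ → ℕ} (hπ : Val K π) (hK : 0 < K) {S : Finset ℕ}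
    (hS : ∀ i ∈ S, i < K) (R : Finset ℕ) : R ∈ RS K π S ↔ Rc K π S R := by
  classical
  unfold RS
  rw [Finset.mem_filter, Finset.mem_powerset]
  constructor
  · intro h; exact h.2
  · intro h
    exact ⟨fun i hi => Finset.mem_range.2 (h.lt hπ hK hS i hi), h⟩

theorem card_RS {K : ℕ} {π : ℕ → ℕ} (hπ : Val K π) (hK : 0 < K) : ∀ (N : ℕ) (S : Finset ℕ)
    (m h : ℕ), Ex S m h → h < K → phi K π m h = N → (RS K π S).card = N := by
  classical
  intro N
  induction N using Nat.strong_induction_on with
  | _ N ih =>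
    intro S m h hE hh hN
    have hmh : m ≤ h := (hE.2.2 h hE.2.1).1
    have hSK : ∀ i ∈ S, i < K := fun i hi => lt_of_le_of_lt (hE.2.2 i hi).2 hh
    have hphi := phi_succ K π m h hh
    -- the two parts
    have hA : ∃ X : Finset (Finset ℕ), X.card = phi K π (m + 1) (h + 1) ∧
        ∀ R, R ∈ X ↔ ((∀ i ∈ S, i + 1 < K) ∧ Rc K π (sh S) R) := by
      by_cases h1 : h + 1 < K
      · refine ⟨RS K π (sh S), ?_, ?_⟩
        · have := phi_a (π := π) m h hh
          exact ih _ (by omega) (sh S) (m + 1) (h + 1) hE.sh h1 rfl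
        · intro R
          rw [mem_RS hπ hK (fun i hi => lt_of_le_of_lt (hE.sh.2.2 i hi).2 h1)]
          exact ⟨fun h2 => ⟨hE.a_iff.2 h1, h2⟩, fun h2 => h2.2⟩
      · refine ⟨∅, ?_, ?_⟩
        · have : K - (h + 1) = 0 := by omega
          simp [phi, this]
        · intro R
          constructor
          · intro h2; simp at h2
          · intro h2; exact absurd (hE.a_iff.1 h2.1) h1
    have hB : ∃ X : Finset (Finset ℕ), X.card + 1 = 2 ^ (K - max (π m) (π h)) ∧
        ∀ R, R ∈ X ↔ ((∀ i ∈ S, π i ≠ K) ∧ Rc K π (bs π S) R) := by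
      by_cases h1 : max (π m) (π h) < K
      · have h3 := hπ.pos m (by omega)
        have h4 := phi_zero hπ (max (π m) (π h)) (le_trans h3 (le_max_left _ _)) h1.le
        refine ⟨RS K π (bs π S), ?_, ?_⟩
        · rw [← h4]
          have := phi_b hπ m h hmh hh h1
          rw [ih _ (by omega) (bs π S) 0 _ (hE.bs hπ hh) h1 rfl]
        · intro R
          rw [mem_RS hπ hK (fun i hi => lt_of_le_of_lt ((hE.bs hπ hh).2.2 i hi).2 h1)]
          exact ⟨fun h2 => ⟨(hE.b_iff hπ hh).2 h1, h2⟩, fun h2 => h2.2⟩
      · refine ⟨∅, ?_, ?_⟩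
        · have h3 : max (π m) (π h) = K :=
            le_antisymm (max_le (hπ.le m (by omega)) (hπ.le h hh)) (by omega)
          rw [h3]; simp
        · intro R
          constructor
          · intro h2; simp at h2
          · intro h2; exact absurd ((hE.b_iff hπ hh).1 h2.1) h1
    obtain ⟨X, hX1, hX2⟩ := hA
    obtain ⟨Y, hY1, hY2⟩ := hB
    have hno : ∀ T, Rc K π T S → ∀ m' t', Ex T m' t' → t' < K →
        phi K π m' t' < phi K π m h → False := by
      intro T hT m' t' h1 h2 h3
      obtain ⟨m2, t2, h4, h5, h6⟩ := hT.mono hπ h1 h2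
      obtain ⟨e1, e2⟩ := h4.uniq hE
      subst e1; subst e2
      omega
    have hSX : S ∉ X := by
      intro h1
      have h2 := (hX2 S).1 h1
      have h3 := hE.a_iff.1 h2.1
      exact hno _ h2.2 _ _ hE.sh h3 (phi_a m h hh)
    have hSY : S ∉ Y := by
      intro h1
      have h2 := (hY2 S).1 h1
      have h3 := (hE.b_iff hπ hh).1 h2.1
      exact hno _ h2.2 _ _ (hE.bs hπ hh) h3 (phi_b hπ m h hmh hh h3)
    have hXY : Disjoint X Y := by
      rw [Finset.disjoint_left]
      intro R hR1 hR2
      have h1 := (hX2 R).1 hR1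
      have h2 := (hY2 R).1 hR2
      have h3 := hE.a_iff.1 h1.1
      have h4 := (hE.b_iff hπ hh).1 h2.1
      have l1 : ∀ i ∈ sh S, i < K := fun i hi => lt_of_le_of_lt (hE.sh.2.2 i hi).2 h3
      have l2 : ∀ i ∈ bs π S, i < K := fun i hi => lt_of_le_of_lt ((hE.bs hπ hh).2.2 i hi).2 h4
      rcases Rc.comp hπ hK l1 l2 h1.2 h2.2 with h5 | h5
      · generalize hR : bs π S = R' at h5
        cases h5 with
        | refl =>
          have := zero_mem_bs π S
          rw [hR] at this
          exact absurd this (zero_notMem_sh S)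
        | a R2 h5 h6 =>
          have := zero_mem_bs π S
          rw [hR] at this
          exact absurd this (zero_notMem_sh R2)
        | b R2 h5 h6 =>
          have := bs_inj hπ hSK (h5.lt hπ hK l1) hR
          subst this
          exact hno _ h5 _ _ hE.sh h3 (phi_a m h hh)
      · generalize hR : sh S = R' at h5
        cases h5 with
        | refl =>
          have := zero_mem_bs π S
          rw [← hR] at this
          exact absurd this (zero_notMem_sh S)
        | a R2 h5 h6 =>
          have := sh_inj hR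
          subst this
          exact hno _ h5 _ _ (hE.bs hπ hh) h4 (phi_b hπ m h hmh hh h4)
        | b R2 h5 h6 =>
          have := zero_mem_bs π R2
          rw [← hR] at this
          exact absurd this (zero_notMem_sh S)
    have hU : RS K π S = insert S (X ∪ Y) := by
      ext R
      rw [mem_RS hπ hK hSK, Finset.mem_insert, Finset.mem_union, hX2, hY2]
      constructor
      · intro h1; exact h1.head
      · rintro (rfl | ⟨h1, h2⟩ | ⟨h1, h2⟩)
        · exact Rc.refl
        · exact (Rc.a S Rc.refl h1).trans h2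
        · exact (Rc.b S Rc.refl h1).trans h2
    rw [hU, Finset.card_insert_of_notMem, Finset.card_union_of_disjoint hXY]
    · omega
    · rw [Finset.mem_union]; tauto

end Pool.Agent.Y550.Mag
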