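import Pool.Agent.Y550.Mag.Ext
import Pool.Agent.Y550.Mag.Tree

set_option autoImplicit false

namespace Pool.Agent.Y550.Mag

theorem Val.surj {K : ℕ} {π : ℕ → ℕ} (hπ : Val K π) (v : ℕ) (h1 : 1 ≤ v) (h2 : v ≤ K) :
    ∃ i < K, π i = v := by
  have h3 : (Finset.range K).image π = Finset.Icc 1 K := by
    apply Finset.eq_of_subset_of_card_le
    · intro x hx
      obtain ⟨i, hi, rfl⟩ := Finset.mem_image.1 hx
      rw [Finset.mem_range] at hi
      rw [Finset.mem_Icc]
      exact ⟨hπ.pos i hi, hπ.le i hi⟩
    · rw [Finset.card_image_of_injOn, Finset.card_range, Nat.card_Icc]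
      · omega
      · intro a ha b hb hab
        rw [Finset.coe_range, Set.mem_Iio] at ha hb
        exact hπ.inj a ha b hb hab
  have h4 : v ∈ (Finset.range K).image π := by
    rw [h3, Finset.mem_Icc]; exact ⟨h1, h2⟩
  obtain ⟨i, hi, h5⟩ := Finset.mem_image.1 h4
  exact ⟨i, Finset.mem_range.1 hi, h5⟩

theorem Ex.single (s : ℕ) : Ex {s} s s := by
  refine ⟨Finset.mem_singleton_self _, Finset.mem_singleton_self _, ?_⟩
  intro i hi
  rw [Finset.mem_singleton] at hi
  omega

theorem card_U {K : ℕ} {π : ℕ → ℕ} (hπ : Val K π) (s V : ℕ) (hs : s < K)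
    (hV : ∑ j ∈ Finset.range (K - s), 2 ^ (K - π (s + j)) = V) : (RS K π {s}).card = V := by
  apply card_RS hπ (by omega) V {s} s s (Ex.single s) hs
  rw [← hV]
  unfold phi
  apply Finset.sum_congr rfl
  intro j _
  rw [max_self]

theorem Rc.nonempty {K : ℕ} {π : ℕ → ℕ} {S R : Finset ℕ} (h : Rc K π S R)
    (hS : S.Nonempty) : R.Nonempty := by
  induction h with
  | refl => exact hS
  | a R _ h ih => exact ih.image _
  | b R _ h ih => exact ⟨0, zero_mem_bs π R⟩

/-- the chain of singletons -/
theorem Rc.singles {K : ℕ} {π : ℕ → ℕ} (s : ℕ) (m : ℕ) : s + m < K → Rc K π {s} {s + m} := by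
  induction m with
  | zero => intro _; exact Rc.refl
  | succ m ih =>
    intro h
    have h1 := Rc.a _ (ih (by omega)) (by
      intro i hi
      rw [Finset.mem_singleton] at hi
      omega)
    have h2 : sh {s + m} = {s + (m + 1)} := by
      unfold sh; rw [Finset.image_singleton]; rfl
    rwa [h2] at h1

theorem Rc.top {K : ℕ} {π : ℕ → ℕ} (s : ℕ) (hs : s < K) : Rc K π {s} {K - 1} := by
  have h := Rc.singles (K := K) (π := π) s (K - 1 - s) (by omega)
  have e : s + (K - 1 - s) = K - 1 := by omega
  rwa [e] at h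

/-- a family given by a marker -/
def fam (K : ℕ) (c : ℕ) : Finset (Finset ℕ) := (Finset.range K).powerset.image (insert c)

theorem card_fam (K c : ℕ) (hc : K ≤ c) : (fam K c).card = 2 ^ K := by
  unfold fam
  rw [Finset.card_image_of_injOn, Finset.card_powerset, Finset.card_range]
  intro S hS T hT h
  rw [Finset.coe_powerset, Set.mem_preimage, Set.mem_powerset_iff] at hS hT
  have hS' : c ∉ S := fun h' => by
    have := hS h'; simp at this; omega
  have hT' : c ∉ T := fun h' => by
    have := hT h'; simp at this; omega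
  have h1 : (insert c S).erase c = (insert c T).erase c := by
    have h2 : insert c S = insert c T := h
    rw [h2]
  rwa [Finset.erase_insert hS', Finset.erase_insert hT'] at h1

theorem mem_fam (K c : ℕ) (T : Finset ℕ) :
    T ∈ fam K c ↔ c ∈ T ∧ ∀ i ∈ T, i < K ∨ i = c := by
  unfold fam
  rw [Finset.mem_image]
  constructor
  · rintro ⟨S, hS, rfl⟩
    refine ⟨Finset.mem_insert_self _ _, ?_⟩
    intro i hi
    rcases Finset.mem_insert.1 hi with h | h
    · right; exact h
    · left; exact Finset.mem_range.1 (Finset.mem_powerset.1 hS h)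
  · rintro ⟨h1, h2⟩
    refine ⟨T.filter (· < K), ?_, ?_⟩
    · rw [Finset.mem_powerset]
      intro i hi
      rw [Finset.mem_filter] at hi
      exact Finset.mem_range.2 hi.2
    · ext i
      rw [Finset.mem_insert, Finset.mem_filter]
      constructor
      · rintro (rfl | h)
        · exact h1
        · exact h.1
      · intro h
        rcases h2 i h with h3 | h3
        · right; exact ⟨h, h3⟩
        · left; exact h3

end Pool.Agent.Y550.Mag
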