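import Pool.Agent.Y550.Mag.WP

set_option autoImplicit false

namespace Pool.Agent.Y550.Mag

open Wd

/-- shift by `r` -/
def shr (r : ℕ) (S : Finset ℕ) : Finset ℕ := S.image (· + r)

theorem shr_zero (S : Finset ℕ) : shr 0 S = S := by
  unfold shr; simp

theorem shr_succ (r : ℕ) (S : Finset ℕ) : shr (r + 1) S = sh (shr r S) := by
  unfold shr sh
  rw [Finset.image_image]
  rfl

theorem shr_add (r r' : ℕ) (S : Finset ℕ) : shr (r + r') S = shr r' (shr r S) := by
  unfold shr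
  rw [Finset.image_image]
  apply Finset.image_congr
  intro i _
  show i + (r + r') = i + r + r'
  omega

theorem mem_shr (r : ℕ) (S : Finset ℕ) (j : ℕ) : j ∈ shr r S ↔ ∃ i ∈ S, i + r = j := by
  unfold shr; rw [Finset.mem_image]

theorem card_shr (r : ℕ) (S : Finset ℕ) : (shr r S).card = S.card := by
  unfold shr
  exact Finset.card_image_of_injective _ (fun a b h => by
    have h' : a + r = b + r := h
    omega)

theorem down (K : ℕ) (R : Finset ℕ) (hR : ∀ i ∈ R, i < K) (hne : R.Nonempty) :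
    ∃ (Q : Finset ℕ) (r : ℕ), 0 ∈ Q ∧ Q.card = R.card ∧ (∀ i ∈ Q, i + r < K) ∧ shr r Q = R := by
  set r := R.min' hne with hr
  have h1 : ∀ i ∈ R, r ≤ i := fun i hi => R.min'_le i hi
  have h2 : r ∈ R := R.min'_mem hne
  have h3 : shr r (R.image (· - r)) = R := by
    ext j
    rw [mem_shr]
    constructor
    · rintro ⟨i, hi, h⟩
      obtain ⟨i', hi', h'⟩ := Finset.mem_image.1 hi
      have := h1 i' hi'
      have e : j = i' := by omega
      rw [e]; exact hi'
    · intro hj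
      exact ⟨j - r, Finset.mem_image_of_mem _ hj, by have := h1 j hj; omega⟩
  refine ⟨R.image (· - r), r, ?_, ?_, ?_, h3⟩
  · rw [Finset.mem_image]
    exact ⟨r, h2, Nat.sub_self r⟩
  · rw [← card_shr r, h3]
  · intro i hi
    apply hR
    rw [← h3, mem_shr]
    exact ⟨i, hi, rfl⟩

/-- injections into `{1, ..., K}` -/
structure Inj (K : ℕ) (π : ℕ → ℕ) : Prop where
  pos : ∀ i < K, 1 ≤ π i
  le : ∀ i < K, π i ≤ K
  inj : ∀ i < K, ∀ j < K, π i = π j → i = j

theorem Val.toInj {K : ℕ} {π : ℕ → ℕ} (hπ : Val K π) : Inj K π := ⟨hπ.pos, hπ.le, hπ.inj⟩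

theorem Inj.surj {K : ℕ} {π : ℕ → ℕ} (hπ : Inj K π) (v : ℕ) (h1 : 1 ≤ v) (h2 : v ≤ K) :
    ∃ i < K, π i = v := by
  have h3 : (Finset.range K).image π = Finset.Icc 1 K := by
    apply Finset.eq_of_subset_of_card_le
    · intro x hx
      obtain ⟨i, hi, rfl⟩ := Finset.mem_image.1 hx
      rw [Finset.mem_range] at hi
      rw [Finset.mem_Icc]
      exact ⟨hπ.pos i hi, hπ.le i hi⟩
    · rw [Finset.card_image_of_injOn, Finset.card_range, Nat.card_Icc]
      · omega
      · intro a ha b hb hab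
        rw [Finset.coe_range, Set.mem_Iio] at ha hb
        exact hπ.inj a ha b hb hab
  have h4 : v ∈ (Finset.range K).image π := by
    rw [h3, Finset.mem_Icc]; exact ⟨h1, h2⟩
  obtain ⟨i, hi, h5⟩ := Finset.mem_image.1 h4
  exact ⟨i, Finset.mem_range.1 hi, h5⟩

theorem Inj.pull {K : ℕ} {π : ℕ → ℕ} (hπ : Inj K π) (Q : Finset ℕ) (h0 : 0 ∈ Q)
    (hQ : ∀ i ∈ Q, i < K) :
    ∃ P : Finset ℕ, (∀ i ∈ P, i < K ∧ π i ≠ K) ∧ P.card + 1 = Q.card ∧ bs π P = Q := by
  set P := (Finset.range K).filter (fun i => π i ∈ Q) with hP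
  have hPm : ∀ i, i ∈ P ↔ i < K ∧ π i ∈ Q := by
    intro i; rw [hP, Finset.mem_filter, Finset.mem_range]
  have himg : P.image π = Q.erase 0 := by
    ext v
    rw [Finset.mem_image, Finset.mem_erase]
    constructor
    · rintro ⟨i, hi, rfl⟩
      rw [hPm] at hi
      have := hπ.pos i hi.1
      exact ⟨by omega, hi.2⟩
    · rintro ⟨h1, h2⟩
      obtain ⟨i, hi, h3⟩ := hπ.surj v (by omega) (hQ v h2).le
      exact ⟨i, (hPm i).2 ⟨hi, by rw [h3]; exact h2⟩, h3⟩
  refine ⟨P, ?_, ?_, ?_⟩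
  · intro i hi
    rw [hPm] at hi
    refine ⟨hi.1, ?_⟩
    have := hQ _ hi.2
    omega
  · have h1 : (P.image π).card = P.card := by
      apply Finset.card_image_of_injOn
      intro a ha b hb hab
      exact hπ.inj a ((hPm a).1 ha).1 b ((hPm b).1 hb).1 hab
    rw [← h1, himg, Finset.card_erase_of_mem h0]
    have : 0 < Q.card := Finset.card_pos.2 ⟨0, h0⟩
    omega
  · unfold bs
    rw [himg, Finset.insert_erase h0]

theorem re_shr {w : Wd} {K : ℕ} {M : Finset ℕ}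
    (h1 : ∀ R : Finset ℕ, (∀ i ∈ R, i + 1 < K) → w.st 0 (M ∪ R) = M ∪ sh R)
    (Q : Finset ℕ) (h : Re w (M ∪ Q)) (m : ℕ) : (∀ i ∈ Q, i + m < K) → Re w (M ∪ shr m Q) := by
  induction m with
  | zero => intro _; rwa [shr_zero]
  | succ m ih =>
    intro hm
    have h2 := (ih (fun i hi => by have := hm i hi; omega)).step 0
    rw [h1 _ (by
      intro i hi
      rw [mem_shr] at hi
      obtain ⟨j, hj, rfl⟩ := hi
      have := hm j hj
      omega), ← shr_succ] at h2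
    exact h2

theorem re_all {w : Wd} {K : ℕ} {π : ℕ → ℕ} {M : Finset ℕ} (hπ : Inj K π)
    (h1 : ∀ R : Finset ℕ, (∀ i ∈ R, i + 1 < K) → w.st 0 (M ∪ R) = M ∪ sh R)
    (h2 : ∀ R : Finset ℕ, (∀ i ∈ R, i < K ∧ π i ≠ K) → w.st 1 (M ∪ R) = M ∪ bs π R)
    (h0 : Re w M) : ∀ (n : ℕ) (R : Finset ℕ), R.card = n → (∀ i ∈ R, i < K) → Re w (M ∪ R) := by
  intro n
  induction n with
  | zero =>
    intro R hR _
    rw [Finset.card_eq_zero] at hR
    subst hR
    rwa [Finset.union_empty]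
  | succ n ih =>
    intro R hR hlt
    obtain ⟨Q, r, hQ0, hQc, hQr, hQR⟩ := down K R hlt (by rw [← Finset.card_pos]; omega)
    obtain ⟨P, hP, hPc, hPQ⟩ := hπ.pull Q hQ0 (fun i hi => by have := hQr i hi; omega)
    have h3 := (ih P (by omega) (fun i hi => (hP i hi).1)).step 1
    rw [h2 P hP, hPQ] at h3
    have h4 := re_shr h1 Q h3 r hQr
    rwa [hQR] at h4

end Pool.Agent.Y550.Mag
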