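import Pool.Agent.Y550.Mag.WP

set_option autoImplicit false

namespace Pool.Agent.Y550.Mag

open Wd

section

variable {K : ℕ} {π : ℕ → ℕ} {s : ℕ}

/-- the reading words of the first automaton -/
def wdP (K t : ℕ) (i : ℕ) : List (Fin 2) :=
  if i < K then aw ((t + K - i - 1) % K + 1) ++ [1, 1] else if i = K then [1] else []

def ZP (K : ℕ) (i : ℕ) : Finset ℕ :=
  if i < K then insert K {i} else if i = K then {K} else {K + 1}

theorem aw_succ (m : ℕ) : aw (m + 1) = 0 :: aw m := rfl

theorem aw_succ' (m : ℕ) : aw (m + 1) = aw m ++ [0] := aw_add m 1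

theorem P_run_line (p : ℕ) (hp : p < K) (m : ℕ) :
    (∀ j ∈ (wP K π s).run {p} (aw m), j ≤ K) ∧
    ∀ j < K, (j ∈ (wP K π s).run {p} (aw m) ↔ j = (p + m) % K) := by
  induction m with
  | zero =>
    have e : (wP K π s).run {p} (aw 0) = {p} := rfl
    rw [e]
    constructor
    · intro j hj; rw [Finset.mem_singleton] at hj; omega
    · intro j _; rw [Finset.mem_singleton, add_zero, Nat.mod_eq_of_lt hp]
  | succ m ih =>
    have e : (wP K π s).run {p} (aw (m + 1)) =
        (wP K π s).st 0 ((wP K π s).run {p} (aw m)) := by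
      rw [aw_succ', run_append]; rfl
    rw [e]
    have hmod : (p + (m + 1)) % K = ((p + m) % K + 1) % K := by
      rw [Nat.mod_add_mod]; rfl
    have hlt : (p + m) % K < K := Nat.mod_lt _ (by omega)
    constructor
    · intro j hj
      rw [P_a] at hj
      rcases hj with ⟨i, hi, h1, h2⟩ | ⟨i, hi, h1, h2⟩ | ⟨i, hi, h1, h2⟩ <;> omega
    · intro j hj
      rw [P_a, hmod]
      constructor
      · rintro (⟨i, hi, h1, h2⟩ | ⟨i, hi, h1, h2⟩ | ⟨i, hi, h1, h2⟩)
        · rw [(ih.2 i (by omega)).1 hi] at h1 h2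
          rw [h2, Nat.mod_eq_of_lt h1]
        · rw [(ih.2 i (by omega)).1 hi] at h1
          rw [h1, Nat.mod_self]
          omega
        · omega
      · intro h
        have h1 := (ih.2 _ hlt).2 rfl
        by_cases h2 : (p + m) % K + 1 < K
        · rw [Nat.mod_eq_of_lt h2] at h
          exact Or.inl ⟨_, h1, h2, h⟩
        · have h3 : (p + m) % K + 1 = K := by omega
          rw [h3, Nat.mod_self] at h
          exact Or.inr (Or.inl ⟨_, h1, h3, Or.inl h⟩)

theorem P_st_K (c : ℕ) (hc : K ≤ c) : (wP K π s).st 0 {c} = {K} := by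
  ext j
  rw [P_a]
  simp only [Finset.mem_singleton]
  constructor
  · rintro (⟨i, rfl, h1, h2⟩ | ⟨i, rfl, h1, h2⟩ | ⟨i, rfl, h1, h2⟩) <;> omega
  · intro h; exact Or.inr (Or.inr ⟨c, rfl, hc, h⟩)

theorem P_run_K (m : ℕ) : (wP K π s).run {K} (aw m) = {K} := by
  induction m with
  | zero => rfl
  | succ m ih => rw [aw_succ, run_cons, P_st_K K le_rfl, ih]

theorem P_run_mark (c : ℕ) (hc : K ≤ c) (m : ℕ) : (wP K π s).run {c} (aw (m + 1)) = {K} := by
  rw [aw_succ, run_cons, P_st_K c hc, P_run_K]

theorem P_acc (S : Finset ℕ) : (wP K π s).acc S ↔ K + 1 ∈ S := by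
  unfold acc
  constructor
  · rintro ⟨i, hi, h⟩
    have : i = K + 1 := Finset.mem_singleton.1 h
    rw [← this]; exact hi
  · intro h
    exact ⟨K + 1, h, Finset.mem_singleton_self _⟩

theorem P_y (hπ : Val K π) (S : Finset ℕ) : K + 1 ∈ (wP K π s).st 1 S ↔ K ∈ S := by
  rw [P_b]
  constructor
  · rintro (⟨i, hi, h1, h2, h3⟩ | ⟨i, hi, h1, h2, h3⟩ | ⟨h1, h2⟩ | ⟨i, hi, h1, h2⟩)
    · omega
    · have := hπ.le i h1; omega
    · exact h1
    · omega
  · intro h; exact Or.inr (Or.inr (Or.inl ⟨h, rfl⟩))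

theorem P_x (hπ : Val K π) (t : ℕ) (ht : t < K) (htK : π t = K) (S : Finset ℕ)
    (hS : ∀ i ∈ S, i ≤ K) : K ∈ (wP K π s).st 1 S ↔ t ∈ S := by
  rw [P_b]
  constructor
  · rintro (⟨i, hi, h1, h2, h3⟩ | ⟨i, hi, h1, h2, h3⟩ | ⟨h1, h2⟩ | ⟨i, hi, h1, h2⟩)
    · rw [hπ.inj t ht i h1 (by rw [htK, h2])]; exact hi
    · rcases h3 with h3 | h3
      · omega
      · exact absurd h3.symm h2
    · omega
    · have := hS i hi; omega
  · intro h; exact Or.inl ⟨t, h, ht, htK, rfl⟩

theorem P_acc2 (hπ : Val K π) (t : ℕ) (ht : t < K) (htK : π t = K) (S : Finset ℕ)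
    (hS : ∀ i ∈ S, i ≤ K) : (wP K π s).acc ((wP K π s).run S [1, 1]) ↔ t ∈ S := by
  have e : (wP K π s).run S [1, 1] = (wP K π s).st 1 ((wP K π s).st 1 S) := rfl
  rw [e, P_acc, P_y hπ, P_x hπ t ht htK S hS]

theorem P_er (hπ : Val K π) (t : ℕ) (ht : t < K) (htK : π t = K) :
    ∀ p < K + 2, ∀ q < K + 2,
      ((wP K π s).acc ((wP K π s).run {p} (wdP K t q)) ↔ p = q) := by
  intro p hp q hq
  unfold wdP
  by_cases h1 : q < K
  · rw [if_pos h1, run_append]
    set m := (t + K - q - 1) % K with hm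
    by_cases h2 : p < K
    · obtain ⟨h3, h4⟩ := P_run_line (π := π) (s := s) p h2 (m + 1)
      rw [P_acc2 hπ t ht htK _ h3, h4 t ht]
      have hqm : (q + (m + 1)) % K = t := by
        rw [hm, show q + ((t + K - q - 1) % K + 1) = (q + 1) + (t + K - q - 1) % K by omega,
          Nat.add_mod_mod, show q + 1 + (t + K - q - 1) = t + K by omega, Nat.add_mod_right,
          Nat.mod_eq_of_lt ht]
      constructor
      · intro h5
        have h6 : (p + (m + 1)) % K = (q + (m + 1)) % K := by rw [← h5, hqm]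
        have h7 : p ≡ q [MOD K] := Nat.ModEq.add_right_cancel' (m + 1) h6
        have h8 : p % K = q % K := h7
        rwa [Nat.mod_eq_of_lt h2, Nat.mod_eq_of_lt h1] at h8
      · rintro rfl
        exact hqm.symm
    · rw [P_run_mark p (by omega), P_acc2 hπ t ht htK _ (by
        intro i hi; rw [Finset.mem_singleton] at hi; omega), Finset.mem_singleton]
      constructor
      · intro h; omega
      · intro h; omega
  · rw [if_neg h1]
    by_cases h2 : q = K
    · rw [if_pos h2]
      have e : (wP K π s).run {p} [1] = (wP K π s).st 1 {p} := rfl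
      rw [e, P_acc, P_y hπ, Finset.mem_singleton, h2]
      exact eq_comm
    · rw [if_neg h2, run_nil, P_acc, Finset.mem_singleton]
      omega

theorem P_cr (hπ : Val K π) (hs : s < K) (t : ℕ) (ht : t < K) (htK : π t = K) :
    ∀ q < K + 2, (wP K π s).CR {K} (wdP K t q) := by
  intro q _
  unfold wdP
  split_ifs with h1 h2
  · rw [aw_succ, List.cons_append]
    simp only [CR, if_true]
    rw [run_append, P_run_K, P_acc2 hπ t ht htK _ (by
        intro i hi; rw [Finset.mem_singleton] at hi; omega), Finset.mem_singleton]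
    omega
  · simp only [CR, one_ne_zero, if_false, true_and]
    rw [run_nil, P_acc, Finset.mem_singleton]
    show ¬ K + 1 = s
    omega
  · trivial

theorem P_good (hπ : Val K π) (hs : s < K) (t : ℕ) (ht : t < K) (htK : π t = K) :
    Good (wP K π s) (GP K π s) {K} (wdP K t) (ZP K) where
  q0 := by show s < K + 2; omega
  hA := by
    intro i hi j hj
    have h : j ∈ (wP K π s).st 0 {i} := by
      rw [mem_st]; exact ⟨i, Finset.mem_singleton_self _, by simpa using hj⟩
    show j < K + 2
    rw [P_a] at h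
    rcases h with ⟨i, hi, h1, h2⟩ | ⟨i, hi, h1, h2⟩ | ⟨i, hi, h1, h2⟩ <;> omega
  hB := by
    intro i hi j hj
    have h : j ∈ (wP K π s).st 1 {i} := by
      rw [mem_st]; exact ⟨i, Finset.mem_singleton_self _, by simpa using hj⟩
    show j < K + 2
    rw [P_b] at h
    rcases h with ⟨i, hi, h1, h2, h3⟩ | ⟨i, hi, h1, h2, h3⟩ | ⟨h1, h2⟩ | ⟨i, hi, h1, h2⟩
    · omega
    · have := hπ.le i h1; omega
    · omega
    · omega
  hF := by
    intro i hi
    have : i = K + 1 := Finset.mem_singleton.1 hi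
    show i < K + 2
    omega
  h0 := by
    have hlt : ∀ i ∈ ({s} : Finset ℕ), i < K := by
      intro i hi; rw [Finset.mem_singleton.1 hi]; exact hs
    unfold GP
    rw [Finset.mem_union]
    left
    rw [mem_RS hπ (by omega) hlt]
    exact Rc.refl
  hcl := P_closed hπ hs
  hr := P_reach hπ hs
  er := P_er hπ t ht htK
  hE := by
    unfold GP
    rw [Finset.mem_union, Finset.mem_union, mem_fam]
    right; left
    refine ⟨Finset.mem_singleton_self _, ?_⟩
    intro i hi; right; exact Finset.mem_singleton.1 hi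
  cr := P_cr hπ hs t ht htK
  hZ := by
    intro q _
    unfold GP ZP
    rw [Finset.mem_union, Finset.mem_union]
    split_ifs with h1 h2
    · right; left
      rw [mem_fam]
      refine ⟨Finset.mem_insert_self _ _, ?_⟩
      intro i hi
      rcases Finset.mem_insert.1 hi with h | h
      · right; exact h
      · left; rw [Finset.mem_singleton.1 h]; exact h1
    · right; left
      rw [mem_fam]
      refine ⟨Finset.mem_singleton_self _, ?_⟩
      intro i hi; right; exact Finset.mem_singleton.1 hi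
    · right; right
      rw [mem_famP]
      refine ⟨∅, by intro i hi; simp at hi, ?_⟩
      ext j
      rw [P_b_fam ∅ (by intro i hi; simp at hi), Finset.mem_singleton]
      constructor
      · rintro (⟨i, hi, _⟩ | ⟨i, hi, _⟩ | h)
        · simp at hi
        · simp at hi
        · exact h
      · intro h; right; right; exact h
  hZm := by
    intro q hq
    have hq' : q < K + 2 := hq
    unfold ZP
    split_ifs with h1 h2
    · simp
    · simp [h2]
    · rw [Finset.mem_singleton]; omega
  hZo := by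
    intro p hp q hq hne
    have hp' : p < K + 2 := hp
    have hq' : q < K + 2 := hq
    rintro ⟨h1, h2⟩
    unfold ZP at h1 h2
    split_ifs at h1 h2 <;> simp only [Finset.mem_insert, Finset.mem_singleton] at h1 h2 <;> omega

theorem attP (K V : ℕ) (hV1 : 1 ≤ V) (hV2 : V < 2 ^ K) (j : ℕ) :
    Att (K + 2 + j) (2 ^ (K + 1) + V + j) := by
  obtain ⟨π, s, hπ, hsK, hsum⟩ := exists_val K V hV2
  have hs : s < K := by
    rcases Nat.lt_or_ge s K with h | h
    · exact h
    · have : K - s = 0 := by omega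
      rw [this] at hsum
      simp at hsum
      omega
  obtain ⟨t, ht, htK⟩ := hπ.surj K (by omega) le_rfl
  have h := (P_good hπ hs t ht htK).att j
  rw [card_GP hπ V hs hsum] at h
  have e : V + (2 ^ K + 2 ^ K) + j = 2 ^ (K + 1) + V + j := by rw [pow_succ]; omega
  rw [e] at h
  exact h

end

end Pool.Agent.Y550.Mag
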