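import Pool.Agent.Y550.Mag.Hlp2
import Pool.Agent.Y550.Mag.WP2

set_option autoImplicit false

namespace Pool.Agent.Y550.Mag

open Wd

/-- third automaton -/
def wD (K : ℕ) (π : ℕ → ℕ) (q : ℕ) : Wd where
  k := K + 1
  A := fun i => if i + 1 < K then {i + 1} else if i + 1 = K then ∅ else {K}
  B := fun i => if i < K then (if π i = K then {K} else {0, π i}) else {K, 0}
  q0 := q
  F := {K - 1}

/-- its map -/
def pD (K t : ℕ) (i : ℕ) : ℕ := if i < t then i + 1 else if i = t then K else i

theorem pD_inj (K t : ℕ) (ht : t < K) : Inj K (pD K t) := by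
  refine ⟨?_, ?_, ?_⟩
  · intro i hi
    unfold pD
    split_ifs <;> omega
  · intro i hi
    unfold pD
    split_ifs <;> omega
  · intro i hi j hj h
    unfold pD at h
    split_ifs at h <;> omega

theorem pD_lt {K t i : ℕ} (h : i < t) : pD K t i = i + 1 := by
  unfold pD; rw [if_pos h]

theorem pD_eq {K t : ℕ} : pD K t t = K := by
  unfold pD; rw [if_neg (lt_irrefl _), if_pos rfl]

theorem pD_gt {K t i : ℕ} (h : t < i) : pD K t i = i := by
  unfold pD; rw [if_neg (by omega), if_neg (by omega)]

theorem pD_K {K t i : ℕ} (hi : i < K) (ht : t < K) : pD K t i = K ↔ i = t := by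
  unfold pD
  split_ifs <;> omega

section

variable {K : ℕ} {π : ℕ → ℕ} {s : ℕ}

theorem D_a (S : Finset ℕ) (j : ℕ) : j ∈ (wD K π s).st 0 S ↔
    (∃ i ∈ S, i + 1 < K ∧ j = i + 1) ∨ (∃ i ∈ S, K ≤ i ∧ j = K) := by
  rw [mem_st]
  simp only [if_true, wD]
  constructor
  · rintro ⟨i, hi, hj⟩
    by_cases h1 : i + 1 < K
    · simp only [h1, if_true, Finset.mem_singleton] at hj
      exact Or.inl ⟨i, hi, h1, hj⟩
    · by_cases h2 : i + 1 = K
      · rw [if_neg h1, if_pos h2] at hj
        exact absurd hj (Finset.notMem_empty _)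
      · simp only [h1, h2, if_false, Finset.mem_singleton] at hj
        exact Or.inr ⟨i, hi, by omega, hj⟩
  · rintro (⟨i, hi, h1, h2⟩ | ⟨i, hi, h1, h2⟩)
    · refine ⟨i, hi, ?_⟩
      simp [h1, h2]
    · refine ⟨i, hi, ?_⟩
      have h3 : ¬ (i + 1 < K) := by omega
      have h4 : ¬ (i + 1 = K) := by omega
      simp [h2, h3, h4]

theorem D_b (S : Finset ℕ) (j : ℕ) : j ∈ (wD K π s).st 1 S ↔
    (∃ i ∈ S, i < K ∧ π i = K ∧ j = K) ∨ (∃ i ∈ S, i < K ∧ π i ≠ K ∧ (j = 0 ∨ j = π i)) ∨
    (∃ i ∈ S, K ≤ i ∧ (j = K ∨ j = 0)) := by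
  rw [mem_st]
  simp only [one_ne_zero, if_false, wD]
  constructor
  · rintro ⟨i, hi, hj⟩
    by_cases h1 : i < K
    · by_cases h2 : π i = K
      · simp only [h1, h2, if_true, Finset.mem_singleton] at hj
        exact Or.inl ⟨i, hi, h1, h2, hj⟩
      · simp only [h1, h2, if_true, if_false, Finset.mem_singleton, Finset.mem_insert] at hj
        exact Or.inr (Or.inl ⟨i, hi, h1, h2, hj⟩)
    · simp only [h1, if_false, Finset.mem_singleton, Finset.mem_insert] at hj
      exact Or.inr (Or.inr ⟨i, hi, by omega, hj⟩)
  · rintro (⟨i, hi, h1, h2, h3⟩ | ⟨i, hi, h1, h2, h3⟩ | ⟨i, hi, h1, h2⟩)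
    · exact ⟨i, hi, by simp [h1, h2, h3]⟩
    · exact ⟨i, hi, by simp [h1, h2, h3]⟩
    · have h3 : ¬ (i < K) := by omega
      exact ⟨i, hi, by simp [h2, h3]⟩

/-- the family -/
def GD (K c : ℕ) : Finset (Finset ℕ) :=
  ((Finset.range K).powerset \ (Finset.range c).image (fun j => Finset.range (j + 1))) ∪ fam K K

theorem mem_GD (c : ℕ) (T : Finset ℕ) : T ∈ GD K c ↔
    ((∀ i ∈ T, i < K) ∧ ∀ j < c, T ≠ Finset.range (j + 1)) ∨
    (K ∈ T ∧ ∀ i ∈ T, i < K ∨ i = K) := by
  unfold GD
  rw [Finset.mem_union, mem_fam, Finset.mem_sdiff, Finset.mem_powerset, Finset.mem_image]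
  constructor
  · rintro (⟨h1, h2⟩ | h)
    · left
      refine ⟨fun i hi => Finset.mem_range.1 (h1 hi), ?_⟩
      intro j hj h
      exact h2 ⟨j, Finset.mem_range.2 hj, h.symm⟩
    · right; exact h
  · rintro (⟨h1, h2⟩ | h)
    · left
      refine ⟨fun i hi => Finset.mem_range.2 (h1 i hi), ?_⟩
      rintro ⟨j, hj, h⟩
      exact h2 j (Finset.mem_range.1 hj) h.symm
    · right; exact h

theorem card_GD (c : ℕ) (hc : c + 1 ≤ K) : (GD K c).card + c = 2 ^ (K + 1) := by
  unfold GD
  have hsub : (Finset.range c).image (fun j => Finset.range (j + 1)) ⊆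
      (Finset.range K).powerset := by
    intro T hT
    obtain ⟨j, hj, rfl⟩ := Finset.mem_image.1 hT
    rw [Finset.mem_range] at hj
    rw [Finset.mem_powerset]
    intro i hi
    rw [Finset.mem_range] at hi ⊢
    omega
  have hcard : ((Finset.range c).image (fun j => Finset.range (j + 1))).card = c := by
    rw [Finset.card_image_of_injective, Finset.card_range]
    intro a b hab
    have h1 : (Finset.range (a + 1)).card = (Finset.range (b + 1)).card := congrArg _ hab
    rw [Finset.card_range, Finset.card_range] at h1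
    omega
  have hle := Finset.card_le_card hsub
  rw [Finset.card_union_of_disjoint, Finset.card_sdiff_of_subset hsub, hcard, card_fam K K le_rfl,
    Finset.card_powerset, Finset.card_range, pow_succ]
  · rw [hcard, Finset.card_powerset, Finset.card_range] at hle
    omega
  · rw [Finset.disjoint_left]
    intro T h1 h2
    rw [Finset.mem_sdiff, Finset.mem_powerset] at h1
    rw [mem_fam] at h2
    have := h1.1 h2.1
    rw [Finset.mem_range] at this
    omega

theorem D_sh (R : Finset ℕ) (hR : ∀ i ∈ R, i + 1 < K) : (wD K π s).st 0 R = sh R := by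
  ext j
  rw [D_a]
  unfold sh
  rw [Finset.mem_image]
  constructor
  · rintro (⟨i, hi, h1, h2⟩ | ⟨i, hi, h1, h2⟩)
    · exact ⟨i, hi, h2.symm⟩
    · have := hR i hi; omega
  · rintro ⟨i, hi, rfl⟩
    exact Or.inl ⟨i, hi, hR i hi, rfl⟩

theorem D_bs (R : Finset ℕ) (hR : ∀ i ∈ R, i < K ∧ π i ≠ K) (hne : R.Nonempty) :
    (wD K π s).st 1 R = bs π R := by
  ext j
  rw [D_b]
  unfold bs
  rw [Finset.mem_insert, Finset.mem_image]
  constructor
  · rintro (⟨i, hi, h1, h2, h3⟩ | ⟨i, hi, h1, h2, h3⟩ | ⟨i, hi, h1, h2⟩)
    · exact absurd h2 (hR i hi).2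
    · rcases h3 with h3 | h3
      · left; exact h3
      · right; exact ⟨i, hi, h3.symm⟩
    · have := (hR i hi).1; omega
  · rintro (h | ⟨i, hi, h⟩)
    · obtain ⟨i, hi⟩ := hne
      exact Or.inr (Or.inl ⟨i, hi, (hR i hi).1, (hR i hi).2, Or.inl h⟩)
    · exact Or.inr (Or.inl ⟨i, hi, (hR i hi).1, (hR i hi).2, Or.inr h.symm⟩)

theorem D_shM (R : Finset ℕ) (hR : ∀ i ∈ R, i + 1 < K) :
    (wD K π s).st 0 ({K} ∪ R) = {K} ∪ sh R := by
  rw [st_union, D_sh R hR]
  congr 1
  ext j
  rw [D_a]
  simp only [Finset.mem_singleton]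
  constructor
  · rintro (⟨i, rfl, h1, h2⟩ | ⟨i, rfl, h1, h2⟩) <;> omega
  · intro h; exact Or.inr ⟨K, rfl, le_rfl, h⟩

theorem D_bsM (R : Finset ℕ) (hR : ∀ i ∈ R, i < K ∧ π i ≠ K) :
    (wD K π s).st 1 ({K} ∪ R) = {K} ∪ bs π R := by
  ext j
  rw [D_b]
  unfold bs
  simp only [Finset.mem_union, Finset.mem_singleton, Finset.mem_insert, Finset.mem_image]
  constructor
  · rintro (⟨i, hi, h1, h2, h3⟩ | ⟨i, hi, h1, h2, h3⟩ | ⟨i, hi, h1, h2⟩)
    · left; exact h3
    · rcases h3 with h3 | h3
      · right; left; exact h3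
      · rcases hi with hi | hi
        · omega
        · right; right; exact ⟨i, hi, h3.symm⟩
    · rcases h2 with h2 | h2
      · left; exact h2
      · right; left; exact h2
  · rintro (h | h | ⟨i, hi, h⟩)
    · exact Or.inr (Or.inr ⟨K, Or.inl rfl, le_rfl, Or.inl h⟩)
    · exact Or.inr (Or.inr ⟨K, Or.inl rfl, le_rfl, Or.inr h⟩)
    · exact Or.inr (Or.inl ⟨i, Or.inr hi, (hR i hi).1, (hR i hi).2, Or.inr h.symm⟩)

theorem D_lt (hπ : Inj K π) (x : Fin 2) (S : Finset ℕ) : ∀ j ∈ (wD K π s).st x S, j < K ∨ j = K := by
  intro j hj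
  have hx : x = 0 ∨ x = 1 := by omega
  rcases hx with rfl | rfl
  · rw [D_a] at hj
    rcases hj with ⟨i, hi, h1, h2⟩ | ⟨i, hi, h1, h2⟩
    · left; omega
    · right; exact h2
  · rw [D_b] at hj
    rcases hj with ⟨i, hi, h1, h2, h3⟩ | ⟨i, hi, h1, h2, h3⟩ | ⟨i, hi, h1, h2⟩
    · right; exact h3
    · have := hπ.le i h1
      rcases h3 with h3 | h3 <;> omega
    · omega

theorem D_mark (hπ : Inj K π) (x : Fin 2) (S : Finset ℕ) (h : K ∈ S) :
    K ∈ (wD K π s).st x S := by
  have hx : x = 0 ∨ x = 1 := by omega
  rcases hx with rfl | rfl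
  · rw [D_a]; exact Or.inr ⟨K, h, le_rfl, rfl⟩
  · rw [D_b]; exact Or.inr (Or.inr ⟨K, h, le_rfl, Or.inl rfl⟩)

theorem D_closed (t c : ℕ) (ht : t < K) (hct : c ≤ t + 1) (htc : c = t + 1 ∨ t = 0) :
    ∀ S ∈ GD K c, ∀ x, (wD K (pD K t) s).st x S ∈ GD K c := by
  have hπ := pD_inj K t ht
  intro S hS x
  rw [mem_GD] at hS ⊢
  rcases hS with ⟨hlt, hno⟩ | ⟨hK, _⟩
  · have hx : x = 0 ∨ x = 1 := by omega
    rcases hx with rfl | rfl
    · left
      constructor
      · intro j hj
        rw [D_a] at hj
        rcases hj with ⟨i, hi, h1, h2⟩ | ⟨i, hi, h1, h2⟩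
        · omega
        · have := hlt i hi; omega
      · intro j hj h
        have h0 : 0 ∈ (wD K (pD K t) s).st 0 S := by
          rw [h, Finset.mem_range]; omega
        rw [D_a] at h0
        rcases h0 with ⟨i, hi, h1, h2⟩ | ⟨i, hi, h1, h2⟩
        · omega
        · have := hlt i hi; omega
    · by_cases htS : t ∈ S
      · right
        refine ⟨?_, D_lt hπ 1 S⟩
        rw [D_b]
        exact Or.inl ⟨t, htS, ht, pD_eq, rfl⟩
      · left
        have hSt : ∀ i ∈ S, i < K ∧ pD K t i ≠ K := by
          intro i hi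
          refine ⟨hlt i hi, ?_⟩
          rw [Ne, pD_K (hlt i hi) ht]
          rintro rfl
          exact htS hi
        constructor
        · intro j hj
          rw [D_b] at hj
          rcases hj with ⟨i, hi, h1, h2, h3⟩ | ⟨i, hi, h1, h2, h3⟩ | ⟨i, hi, h1, h2⟩
          · exact absurd h2 (hSt i hi).2
          · have := hπ.le i h1
            rcases h3 with h3 | h3 <;> omega
          · have := hlt i hi; omega
        · intro j hj h
          by_cases hne : S.Nonempty
          · rw [D_bs S hSt hne] at h
            obtain ⟨i, hi⟩ := hne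
            have h1 : pD K t i ∈ bs (pD K t) S := by
              unfold bs; exact Finset.mem_insert_of_mem (Finset.mem_image_of_mem _ hi)
            rw [h, Finset.mem_range] at h1
            have h2 := hπ.pos i (hlt i hi)
            have hj1 : 1 ≤ j := by omega
            have hct' : c = t + 1 := by
              rcases htc with h3 | h3 <;> omega
            apply hno (j - 1) (by omega)
            ext i
            rw [Finset.mem_range]
            constructor
            · intro hi
              have h3 : pD K t i ∈ bs (pD K t) S := by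
                unfold bs; exact Finset.mem_insert_of_mem (Finset.mem_image_of_mem _ hi)
              rw [h, Finset.mem_range] at h3
              rcases Nat.lt_trichotomy i t with h4 | h4 | h4
              · rw [pD_lt h4] at h3; omega
              · rw [h4] at hi; exact absurd hi htS
              · rw [pD_gt h4] at h3; omega
            · intro hi
              have h3 : i + 1 ∈ bs (pD K t) S := by
                rw [h, Finset.mem_range]; omega
              unfold bs at h3
              rcases Finset.mem_insert.1 h3 with h4 | h4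
              · omega
              · obtain ⟨i', hi', h5⟩ := Finset.mem_image.1 h4
                rcases Nat.lt_trichotomy i' t with h6 | h6 | h6
                · rw [pD_lt h6] at h5
                  have : i' = i := by omega
                  rwa [this] at hi'
                · rw [h6] at hi'; exact absurd hi' htS
                · rw [pD_gt h6] at h5; omega
          · rw [Finset.not_nonempty_iff_eq_empty] at hne
            rw [hne, st_empty] at h
            have h1 : 0 ∈ Finset.range (j + 1) := by rw [Finset.mem_range]; omega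
            rw [← h] at h1
            exact absurd h1 (Finset.notMem_empty _)
  · right
    exact ⟨D_mark hπ x S hK, D_lt hπ x S⟩

theorem Re.mul {w : Wd} {T : Finset ℕ} (h : Re w T) (u : List (Fin 2)) : Re w (w.run T u) := by
  obtain ⟨v, rfl⟩ := h
  exact ⟨v ++ u, by rw [run_append]⟩

/-- sets below `K` are killed by `K` shifts -/
theorem D_run_a (R : Finset ℕ) (m : ℕ) : ∀ j, j ∈ (wD K π s).run R (aw m) →
    (j < K ∧ m ≤ j ∧ j - m ∈ R) ∨ (j = K ∧ ∃ i ∈ R, K ≤ i) ∨ (m = 0 ∧ j ∈ R) := by
  induction m with
  | zero => intro j hj; right; right; exact ⟨rfl, hj⟩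
  | succ m ih =>
    intro j hj
    have e : (wD K π s).run R (aw (m + 1)) = (wD K π s).st 0 ((wD K π s).run R (aw m)) := by
      rw [aw_succ', run_append]; rfl
    rw [e, D_a] at hj
    rcases hj with ⟨i, hi, h1, h2⟩ | ⟨i, hi, h1, h2⟩
    · left
      rcases ih i hi with ⟨h3, h4, h5⟩ | ⟨h3, _⟩ | ⟨h3, h4⟩
      · refine ⟨by omega, by omega, ?_⟩
        have : j - (m + 1) = i - m := by omega
        rwa [this]
      · omega
      · refine ⟨by omega, by omega, ?_⟩
        have : j - (m + 1) = i := by omega
        rwa [this]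
    · right; left
      refine ⟨h2, ?_⟩
      rcases ih i hi with ⟨h3, h4, h5⟩ | ⟨h3, h4⟩ | ⟨h3, h4⟩
      · omega
      · exact h4
      · exact ⟨i, h4, h1⟩

theorem D_run_a_mark (R : Finset ℕ) (m : ℕ) (h : K ∈ R) : K ∈ (wD K π s).run R (aw m) := by
  induction m with
  | zero => exact h
  | succ m ih =>
    have e : (wD K π s).run R (aw (m + 1)) = (wD K π s).st 0 ((wD K π s).run R (aw m)) := by
      rw [aw_succ', run_append]; rfl
    rw [e, D_a]
    exact Or.inr ⟨K, ih, le_rfl, rfl⟩

theorem D_re_empty (hK : 0 < K) (hs : s < K) : Re (wD K π s) ∅ := by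
  have h := (Re.start (wD K π s)).mul (aw K)
  have e : (wD K π s).run {(wD K π s).q0} (aw K) = ∅ := by
    rw [Finset.eq_empty_iff_forall_notMem]
    intro j hj
    rcases D_run_a {(wD K π s).q0} K j hj with ⟨h1, h2, _⟩ | ⟨_, i, hi, h1⟩ | ⟨h1, _⟩
    · omega
    · rw [Finset.mem_singleton] at hi
      have : (wD K π s).q0 = s := rfl
      omega
    · omega
  rwa [e] at h

theorem D_re_mark (hK : 0 < K) (hπ : Inj K π) (t : ℕ) (htK : t < K) (ht : π t = K) (T : Finset ℕ)
    (hT : t ∈ T) (h : Re (wD K π s) T) : Re (wD K π s) {K} := by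
  have h1 := (h.step 1).mul (aw K)
  have e : (wD K π s).run ((wD K π s).st 1 T) (aw K) = {K} := by
    have h2 : K ∈ (wD K π s).st 1 T := by
      rw [D_b]; exact Or.inl ⟨t, hT, htK, ht, rfl⟩
    ext j
    rw [Finset.mem_singleton]
    constructor
    · intro hj
      rcases D_run_a _ K j hj with ⟨h1, h2, _⟩ | ⟨h1, _⟩ | ⟨h1, _⟩
      · omega
      · exact h1
      · omega
    · rintro rfl
      exact D_run_a_mark _ _ h2
  rwa [e] at h1

/-- the sets `{0..m} ∪ {K-1}` -/
theorem D_re_long (t : ℕ) (ht : t + 1 < K) (h : Re (wD K (pD K t) s) {K - 1}) (m : ℕ) (hm : m ≤ t + 1) :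
    Re (wD K (pD K t) s) (insert (K - 1) (Finset.range m)) := by
  induction m with
  | zero => simpa using h
  | succ m ih =>
    have h1 := (ih (by omega)).step 1
    rw [D_bs] at h1
    · have e : bs (pD K t) (insert (K - 1) (Finset.range m)) =
          insert (K - 1) (Finset.range (m + 1)) := by
        ext j
        unfold bs
        rw [Finset.mem_insert, Finset.mem_image, Finset.mem_insert, Finset.mem_range]
        constructor
        · rintro (h2 | ⟨i, hi, h2⟩)
          · right; omega
          · rcases Finset.mem_insert.1 hi with h3 | h3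
            · rw [h3, pD_gt (by omega)] at h2
              left; exact h2.symm
            · rw [Finset.mem_range] at h3
              rw [pD_lt (by omega)] at h2
              right; omega
        · rintro (h2 | h2)
          · right
            exact ⟨K - 1, Finset.mem_insert_self _ _, by rw [pD_gt (by omega), h2]⟩
          · by_cases h3 : j = 0
            · left; exact h3
            · right
              refine ⟨j - 1, Finset.mem_insert_of_mem (Finset.mem_range.2 (by omega)), ?_⟩
              rw [pD_lt (by omega)]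
              omega
      rwa [e] at h1
    · intro i hi
      rcases Finset.mem_insert.1 hi with h3 | h3
      · refine ⟨by omega, ?_⟩
        rw [h3, pD_gt (by omega)]
        omega
      · rw [Finset.mem_range] at h3
        refine ⟨by omega, ?_⟩
        rw [pD_lt (by omega)]
        omega
    · exact ⟨K - 1, Finset.mem_insert_self _ _⟩

theorem D_re_int (t : ℕ) (ht : t + 1 < K) (h : Re (wD K (pD K t) s) {K - 1}) (m : ℕ)
    (hm : m ≤ t + 1) (hmK : m < K) :
    Re (wD K (pD K t) s) (shr 1 (Finset.range m)) := by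
  have h1 := (D_re_long t ht h m hm).step 0
  have e : (wD K (pD K t) s).st 0 (insert (K - 1) (Finset.range m)) = shr 1 (Finset.range m) := by
    ext j
    rw [D_a, mem_shr]
    constructor
    · rintro (⟨i, hi, h1, h2⟩ | ⟨i, hi, h1, h2⟩)
      · rcases Finset.mem_insert.1 hi with h3 | h3
        · omega
        · exact ⟨i, h3, h2.symm⟩
      · rcases Finset.mem_insert.1 hi with h3 | h3
        · omega
        · rw [Finset.mem_range] at h3; omega
    · rintro ⟨i, hi, h2⟩
      have h3 := Finset.mem_range.1 hi
      exact Or.inl ⟨i, Finset.mem_insert_of_mem hi, by omega, h2.symm⟩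
  rwa [e] at h1

theorem D_sh' (R : Finset ℕ) (hR : ∀ i ∈ R, i + 1 < K) :
    (wD K π s).st 0 (∅ ∪ R) = ∅ ∪ sh R := by
  rw [Finset.empty_union, Finset.empty_union, D_sh R hR]

theorem D_re_left (t c : ℕ) (ht : t < K) (hct : c ≤ t + 1) (htc : c = t + 1 ∨ t = 0)
    (hs : s < K) (h00 : c = 0 → s = 0) (h01 : c ≠ 0 → t + 1 < K)
    (h1 : c ≠ 0 → Re (wD K (pD K t) s) {K - 1}) : ∀ (n : ℕ) (R : Finset ℕ), R.card = n →
    (∀ i ∈ R, i < K) → (∀ j < c, R ≠ Finset.range (j + 1)) → Re (wD K (pD K t) s) R := by
  have hπ := pD_inj K t ht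
  intro n
  induction n with
  | zero =>
    intro R hR _ _
    rw [Finset.card_eq_zero] at hR
    subst hR
    exact D_re_empty (by omega) hs
  | succ n ih =>
    intro R hR hlt hno
    obtain ⟨Q, r, hQ0, hQc, hQr, hQR⟩ := down K R hlt (by rw [← Finset.card_pos]; omega)
    have hQlt : ∀ i ∈ Q, i < K := fun i hi => by have := hQr i hi; omega
    by_cases hQ : ∀ j < c, Q ≠ Finset.range (j + 1)
    · have h2 : Re (wD K (pD K t) s) Q := by
        obtain ⟨P, hP, hPc, hPQ⟩ := hπ.pull Q hQ0 hQlt
        by_cases hn : P = ∅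
        · -- `Q = {0}`
          have h3 : Q = {0} := by
            rw [← hPQ, hn]; unfold bs; simp
          have h4 : c = 0 := by
            by_contra h5
            apply hQ 0 (by omega)
            rw [h3]; rfl
          have h5 := Re.start (wD K (pD K t) s)
          have h6 : (wD K (pD K t) s).q0 = 0 := h00 h4
          rw [h6] at h5
          rw [h3]; exact h5
        · have hne : P.Nonempty := Finset.nonempty_iff_ne_empty.2 hn
          have h3 := (ih P (by omega) (fun i hi => (hP i hi).1) (by
            intro j hj h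
            have h4 : t ∉ P := fun h5 => (hP t h5).2 pD_eq
            rw [h, Finset.mem_range] at h4
            have hct' : c = t + 1 := by
              rcases htc with h3 | h3 <;> omega
            apply hQ (j + 1) (by omega)
            rw [← hPQ, h]
            ext i
            unfold bs
            rw [Finset.mem_insert, Finset.mem_image, Finset.mem_range]
            constructor
            · rintro (h5 | ⟨i', hi', h5⟩)
              · omega
              · rw [Finset.mem_range] at hi'
                rw [pD_lt (by omega)] at h5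
                omega
            · intro h5
              by_cases h6 : i = 0
              · left; exact h6
              · right
                refine ⟨i - 1, Finset.mem_range.2 (by omega), ?_⟩
                rw [pD_lt (by omega)]
                omega)).step 1
          rw [D_bs P hP hne, hPQ] at h3
          exact h3
      have h3 := re_shr (K := K) (M := ∅) (D_sh' (π := pD K t) (s := s)) Q
        (by rwa [Finset.empty_union]) r hQr
      rwa [Finset.empty_union, hQR] at h3
    · push Not at hQ
      obtain ⟨j, hj, hQj⟩ := hQ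
      have hr : r ≠ 0 := by
        rintro rfl
        rw [shr_zero] at hQR
        exact hno j hj (by rw [← hQR, hQj])
      have hjK : j + r < K := hQr j (by rw [hQj, Finset.mem_range]; omega)
      have h2 := D_re_int (s := s) t (h01 (by omega)) (h1 (by omega)) (j + 1) (by omega) (by omega)
      have h3 := re_shr (K := K) (M := ∅) (D_sh' (π := pD K t) (s := s)) (shr 1 Q)
        (by rw [Finset.empty_union, hQj]; exact h2) (r - 1) (by
          intro i hi
          rw [mem_shr] at hi
          obtain ⟨i', hi', rfl⟩ := hi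
          have := hQr i' hi'
          omega)
      rw [Finset.empty_union, ← shr_add, show 1 + (r - 1) = r by omega, hQR] at h3
      exact h3

theorem D_re_K1 (hs : s < K) : Re (wD K π s) {K - 1} := by
  have h := re_shr (w := wD K π s) (K := K) (M := ∅) (D_sh' (π := π) (s := s)) {s}
        (by rw [Finset.empty_union]; exact Re.start _) (K - 1 - s) (by
          intro i hi
          rw [Finset.mem_singleton] at hi
          omega)
  rw [Finset.empty_union] at h
  have e : shr (K - 1 - s) {s} = {K - 1} := by
    unfold shr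
    rw [Finset.image_singleton]
    congr 1
    omega
  rwa [e] at h

theorem D_reach (t c : ℕ) (ht : t < K) (hct : c ≤ t + 1) (htc : c = t + 1 ∨ t = 0)
    (hs : s < K) (h00 : c = 0 → s = 0) (h01 : c ≠ 0 → t + 1 < K) :
    ∀ S ∈ GD K c, Re (wD K (pD K t) s) S := by
  have hπ := pD_inj K t ht
  have hL := D_re_left t c ht hct htc hs h00 h01 (fun _ => D_re_K1 hs)
  intro S hS
  rw [mem_GD] at hS
  rcases hS with ⟨h1, h2⟩ | ⟨h1, h2⟩
  · exact hL _ S rfl h1 h2
  · -- a set containing `t`
    have h3 : ∃ T, t ∈ T ∧ Re (wD K (pD K t) s) T := by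
      by_cases hc : c = 0
      · have ht0 : t = 0 := by
          rcases htc with h3 | h3 <;> omega
        refine ⟨{0}, by rw [ht0]; exact Finset.mem_singleton_self _, ?_⟩
        have h5 := Re.start (wD K (pD K t) s)
        have h6 : (wD K (pD K t) s).q0 = 0 := h00 hc
        rwa [h6] at h5
      · refine ⟨insert (K - 1) (Finset.range (t + 1)), ?_, ?_⟩
        · exact Finset.mem_insert_of_mem (Finset.mem_range.2 (by omega))
        · exact D_re_long t (h01 hc) (D_re_K1 hs) (t + 1) le_rfl
    obtain ⟨T, hT1, hT2⟩ := h3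
    have h4 := D_re_mark (by omega) hπ t ht pD_eq T hT1 hT2
    have h5 := re_all hπ (fun R hR => D_shM R hR) (fun R hR => D_bsM R hR) h4
      (S.erase K).card (S.erase K) rfl (by
        intro i hi
        rw [Finset.mem_erase] at hi
        have := h2 i hi.2
        omega)
    have e : {K} ∪ S.erase K = S := by
      rw [← Finset.insert_eq, Finset.insert_erase h1]
    rwa [e] at h5

def wdD (K : ℕ) (i : ℕ) : List (Fin 2) :=
  if i < K then aw (K - 1 - i) else aw K ++ 1 :: aw (K - 1)

def ZD (K : ℕ) (i : ℕ) : Finset ℕ :=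
  if i < K then insert K {i} else {K}

theorem D_acc (S : Finset ℕ) : (wD K π s).acc S ↔ K - 1 ∈ S := by
  unfold acc
  constructor
  · rintro ⟨i, hi, h⟩
    have : i = K - 1 := Finset.mem_singleton.1 h
    rw [← this]; exact hi
  · intro h
    exact ⟨K - 1, h, Finset.mem_singleton_self _⟩

theorem D_run_line (p m : ℕ) (h : p + m < K) : (wD K π s).run {p} (aw m) = {p + m} := by
  induction m with
  | zero => rfl
  | succ m ih =>
    have e : (wD K π s).run {p} (aw (m + 1)) = (wD K π s).st 0 ((wD K π s).run {p} (aw m)) := by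
      rw [aw_succ', run_append]; rfl
    rw [e, ih (by omega), D_sh _ (by
      intro i hi
      rw [Finset.mem_singleton] at hi
      omega)]
    unfold sh
    rw [Finset.image_singleton]
    rfl

theorem D_run_line_empty (p m : ℕ) (hp : p < K) (h : K ≤ p + m) : (wD K π s).run {p} (aw m) = ∅ := by
  rw [Finset.eq_empty_iff_forall_notMem]
  intro j hj
  rcases D_run_a {p} m j hj with ⟨h1, h2, h3⟩ | ⟨_, i, hi, h1⟩ | ⟨h1, h2⟩
  · rw [Finset.mem_singleton] at h3
    omega
  · rw [Finset.mem_singleton] at hi
    omega
  · rw [Finset.mem_singleton] at h2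
    omega

theorem D_run_mark (m : ℕ) : (wD K π s).run {K} (aw m) = {K} := by
  induction m with
  | zero => rfl
  | succ m ih =>
    rw [aw_succ, run_cons]
    have e : (wD K π s).st 0 {K} = {K} := by
      have := D_shM (K := K) (π := π) (s := s) ∅ (by intro i hi; simp at hi)
      simpa [sh] using this
    rw [e, ih]

theorem D_er (hK : 0 < K) :
    ∀ p < K + 1, ∀ q < K + 1,
      ((wD K π s).acc ((wD K π s).run {p} (wdD K q)) ↔ p = q) := by
  intro p hp q hq
  unfold wdD
  by_cases h1 : q < K
  · rw [if_pos h1, D_acc]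
    by_cases h2 : p < K
    · by_cases h3 : p + (K - 1 - q) < K
      · rw [D_run_line p _ h3, Finset.mem_singleton]
        omega
      · rw [D_run_line_empty p _ h2 (by omega)]
        constructor
        · intro h; simp at h
        · intro h; omega
    · have : p = K := by omega
      subst this
      rw [D_run_mark, Finset.mem_singleton]
      omega
  · rw [if_neg h1, run_append, run_cons]
    by_cases h2 : p < K
    · rw [D_run_line_empty p _ h2 (by omega), st_empty, run_empty, D_acc]
      constructor
      · intro h; simp at h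
      · intro h; omega
    · have : p = K := by omega
      subst this
      rw [D_run_mark]
      have e : (wD p π s).st 1 {p} = {p} ∪ {0} := by
        have := D_bsM (K := p) (π := π) (s := s) ∅ (by intro i hi; simp at hi)
        simpa [bs] using this
      rw [e, run_union, D_run_line 0 _ (by omega), D_acc]
      constructor
      · intro _; omega
      · intro _
        rw [Finset.mem_union]
        right
        rw [Finset.mem_singleton]
        omega

theorem D_cr (hK : 0 < K) : ∀ q < K + 1, (wD K π s).CR ∅ (wdD K q) := by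
  intro q _
  have key : ∀ m v, (m = 0 → v = []) → (wD K π s).CR ∅ (aw m ++ v) := by
    intro m v hv
    rcases Nat.eq_zero_or_pos m with h | h
    · subst h
      rw [hv rfl]
      trivial
    · obtain ⟨m', rfl⟩ : ∃ m', m = m' + 1 := ⟨m - 1, by omega⟩
      rw [aw_succ, List.cons_append]
      simp only [CR, if_true]
      rw [run_empty]
      rintro ⟨i, hi, _⟩
      simp at hi
  unfold wdD
  split_ifs with h1
  · have := key (K - 1 - q) [] (fun _ => rfl)
    simpa using this
  · exact key K _ (fun h => by omega)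

theorem D_good (t c : ℕ) (ht : t < K) (hct : c ≤ t + 1) (htc : c = t + 1 ∨ t = 0)
    (hs : s < K) (h00 : c = 0 → s = 0) (h10 : c ≠ 0 → s = 1) (h01 : c ≠ 0 → t + 1 < K) :
    Good (wD K (pD K t) s) (GD K c) ∅ (wdD K) (ZD K) where
  q0 := by show s < K + 1; omega
  hA := by
    intro i hi j hj
    have h : j ∈ (wD K (pD K t) s).st 0 {i} := by
      rw [mem_st]; exact ⟨i, Finset.mem_singleton_self _, by simpa using hj⟩
    have := D_lt (pD_inj K t ht) 0 _ j h
    show j < K + 1
    omega
  hB := by
    intro i hi j hj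
    have h : j ∈ (wD K (pD K t) s).st 1 {i} := by
      rw [mem_st]; exact ⟨i, Finset.mem_singleton_self _, by simpa using hj⟩
    have := D_lt (pD_inj K t ht) 1 _ j h
    show j < K + 1
    omega
  hF := by
    intro i hi
    have : i = K - 1 := Finset.mem_singleton.1 hi
    show i < K + 1
    omega
  h0 := by
    rw [mem_GD]
    left
    constructor
    · intro i hi
      have : i = s := Finset.mem_singleton.1 hi
      omega
    · intro j hj h
      have h1 : s = 1 := h10 (by omega)
      have h2 : 0 ∈ ({s} : Finset ℕ) := by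
        have h3 : ({(wD K (pD K t) s).q0} : Finset ℕ) = {s} := rfl
        rw [← h3, h, Finset.mem_range]; omega
      rw [Finset.mem_singleton] at h2
      omega
  hcl := D_closed t c ht hct htc
  hr := D_reach t c ht hct htc hs h00 h01
  er := D_er (by omega)
  hE := by
    rw [mem_GD]
    left
    constructor
    · intro i hi; simp at hi
    · intro j hj h
      have h2 : 0 ∈ Finset.range (j + 1) := Finset.mem_range.2 (by omega)
      rw [← h] at h2
      simp at h2
  cr := D_cr (by omega)
  hZ := by
    intro q _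
    rw [mem_GD]
    right
    unfold ZD
    split_ifs with h1
    · refine ⟨Finset.mem_insert_self _ _, ?_⟩
      intro i hi
      rcases Finset.mem_insert.1 hi with h | h
      · right; exact h
      · left; rw [Finset.mem_singleton.1 h]; exact h1
    · refine ⟨Finset.mem_singleton_self _, ?_⟩
      intro i hi; right; exact Finset.mem_singleton.1 hi
  hZm := by
    intro q hq
    have hq' : q < K + 1 := hq
    unfold ZD
    split_ifs with h1
    · simp
    · rw [Finset.mem_singleton]; omega
  hZo := by
    intro p hp q hq hne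
    have hp' : p < K + 1 := hp
    have hq' : q < K + 1 := hq
    rintro ⟨h1, h2⟩
    unfold ZD at h1 h2
    split_ifs at h1 h2 <;> simp only [Finset.mem_insert, Finset.mem_singleton] at h1 h2 <;> omega

theorem attD (K c : ℕ) (hK : 1 ≤ K) (hc : c + 1 ≤ K) (j : ℕ) :
    Att (K + 1 + j) (2 ^ (K + 1) - c + j) := by
  have h : Good (wD K (pD K (c - 1)) (if c = 0 then 0 else 1)) (GD K c) ∅ (wdD K) (ZD K) := by
    apply D_good (c - 1) c (by omega) (by omega) (by omega)
    · split_ifs <;> omega
    · intro h; rw [if_pos h]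
    · intro h; rw [if_neg h]
    · intro h; omega
  have h2 := h.att j
  have h3 := card_GD c hc
  have e : (GD K c).card = 2 ^ (K + 1) - c := by omega
  rw [e] at h2
  exact h2

end

end Pool.Agent.Y550.Mag
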