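import Pool.Agent.Y550.Mag.Hlp2
import Pool.Agent.Y550.Mag.WP2
import Pool.Agent.Y550.Mag.WD

set_option autoImplicit false

namespace Pool.Agent.Y550.Mag

open Wd

/-- second automaton -/
def wA (K : ℕ) (π : ℕ → ℕ) (s : ℕ) : Wd where
  k := K + 2
  A := fun i => if i + 1 < K then {i + 1} else if i ≤ K then {K} else {K + 1}
  B := fun i => if i < K then (if π i = K then {K} else {0, π i}) else
    if i = K then {K + 1} else {K, 0}
  q0 := s
  F := {K - 1}

section

variable {K : ℕ} {π : ℕ → ℕ} {s : ℕ}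

theorem A_a (S : Finset ℕ) (j : ℕ) : j ∈ (wA K π s).st 0 S ↔
    (∃ i ∈ S, i + 1 < K ∧ j = i + 1) ∨ (∃ i ∈ S, K ≤ i + 1 ∧ i ≤ K ∧ j = K) ∨
    (∃ i ∈ S, K < i ∧ j = K + 1) := by
  rw [mem_st]
  simp only [if_true, wA]
  constructor
  · rintro ⟨i, hi, hj⟩
    by_cases h1 : i + 1 < K
    · simp only [h1, if_true, Finset.mem_singleton] at hj
      exact Or.inl ⟨i, hi, h1, hj⟩
    · by_cases h2 : i ≤ K
      · rw [if_neg h1, if_pos h2, Finset.mem_singleton] at hj
        exact Or.inr (Or.inl ⟨i, hi, by omega, h2, hj⟩)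
      · simp only [h1, h2, if_false, Finset.mem_singleton] at hj
        exact Or.inr (Or.inr ⟨i, hi, by omega, hj⟩)
  · rintro (⟨i, hi, h1, h2⟩ | ⟨i, hi, h1, h2, h3⟩ | ⟨i, hi, h1, h2⟩)
    · refine ⟨i, hi, ?_⟩
      simp [h1, h2]
    · refine ⟨i, hi, ?_⟩
      have : ¬ (i + 1 < K) := by omega
      simp [this, h2, h3]
    · refine ⟨i, hi, ?_⟩
      have h3 : ¬ (i + 1 < K) := by omega
      have h4 : ¬ (i ≤ K) := by omega
      simp [h2, h3, h4]

theorem A_b (S : Finset ℕ) (j : ℕ) : j ∈ (wA K π s).st 1 S ↔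
    (∃ i ∈ S, i < K ∧ π i = K ∧ j = K) ∨ (∃ i ∈ S, i < K ∧ π i ≠ K ∧ (j = 0 ∨ j = π i)) ∨
    (K ∈ S ∧ j = K + 1) ∨ (∃ i ∈ S, K < i ∧ (j = K ∨ j = 0)) := by
  rw [mem_st]
  simp only [one_ne_zero, if_false, wA]
  constructor
  · rintro ⟨i, hi, hj⟩
    by_cases h1 : i < K
    · by_cases h2 : π i = K
      · simp only [h1, h2, if_true, Finset.mem_singleton] at hj
        exact Or.inl ⟨i, hi, h1, h2, hj⟩
      · simp only [h1, h2, if_true, if_false, Finset.mem_singleton, Finset.mem_insert] at hj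
        exact Or.inr (Or.inl ⟨i, hi, h1, h2, hj⟩)
    · by_cases h2 : i = K
      · rw [if_neg h1, if_pos h2, Finset.mem_singleton] at hj
        rw [h2] at hi
        exact Or.inr (Or.inr (Or.inl ⟨hi, hj⟩))
      · simp only [h1, h2, if_false, Finset.mem_singleton, Finset.mem_insert] at hj
        exact Or.inr (Or.inr (Or.inr ⟨i, hi, by omega, hj⟩))
  · rintro (⟨i, hi, h1, h2, h3⟩ | ⟨i, hi, h1, h2, h3⟩ | ⟨h1, h2⟩ | ⟨i, hi, h1, h2⟩)
    · exact ⟨i, hi, by simp [h1, h2, h3]⟩
    · exact ⟨i, hi, by simp [h1, h2, h3]⟩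
    · exact ⟨K, h1, by simp [h2]⟩
    · have h3 : ¬ (i < K) := by omega
      have h4 : ¬ (i = K) := by omega
      exact ⟨i, hi, by simp [h2, h3, h4]⟩

theorem A_sh (R : Finset ℕ) (hR : ∀ i ∈ R, i + 1 < K) : (wA K π s).st 0 R = sh R := by
  ext j
  rw [A_a]
  unfold sh
  rw [Finset.mem_image]
  constructor
  · rintro (⟨i, hi, h1, h2⟩ | ⟨i, hi, h1, h2, h3⟩ | ⟨i, hi, h1, h2⟩)
    · exact ⟨i, hi, h2.symm⟩
    · have := hR i hi; omega
    · have := hR i hi; omega
  · rintro ⟨i, hi, rfl⟩
    exact Or.inl ⟨i, hi, hR i hi, rfl⟩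

theorem A_bs (R : Finset ℕ) (hR : ∀ i ∈ R, i < K ∧ π i ≠ K) (hne : R.Nonempty) :
    (wA K π s).st 1 R = bs π R := by
  ext j
  rw [A_b]
  unfold bs
  rw [Finset.mem_insert, Finset.mem_image]
  constructor
  · rintro (⟨i, hi, h1, h2, h3⟩ | ⟨i, hi, h1, h2, h3⟩ | ⟨h1, h2⟩ | ⟨i, hi, h1, h2⟩)
    · exact absurd h2 (hR i hi).2
    · rcases h3 with h3 | h3
      · left; exact h3
      · right; exact ⟨i, hi, h3.symm⟩
    · have := (hR K h1).1; omega
    · have := (hR i hi).1; omega
  · rintro (h | ⟨i, hi, h⟩)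
    · obtain ⟨i, hi⟩ := hne
      exact Or.inr (Or.inl ⟨i, hi, (hR i hi).1, (hR i hi).2, Or.inl h⟩)
    · exact Or.inr (Or.inl ⟨i, hi, (hR i hi).1, (hR i hi).2, Or.inr h.symm⟩)

theorem A_aK : (wA K π s).st 0 {K} = {K} := by
  ext j
  rw [A_a]
  simp only [Finset.mem_singleton]
  constructor
  · rintro (⟨i, rfl, h1, h2⟩ | ⟨i, rfl, h1, h2, h3⟩ | ⟨i, rfl, h1, h2⟩) <;> omega
  · intro h; exact Or.inr (Or.inl ⟨K, rfl, by omega, le_rfl, h⟩)

theorem A_aK1 : (wA K π s).st 0 {K + 1} = {K + 1} := by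
  ext j
  rw [A_a]
  simp only [Finset.mem_singleton]
  constructor
  · rintro (⟨i, rfl, h1, h2⟩ | ⟨i, rfl, h1, h2, h3⟩ | ⟨i, rfl, h1, h2⟩) <;> omega
  · intro h; exact Or.inr (Or.inr ⟨K + 1, rfl, by omega, h⟩)

theorem A_bK : (wA K π s).st 1 {K} = {K + 1} := by
  ext j
  rw [A_b]
  simp only [Finset.mem_singleton]
  constructor
  · rintro (⟨i, rfl, h1, h2, h3⟩ | ⟨i, rfl, h1, h2, h3⟩ | ⟨h1, h2⟩ | ⟨i, rfl, h1, h2⟩) <;> omega
  · intro h; exact Or.inr (Or.inr (Or.inl ⟨trivial, h⟩))

theorem A_bK1 : (wA K π s).st 1 {K + 1} = {K} ∪ {0} := by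
  ext j
  rw [A_b]
  simp only [Finset.mem_singleton, Finset.mem_union]
  constructor
  · rintro (⟨i, rfl, h1, h2, h3⟩ | ⟨i, rfl, h1, h2, h3⟩ | ⟨h1, h2⟩ | ⟨i, rfl, h1, h2⟩) <;> omega
  · intro h; exact Or.inr (Or.inr (Or.inr ⟨K + 1, rfl, by omega, h⟩))

theorem A_bt (t : ℕ) (ht : t < K) (htK : π t = K) : (wA K π s).st 1 {t} = {K} := by
  ext j
  rw [A_b]
  simp only [Finset.mem_singleton]
  constructor
  · rintro (⟨i, rfl, h1, h2, h3⟩ | ⟨i, rfl, h1, h2, h3⟩ | ⟨h1, h2⟩ | ⟨i, rfl, h1, h2⟩) <;> omega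
  · intro h; exact Or.inl ⟨t, rfl, ht, htK, h⟩

theorem A_aKR (R : Finset ℕ) (hR : ∀ i ∈ R, i + 1 < K) :
    (wA K π s).st 0 ({K} ∪ R) = {K} ∪ sh R := by
  rw [st_union, A_sh R hR, A_aK]

theorem A_aK1R (R : Finset ℕ) (hR : ∀ i ∈ R, i + 1 < K) :
    (wA K π s).st 0 ({K + 1} ∪ R) = {K + 1} ∪ sh R := by
  rw [st_union, A_sh R hR, A_aK1]

theorem A_aMR (R : Finset ℕ) (hR : ∀ i ∈ R, i + 1 < K) :
    (wA K π s).st 0 ({K, K + 1} ∪ R) = {K, K + 1} ∪ sh R := by
  rw [st_union, A_sh R hR, Finset.insert_eq K {K + 1}, st_union, A_aK1, A_aK]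

theorem A_bKR (R : Finset ℕ) (hR : ∀ i ∈ R, i < K ∧ π i ≠ K) (hne : R.Nonempty) :
    (wA K π s).st 1 ({K} ∪ R) = {K + 1} ∪ bs π R := by
  rw [st_union, A_bs R hR hne, A_bK]

theorem A_bK1R (R : Finset ℕ) (hR : ∀ i ∈ R, i < K ∧ π i ≠ K) :
    (wA K π s).st 1 ({K + 1} ∪ R) = {K} ∪ bs π R := by
  rw [st_union, A_bK1]
  rcases R.eq_empty_or_nonempty with h | h
  · rw [h, st_empty]
    simp [bs]
  · rw [A_bs R hR h]
    ext j
    simp only [bs, Finset.mem_union, Finset.mem_singleton, Finset.mem_insert]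
    tauto

theorem A_bMR (R : Finset ℕ) (hR : ∀ i ∈ R, i < K ∧ π i ≠ K) :
    (wA K π s).st 1 ({K, K + 1} ∪ R) = {K, K + 1} ∪ bs π R := by
  have e : ({K, K + 1} : Finset ℕ) ∪ R = {K} ∪ ({K + 1} ∪ R) := by
    ext j; simp only [Finset.mem_union, Finset.mem_singleton, Finset.mem_insert]; tauto
  rw [e, st_union, A_bK1R R hR, A_bK]
  ext j
  simp only [Finset.mem_union, Finset.mem_singleton, Finset.mem_insert]
  tauto

/-- the families -/
def famA (K : ℕ) : Finset (Finset ℕ) := (Finset.range K).powerset.image (fun R => {K, K + 1} ∪ R)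

def famB (K : ℕ) : Finset (Finset ℕ) :=
  ((Finset.range K).powerset.filter (fun R => R.card ≠ 1)).image (fun R => {K + 1} ∪ R)

theorem mem_famA (T : Finset ℕ) : T ∈ famA K ↔ ∃ R : Finset ℕ, (∀ i ∈ R, i < K) ∧
    {K, K + 1} ∪ R = T := by
  unfold famA
  rw [Finset.mem_image]
  constructor
  · rintro ⟨R, hR, h⟩
    exact ⟨R, fun i hi => Finset.mem_range.1 (Finset.mem_powerset.1 hR hi), h⟩
  · rintro ⟨R, hR, h⟩
    exact ⟨R, Finset.mem_powerset.2 (fun i hi => Finset.mem_range.2 (hR i hi)), h⟩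

theorem mem_famB (T : Finset ℕ) : T ∈ famB K ↔ ∃ R : Finset ℕ, (∀ i ∈ R, i < K) ∧
    R.card ≠ 1 ∧ {K + 1} ∪ R = T := by
  unfold famB
  rw [Finset.mem_image]
  constructor
  · rintro ⟨R, hR, h⟩
    rw [Finset.mem_filter] at hR
    exact ⟨R, fun i hi => Finset.mem_range.1 (Finset.mem_powerset.1 hR.1 hi), hR.2, h⟩
  · rintro ⟨R, hR, h1, h⟩
    exact ⟨R, Finset.mem_filter.2
      ⟨Finset.mem_powerset.2 (fun i hi => Finset.mem_range.2 (hR i hi)), h1⟩, h⟩

theorem mem_famA' (T : Finset ℕ) : T ∈ famA K ↔ K ∈ T ∧ K + 1 ∈ T ∧ ∀ i ∈ T, i < K + 2 := by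
  rw [mem_famA]
  constructor
  · rintro ⟨R, hR, rfl⟩
    refine ⟨by simp, by simp, ?_⟩
    intro i hi
    simp only [Finset.mem_union, Finset.mem_singleton, Finset.mem_insert] at hi
    rcases hi with (h | h) | h
    · omega
    · omega
    · have := hR i h; omega
  · rintro ⟨h1, h2, h3⟩
    refine ⟨T.filter (· < K), fun i hi => (Finset.mem_filter.1 hi).2, ?_⟩
    ext i
    simp only [Finset.mem_union, Finset.mem_singleton, Finset.mem_insert, Finset.mem_filter]
    constructor
    · rintro ((h | h) | h)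
      · rw [h]; exact h1
      · rw [h]; exact h2
      · exact h.1
    · intro h
      have := h3 i h
      by_cases h4 : i < K
      · right; exact ⟨h, h4⟩
      · left; omega

theorem union_inj (M : Finset ℕ) (hM : ∀ i ∈ M, K ≤ i) (R R' : Finset ℕ) (hR : ∀ i ∈ R, i < K)
    (hR' : ∀ i ∈ R', i < K) (h : M ∪ R = M ∪ R') : R = R' := by
  have key : ∀ R R' : Finset ℕ, (∀ i ∈ R, i < K) → (∀ i ∈ R', i < K) → M ∪ R = M ∪ R' →
      R ⊆ R' := by
    intro R R' hR _ h i hi
    have h1 : i ∈ M ∪ R' := by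
      rw [← h]; exact Finset.mem_union_right _ hi
    rcases Finset.mem_union.1 h1 with h2 | h2
    · have := hM i h2
      have := hR i hi
      omega
    · exact h2
  exact Finset.Subset.antisymm (key R R' hR hR' h) (key R' R hR' hR h.symm)

theorem card_famA : (famA K).card = 2 ^ K := by
  unfold famA
  rw [Finset.card_image_of_injOn, Finset.card_powerset, Finset.card_range]
  intro S hS T hT h
  rw [Finset.mem_coe, Finset.mem_powerset] at hS hT
  refine union_inj (K := K) {K, K + 1} ?_ S T (fun i hi => Finset.mem_range.1 (hS hi))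
    (fun i hi => Finset.mem_range.1 (hT hi)) h
  intro i hi
  simp only [Finset.mem_singleton, Finset.mem_insert] at hi
  omega

theorem card_famB : (famB K).card + K = 2 ^ K := by
  unfold famB
  have h1 : ((Finset.range K).powerset.filter (fun R => R.card = 1)).card = K := by
    rw [← Finset.powersetCard_eq_filter, Finset.card_powersetCard, Finset.card_range,
      Nat.choose_one_right]
  have h2 := Finset.card_filter_add_card_filter_not (s := (Finset.range K).powerset)
    (fun R : Finset ℕ => R.card = 1)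
  rw [h1, Finset.card_powerset, Finset.card_range] at h2
  rw [Finset.card_image_of_injOn]
  · have h3 : (Finset.range K).powerset.filter (fun R => R.card ≠ 1) =
        (Finset.range K).powerset.filter (fun R => ¬ R.card = 1) := rfl
    rw [h3]
    omega
  · intro S hS T hT h
    rw [Finset.mem_coe, Finset.mem_filter, Finset.mem_powerset] at hS hT
    refine union_inj (K := K) {K + 1} ?_ S T (fun i hi => Finset.mem_range.1 (hS.1 hi))
      (fun i hi => Finset.mem_range.1 (hT.1 hi)) h
    intro i hi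
    simp only [Finset.mem_singleton] at hi
    omega

theorem mem_fam' (T : Finset ℕ) : T ∈ fam K K ↔ ∃ R : Finset ℕ, (∀ i ∈ R, i < K) ∧
    {K} ∪ R = T := by
  unfold fam
  rw [Finset.mem_image]
  constructor
  · rintro ⟨R, hR, h⟩
    exact ⟨R, fun i hi => Finset.mem_range.1 (Finset.mem_powerset.1 hR hi), h⟩
  · rintro ⟨R, hR, h⟩
    exact ⟨R, Finset.mem_powerset.2 (fun i hi => Finset.mem_range.2 (hR i hi)), h⟩

/-- the whole family -/
noncomputable def GA (K : ℕ) (π : ℕ → ℕ) (s : ℕ) : Finset (Finset ℕ) :=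
  RS K π {s} ∪ (fam K K ∪ (famA K ∪ famB K))

theorem mem_GA (hπ : Val K π) (hs : s < K) (T : Finset ℕ) : T ∈ GA K π s ↔
    Rc K π {s} T ∨ T ∈ fam K K ∨ T ∈ famA K ∨ T ∈ famB K := by
  have hlt : ∀ i ∈ ({s} : Finset ℕ), i < K := by
    intro i hi; rw [Finset.mem_singleton.1 hi]; exact hs
  unfold GA
  rw [Finset.mem_union, Finset.mem_union, Finset.mem_union, mem_RS hπ (by omega) hlt]

theorem card_GA (hπ : Val K π) (V : ℕ) (hs : s < K)
    (hV : ∑ j ∈ Finset.range (K - s), 2 ^ (K - π (s + j)) = V) :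
    (GA K π s).card + K = 3 * 2 ^ K + V := by
  have hlt : ∀ i ∈ ({s} : Finset ℕ), i < K := by
    intro i hi; rw [Finset.mem_singleton.1 hi]; exact hs
  have hB := card_famB (K := K)
  unfold GA
  rw [Finset.card_union_of_disjoint, Finset.card_union_of_disjoint, Finset.card_union_of_disjoint,
    card_U hπ s V hs hV, card_fam K K le_rfl, card_famA]
  · omega
  · rw [Finset.disjoint_left]
    intro T h1 h2
    rw [mem_famA'] at h1
    rw [mem_famB] at h2
    obtain ⟨R, hR, _, rfl⟩ := h2
    have := h1.1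
    simp only [Finset.mem_union, Finset.mem_singleton] at this
    rcases this with h3 | h3
    · omega
    · have := hR K h3; omega
  · rw [Finset.disjoint_left]
    intro T h1 h2
    rw [mem_fam] at h1
    have h3 : K + 1 ∈ T := by
      rcases Finset.mem_union.1 h2 with h2 | h2
      · rw [mem_famA'] at h2; exact h2.2.1
      · rw [mem_famB] at h2
        obtain ⟨R, hR, _, rfl⟩ := h2
        simp
    rcases h1.2 _ h3 with h4 | h4 <;> omega
  · rw [Finset.disjoint_left]
    intro T h1 h2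
    rw [mem_RS hπ (by omega) hlt] at h1
    have h3 := h1.lt hπ (by omega) hlt
    rcases Finset.mem_union.1 h2 with h4 | h4
    · rw [mem_fam] at h4
      have := h3 K h4.1
      omega
    · have h5 : K + 1 ∈ T := by
        rcases Finset.mem_union.1 h4 with h2 | h2
        · rw [mem_famA'] at h2; exact h2.2.1
        · rw [mem_famB] at h2
          obtain ⟨R, hR, _, rfl⟩ := h2
          simp
      have := h3 _ h5
      omega

theorem A_lt (hπ : Inj K π) (x : Fin 2) (S : Finset ℕ) : ∀ j ∈ (wA K π s).st x S, j < K + 2 := by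
  intro j hj
  have hx : x = 0 ∨ x = 1 := by omega
  rcases hx with rfl | rfl
  · rw [A_a] at hj
    rcases hj with ⟨i, hi, h1, h2⟩ | ⟨i, hi, h1, h2, h3⟩ | ⟨i, hi, h1, h2⟩ <;> omega
  · rw [A_b] at hj
    rcases hj with ⟨i, hi, h1, h2, h3⟩ | ⟨i, hi, h1, h2, h3⟩ | ⟨h1, h2⟩ | ⟨i, hi, h1, h2⟩
    · omega
    · have := hπ.le i h1
      omega
    · omega
    · omega

theorem A_closed (hπ : Val K π) (hs : s < K) :
    ∀ S ∈ GA K π s, ∀ x, (wA K π s).st x S ∈ GA K π s := by
  have hK0 : 0 < K := by omega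
  have hlt : ∀ i ∈ ({s} : Finset ℕ), i < K := by
    intro i hi; rw [Finset.mem_singleton.1 hi]; exact hs
  obtain ⟨t, ht, htK⟩ := hπ.surj K hK0 le_rfl
  intro S hS x
  have hx : x = 0 ∨ x = 1 := by omega
  rw [mem_GA hπ hs] at hS ⊢
  rcases hS with hS | hS | hS | hS
  · have hSlt := hS.lt hπ hK0 hlt
    have hne := hS.nonempty ⟨s, Finset.mem_singleton_self _⟩
    rcases hx with rfl | rfl
    · by_cases h : ∀ i ∈ S, i + 1 < K
      · left
        rw [A_sh S h]
        exact Rc.a S hS h
      · right; left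
        push Not at h
        obtain ⟨i, hi, h1⟩ := h
        have h2 := hSlt i hi
        rw [mem_fam]
        constructor
        · rw [A_a]; exact Or.inr (Or.inl ⟨i, hi, h1, h2.le, rfl⟩)
        · intro j hj
          rw [A_a] at hj
          rcases hj with ⟨i, hi, h1, h2⟩ | ⟨i, hi, h1, h2, h3⟩ | ⟨i, hi, h1, h2⟩
          · omega
          · omega
          · have := hSlt i hi; omega
    · by_cases h : ∀ i ∈ S, π i ≠ K
      · left
        rw [A_bs S (fun i hi => ⟨hSlt i hi, h i hi⟩) hne]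
        exact Rc.b S hS h
      · right; left
        push Not at h
        obtain ⟨i, hi, h1⟩ := h
        rw [mem_fam]
        constructor
        · rw [A_b]; exact Or.inl ⟨i, hi, hSlt i hi, h1, rfl⟩
        · intro j hj
          rw [A_b] at hj
          rcases hj with ⟨i, hi, h1, h2, h3⟩ | ⟨i, hi, h1, h2, h3⟩ | ⟨h1, h2⟩ | ⟨i, hi, h1, h2⟩
          · right; exact h3
          · have := hπ.le i h1
            omega
          · have := hSlt K h1; omega
          · have := hSlt i hi; omega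
  · rw [mem_fam'] at hS
    obtain ⟨R, hR, rfl⟩ := hS
    rcases hx with rfl | rfl
    · right; left
      rw [mem_fam]
      constructor
      · rw [A_a]; exact Or.inr (Or.inl ⟨K, by simp, by omega, le_rfl, rfl⟩)
      · intro j hj
        rw [A_a] at hj
        rcases hj with ⟨i, hi, h1, h2⟩ | ⟨i, hi, h1, h2, h3⟩ | ⟨i, hi, h1, h2⟩
        · omega
        · omega
        · rcases Finset.mem_union.1 hi with h3 | h3
          · rw [Finset.mem_singleton] at h3; omega
          · have := hR i h3; omega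
    · right; right
      by_cases htR : t ∈ R
      · left
        rw [mem_famA']
        refine ⟨?_, ?_, A_lt hπ.toInj 1 _⟩
        · rw [A_b]; exact Or.inl ⟨t, Finset.mem_union_right _ htR, ht, htK, rfl⟩
        · rw [A_b]; exact Or.inr (Or.inr (Or.inl ⟨by simp, rfl⟩))
      · right
        have hRt : ∀ i ∈ R, i < K ∧ π i ≠ K := by
          intro i hi
          refine ⟨hR i hi, ?_⟩
          intro h
          have := hπ.inj i (hR i hi) t ht (by rw [h, htK])
          rw [this] at hi
          exact htR hi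
        rw [mem_famB]
        rcases R.eq_empty_or_nonempty with h | h
        · subst h
          refine ⟨∅, by simp, by simp, ?_⟩
          rw [Finset.union_empty, Finset.union_empty, A_bK]
        · refine ⟨bs π R, ?_, ?_, (A_bKR R hRt h).symm⟩
          · intro i hi
            unfold bs at hi
            rcases Finset.mem_insert.1 hi with h1 | h1
            · omega
            · obtain ⟨i', hi', h2⟩ := Finset.mem_image.1 h1
              have := hπ.le i' (hR i' hi')
              have := (hRt i' hi').2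
              omega
          · obtain ⟨i, hi⟩ := h
            have h1 : ({0, π i} : Finset ℕ) ⊆ bs π R := by
              intro j hj
              unfold bs
              simp only [Finset.mem_singleton, Finset.mem_insert] at hj
              rcases hj with h2 | h2
              · rw [h2]; exact Finset.mem_insert_self _ _
              · rw [h2]; exact Finset.mem_insert_of_mem (Finset.mem_image_of_mem _ hi)
            have h2 := Finset.card_le_card h1
            have h3 := hπ.pos i (hR i hi)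
            rw [Finset.card_pair (by omega)] at h2
            omega
  · rw [mem_famA'] at hS
    right; right; left
    rw [mem_famA']
    refine ⟨?_, ?_, A_lt hπ.toInj x S⟩
    · rcases hx with rfl | rfl
      · rw [A_a]; exact Or.inr (Or.inl ⟨K, hS.1, by omega, le_rfl, rfl⟩)
      · rw [A_b]; exact Or.inr (Or.inr (Or.inr ⟨K + 1, hS.2.1, by omega, Or.inl rfl⟩))
    · rcases hx with rfl | rfl
      · rw [A_a]; exact Or.inr (Or.inr ⟨K + 1, hS.2.1, by omega, rfl⟩)
      · rw [A_b]; exact Or.inr (Or.inr (Or.inl ⟨hS.1, rfl⟩))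
  · rw [mem_famB] at hS
    obtain ⟨R, hR, hRc, rfl⟩ := hS
    rcases hx with rfl | rfl
    · by_cases h : ∀ i ∈ R, i + 1 < K
      · right; right; right
        rw [mem_famB]
        refine ⟨sh R, ?_, ?_, (A_aK1R R h).symm⟩
        · intro i hi
          unfold sh at hi
          obtain ⟨i', hi', h2⟩ := Finset.mem_image.1 hi
          have := h i' hi'
          omega
        · have : sh R = shr 1 R := rfl
          rw [this, card_shr]; exact hRc
      · right; right; left
        push Not at h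
        obtain ⟨i, hi, h1⟩ := h
        rw [mem_famA']
        refine ⟨?_, ?_, A_lt hπ.toInj 0 _⟩
        · rw [A_a]
          exact Or.inr (Or.inl ⟨i, Finset.mem_union_right _ hi, h1, (hR i hi).le, rfl⟩)
        · rw [A_a]; exact Or.inr (Or.inr ⟨K + 1, by simp, by omega, rfl⟩)
    · right; left
      rw [mem_fam]
      constructor
      · rw [A_b]; exact Or.inr (Or.inr (Or.inr ⟨K + 1, by simp, by omega, Or.inl rfl⟩))
      · intro j hj
        rw [A_b] at hj
        rcases hj with ⟨i, hi, h1, h2, h3⟩ | ⟨i, hi, h1, h2, h3⟩ | ⟨h1, h2⟩ | ⟨i, hi, h1, h2⟩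
        · right; exact h3
        · have := hπ.le i h1
          omega
        · rcases Finset.mem_union.1 h1 with h3 | h3
          · rw [Finset.mem_singleton] at h3; omega
          · have := hR K h3; omega
        · omega

theorem A_re_U (hπ : Val K π) (hs : s < K) {R : Finset ℕ} (h : Rc K π {s} R) :
    Re (wA K π s) R := by
  have hlt : ∀ i ∈ ({s} : Finset ℕ), i < K := by
    intro i hi; rw [Finset.mem_singleton.1 hi]; exact hs
  induction h with
  | refl => exact Re.start _
  | a R h1 h2 ih =>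
    have := ih.step 0
    rwa [A_sh R h2] at this
  | b R h1 h2 ih =>
    have := ih.step 1
    rwa [A_bs R (fun i hi => ⟨h1.lt hπ (by omega) hlt i hi, h2 i hi⟩)
      (h1.nonempty ⟨s, Finset.mem_singleton_self _⟩)] at this

theorem A_re_K (hπ : Val K π) (hs : s < K) : Re (wA K π s) {K} := by
  have h1 := (A_re_U hπ hs (Rc.top s hs)).step 0
  have h2 : (wA K π s).st 0 {K - 1} = {K} := by
    ext j
    rw [A_a]
    simp only [Finset.mem_singleton]
    constructor
    · rintro (⟨i, rfl, h1, h2⟩ | ⟨i, rfl, h1, h2, h3⟩ | ⟨i, rfl, h1, h2⟩) <;> omega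
    · intro h
      exact Or.inr (Or.inl ⟨K - 1, rfl, by omega, by omega, h⟩)
  rwa [h2] at h1

theorem A_re_K1 (hπ : Val K π) (hs : s < K) : Re (wA K π s) {K + 1} := by
  have h1 := (A_re_K hπ hs).step 1
  rwa [A_bK] at h1

theorem A_re_single (hπ : Val K π) (hs : s < K) (i : ℕ) (hi : i < K) :
    Re (wA K π s) ({K} ∪ {i}) := by
  have h1 := (A_re_K1 hπ hs).step 1
  rw [A_bK1] at h1
  have h2 := re_shr (w := wA K π s) (K := K) (M := {K}) (fun R hR => A_aKR R hR) {0} h1 i (by
    intro j hj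
    rw [Finset.mem_singleton] at hj
    omega)
  have e : shr i {0} = {i} := by
    unfold shr
    rw [Finset.image_singleton, zero_add]
  rwa [e] at h2

/-- the two families by induction -/
theorem A_re_XY (hπ : Val K π) (hs : s < K) : ∀ n : ℕ,
    (∀ R : Finset ℕ, R.card = n + 1 → (∀ i ∈ R, i < K) → Re (wA K π s) ({K} ∪ R)) ∧
    (∀ R : Finset ℕ, R.card = n + 2 → (∀ i ∈ R, i < K) → Re (wA K π s) ({K + 1} ∪ R)) := by
  have hK : 0 < K := by omega
  obtain ⟨t, ht, htK⟩ := hπ.surj K hK le_rfl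
  -- `X n → Y (n+1)`
  have hY : ∀ n : ℕ, (∀ R : Finset ℕ, R.card = n + 1 → (∀ i ∈ R, i < K) →
      Re (wA K π s) ({K} ∪ R)) →
      (∀ R : Finset ℕ, R.card = n + 2 → (∀ i ∈ R, i < K) → Re (wA K π s) ({K + 1} ∪ R)) := by
    intro n hX R hR hlt
    obtain ⟨Q, r, hQ0, hQc, hQr, hQR⟩ := down K R hlt (by rw [← Finset.card_pos]; omega)
    obtain ⟨P, hP, hPc, hPQ⟩ := hπ.toInj.pull Q hQ0 (fun i hi => by have := hQr i hi; omega)
    have h1 := (hX P (by omega) (fun i hi => (hP i hi).1)).step 1
    rw [A_bKR P hP (by rw [← Finset.card_pos]; omega), hPQ] at h1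
    have h2 := re_shr (w := wA K π s) (K := K) (M := {K + 1}) (fun R hR => A_aK1R R hR) Q h1 r hQr
    rwa [hQR] at h2
  intro n
  induction n with
  | zero =>
    have h1 : ∀ R : Finset ℕ, R.card = 0 + 1 → (∀ i ∈ R, i < K) → Re (wA K π s) ({K} ∪ R) := by
      intro R hR hlt
      rw [zero_add, Finset.card_eq_one] at hR
      obtain ⟨i, rfl⟩ := hR
      exact A_re_single hπ hs i (hlt i (Finset.mem_singleton_self _))
    exact ⟨h1, hY 0 h1⟩
  | succ n ih =>
    have h1 : ∀ R : Finset ℕ, R.card = n + 1 + 1 → (∀ i ∈ R, i < K) →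
        Re (wA K π s) ({K} ∪ R) := by
      intro R hR hlt
      obtain ⟨Q, r, hQ0, hQc, hQr, hQR⟩ := down K R hlt (by rw [← Finset.card_pos]; omega)
      obtain ⟨P, hP, hPc, hPQ⟩ := hπ.toInj.pull Q hQ0 (fun i hi => by have := hQr i hi; omega)
      have htP : t ∉ P := fun h => (hP t h).2 htK
      have h1 := (ih.2 (insert t P) (by
        rw [Finset.card_insert_of_notMem htP]; omega) (by
        intro i hi
        rcases Finset.mem_insert.1 hi with h | h
        · omega
        · exact (hP i h).1)).step 1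
      have e : (wA K π s).st 1 ({K + 1} ∪ insert t P) = {K} ∪ Q := by
        have e1 : ({K + 1} : Finset ℕ) ∪ insert t P = {t} ∪ ({K + 1} ∪ P) := by
          ext j; simp only [Finset.mem_union, Finset.mem_singleton, Finset.mem_insert]; tauto
        rw [e1, st_union, A_bt t ht htK, A_bK1R P hP, hPQ]
        ext j; simp only [Finset.mem_union, Finset.mem_singleton]; tauto
      rw [e] at h1
      have h2 := re_shr (w := wA K π s) (K := K) (M := {K}) (fun R hR => A_aKR R hR) Q h1 r hQr
      rwa [hQR] at h2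
    exact ⟨h1, hY (n + 1) h1⟩

theorem A_reach (hπ : Val K π) (hs : s < K) : ∀ S ∈ GA K π s, Re (wA K π s) S := by
  have hK : 0 < K := by omega
  obtain ⟨t, ht, htK⟩ := hπ.surj K hK le_rfl
  intro S hS
  rw [mem_GA hπ hs] at hS
  rcases hS with hS | hS | hS | hS
  · exact A_re_U hπ hs hS
  · rw [mem_fam'] at hS
    obtain ⟨R, hR, rfl⟩ := hS
    rcases R.eq_empty_or_nonempty with h | h
    · rw [h, Finset.union_empty]; exact A_re_K hπ hs
    · have := Finset.card_pos.2 h
      exact (A_re_XY hπ hs (R.card - 1)).1 R (by omega) hR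
  · rw [mem_famA] at hS
    obtain ⟨R, hR, rfl⟩ := hS
    have h1 := (A_re_single hπ hs t ht).step 1
    rw [st_union, A_bK, A_bt t ht htK] at h1
    have e : ({K + 1} : Finset ℕ) ∪ {K} = {K, K + 1} := by
      ext j; simp only [Finset.mem_union, Finset.mem_singleton, Finset.mem_insert]; tauto
    rw [e] at h1
    exact re_all hπ.toInj (fun R hR => A_aMR R hR) (fun R hR => A_bMR R hR) h1 _ R rfl hR
  · rw [mem_famB] at hS
    obtain ⟨R, hR, hRc, rfl⟩ := hS
    rcases R.eq_empty_or_nonempty with h | h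
    · rw [h, Finset.union_empty]; exact A_re_K1 hπ hs
    · have := Finset.card_pos.2 h
      exact (A_re_XY hπ hs (R.card - 2)).2 R (by omega) hR

def wdY (K : ℕ) : List (Fin 2) := aw K ++ 1 :: aw (K - 1)

def wdA (K : ℕ) (i : ℕ) : List (Fin 2) :=
  if i < K then aw (K - 1 - i) else if i = K then 1 :: wdY K else wdY K

def ZA (K : ℕ) (i : ℕ) : Finset ℕ :=
  if i < K then {K} ∪ {i} else if i = K then {K} else {K + 1}

theorem A_acc (S : Finset ℕ) : (wA K π s).acc S ↔ K - 1 ∈ S := by
  unfold acc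
  constructor
  · rintro ⟨i, hi, h⟩
    have : i = K - 1 := Finset.mem_singleton.1 h
    rw [← this]; exact hi
  · intro h
    exact ⟨K - 1, h, Finset.mem_singleton_self _⟩

theorem A_run_line (p m : ℕ) (h : p + m < K) : (wA K π s).run {p} (aw m) = {p + m} := by
  induction m with
  | zero => rfl
  | succ m ih =>
    have e : (wA K π s).run {p} (aw (m + 1)) = (wA K π s).st 0 ((wA K π s).run {p} (aw m)) := by
      rw [aw_succ', run_append]; rfl
    rw [e, ih (by omega), A_sh _ (by
      intro i hi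
      rw [Finset.mem_singleton] at hi
      omega)]
    unfold sh
    rw [Finset.image_singleton]
    rfl

theorem A_run_K (m : ℕ) : (wA K π s).run {K} (aw m) = {K} := by
  induction m with
  | zero => rfl
  | succ m ih => rw [aw_succ, run_cons, A_aK, ih]

theorem A_run_K1 (m : ℕ) : (wA K π s).run {K + 1} (aw m) = {K + 1} := by
  induction m with
  | zero => rfl
  | succ m ih => rw [aw_succ, run_cons, A_aK1, ih]

theorem A_run_line' (p m : ℕ) (hp : p < K) (h : K ≤ p + m) :
    (wA K π s).run {p} (aw m) = {K} := by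
  have e : aw m = aw (K - 1 - p) ++ (0 :: aw (m - (K - p))) := by
    rw [← aw_succ, ← aw_add]
    congr 1
    omega
  rw [e, run_append, A_run_line p _ (by omega), run_cons]
  have e2 : (wA K π s).st 0 {p + (K - 1 - p)} = {K} := by
    ext j
    rw [A_a]
    simp only [Finset.mem_singleton]
    constructor
    · rintro (⟨i, rfl, h1, h2⟩ | ⟨i, rfl, h1, h2, h3⟩ | ⟨i, rfl, h1, h2⟩) <;> omega
    · intro h
      exact Or.inr (Or.inl ⟨_, rfl, by omega, by omega, h⟩)
  rw [e2, A_run_K]

theorem A_acc_a (p : ℕ) (hp : p < K + 2) (i : ℕ) (hi : i < K) :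
    (wA K π s).acc ((wA K π s).run {p} (aw (K - 1 - i))) ↔ p = i := by
  rw [A_acc]
  by_cases h2 : p < K
  · by_cases h3 : p + (K - 1 - i) < K
    · rw [A_run_line p _ h3, Finset.mem_singleton]
      omega
    · rw [A_run_line' p _ h2 (by omega), Finset.mem_singleton]
      omega
  · by_cases h3 : p = K
    · rw [h3, A_run_K, Finset.mem_singleton]
      omega
    · have h4 : p = K + 1 := by omega
      rw [h4, A_run_K1, Finset.mem_singleton]
      omega

theorem A_acc_y (hK : 0 < K) (p : ℕ) (hp : p < K + 2) :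
    (wA K π s).acc ((wA K π s).run {p} (wdY K)) ↔ p = K + 1 := by
  unfold wdY
  rw [run_append, run_cons]
  have h0 : ¬ (wA K π s).acc ((wA K π s).run ((wA K π s).st 1 {K}) (aw (K - 1))) := by
    rw [A_bK, A_run_K1, A_acc, Finset.mem_singleton]
    omega
  by_cases h2 : p < K
  · rw [A_run_line' p _ h2 (by omega)]
    constructor
    · intro h; exact absurd h h0
    · intro h; omega
  · by_cases h3 : p = K
    · rw [h3, A_run_K]
      constructor
      · intro h; exact absurd h h0
      · intro h; omega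
    · have h4 : p = K + 1 := by omega
      rw [h4, A_run_K1, A_bK1, run_union, A_run_line 0 _ (by omega), A_acc]
      constructor
      · intro _; rfl
      · intro _
        rw [Finset.mem_union]
        right
        rw [Finset.mem_singleton]
        omega

theorem A_er (hπ : Val K π) (hK : 0 < K) :
    ∀ p < K + 2, ∀ q < K + 2,
      ((wA K π s).acc ((wA K π s).run {p} (wdA K q)) ↔ p = q) := by
  intro p hp q hq
  unfold wdA
  by_cases h1 : q < K
  · rw [if_pos h1]
    exact A_acc_a p hp q h1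
  · rw [if_neg h1]
    by_cases h2 : q = K
    · rw [if_pos h2, run_cons, acc_run]
      constructor
      · rintro ⟨j, hj, h3⟩
        rw [A_acc_y hK j (A_lt hπ.toInj 1 _ j hj)] at h3
        rw [A_b] at hj
        rcases hj with ⟨i, hi, h4, h5, h6⟩ | ⟨i, hi, h4, h5, h6⟩ | ⟨h4, h5⟩ | ⟨i, hi, h4, h5⟩
        · omega
        · have := hπ.le i h4
          omega
        · rw [Finset.mem_singleton] at h4
          omega
        · omega
      · intro h3
        refine ⟨K + 1, ?_, (A_acc_y hK _ (by omega)).2 rfl⟩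
        rw [A_b]
        right; right; left
        refine ⟨?_, rfl⟩
        rw [Finset.mem_singleton]; omega
    · rw [if_neg h2, A_acc_y hK p hp]
      omega

theorem A_cr (hπ : Val K π) (hs : s < K) : ∀ q < K + 2, (wA K π s).CR {K} (wdA K q) := by
  intro q _
  have key1 : (wA K π s).CR {K} (wdY K) := by
    unfold wdY
    have e : aw K = 0 :: aw (K - 1) := by
      rw [← aw_succ]; congr 1; omega
    rw [e, List.cons_append]
    simp only [CR, if_true]
    rw [run_append, A_run_K, run_cons, A_bK, A_run_K1, A_acc, Finset.mem_singleton]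
    omega
  unfold wdA
  split_ifs with h1 h2
  · rcases Nat.eq_zero_or_pos (K - 1 - q) with h | h
    · rw [h]; trivial
    · obtain ⟨m, hm⟩ : ∃ m, K - 1 - q = m + 1 := ⟨K - 1 - q - 1, by omega⟩
      rw [hm, aw_succ]
      simp only [CR, if_true]
      rw [A_run_K, A_acc, Finset.mem_singleton]
      omega
  · simp only [CR, one_ne_zero, if_false]
    refine ⟨key1, ?_⟩
    show ¬ (wA K π s).acc ((wA K π s).run {s} (wdY K))
    rw [A_acc_y (by omega) s (by omega)]
    omega
  · exact key1

theorem A_good (hπ : Val K π) (hs : s < K) :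
    Good (wA K π s) (GA K π s) {K} (wdA K) (ZA K) where
  q0 := by show s < K + 2; omega
  hA := by
    intro i hi j hj
    have h : j ∈ (wA K π s).st 0 {i} := by
      rw [mem_st]; exact ⟨i, Finset.mem_singleton_self _, by simpa using hj⟩
    exact A_lt hπ.toInj 0 _ j h
  hB := by
    intro i hi j hj
    have h : j ∈ (wA K π s).st 1 {i} := by
      rw [mem_st]; exact ⟨i, Finset.mem_singleton_self _, by simpa using hj⟩
    exact A_lt hπ.toInj 1 _ j h
  hF := by
    intro i hi
    have : i = K - 1 := Finset.mem_singleton.1 hi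
    show i < K + 2
    omega
  h0 := by
    rw [mem_GA hπ hs]
    left
    exact Rc.refl
  hcl := A_closed hπ hs
  hr := A_reach hπ hs
  er := A_er hπ (by omega)
  hE := by
    rw [mem_GA hπ hs, mem_fam]
    right; left
    refine ⟨Finset.mem_singleton_self _, ?_⟩
    intro i hi; right; exact Finset.mem_singleton.1 hi
  cr := A_cr hπ hs
  hZ := by
    intro q _
    rw [mem_GA hπ hs]
    unfold ZA
    split_ifs with h1 h2
    · right; left
      rw [mem_fam']
      refine ⟨{q}, ?_, rfl⟩
      intro i hi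
      rw [Finset.mem_singleton.1 hi]; exact h1
    · right; left
      rw [mem_fam']
      exact ⟨∅, by simp, by simp⟩
    · right; right; right
      rw [mem_famB]
      exact ⟨∅, by simp, by simp, by simp⟩
  hZm := by
    intro q hq
    have hq' : q < K + 2 := hq
    unfold ZA
    split_ifs with h1 h2
    · simp
    · simp [h2]
    · rw [Finset.mem_singleton]; omega
  hZo := by
    intro p hp q hq hne
    have hp' : p < K + 2 := hp
    have hq' : q < K + 2 := hq
    rintro ⟨h1, h2⟩
    unfold ZA at h1 h2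
    split_ifs at h1 h2 <;>
      simp only [Finset.mem_union, Finset.mem_singleton] at h1 h2 <;> omega

theorem attA (K V : ℕ) (hV1 : 1 ≤ V) (hV2 : V < 2 ^ K) (j : ℕ) :
    Att (K + 2 + j) (3 * 2 ^ K + V - K + j) := by
  obtain ⟨π, s, hπ, hsK, hsum⟩ := exists_val K V hV2
  have hs : s < K := by
    rcases Nat.lt_or_ge s K with h | h
    · exact h
    · have : K - s = 0 := by omega
      rw [this] at hsum
      simp at hsum
      omega
  have h := (A_good hπ hs).att j
  have h2 := card_GA hπ V hs hsum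
  have e : (GA K π s).card = 3 * 2 ^ K + V - K := by omega
  rw [e] at h
  exact h

end

end Pool.Agent.Y550.Mag
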