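import Pool.Agent.Y550.Mag.Hlp

set_option autoImplicit false

namespace Pool.Agent.Y550.Mag

open Wd

/-- first automaton -/
def wP (K : ℕ) (π : ℕ → ℕ) (s : ℕ) : Wd where
  k := K + 2
  A := fun i => if i + 1 < K then {i + 1} else if i + 1 = K then {0, K} else {K}
  B := fun i => if i < K then (if π i = K then {K} else {0, π i}) else
    if i = K then {K + 1} else {K}
  q0 := s
  F := {K + 1}

section

variable {K : ℕ} {π : ℕ → ℕ} {s : ℕ}

theorem P_a (S : Finset ℕ) (j : ℕ) : j ∈ (wP K π s).st 0 S ↔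
    (∃ i ∈ S, i + 1 < K ∧ j = i + 1) ∨ (∃ i ∈ S, i + 1 = K ∧ (j = 0 ∨ j = K)) ∨
    (∃ i ∈ S, K ≤ i ∧ j = K) := by
  rw [mem_st]
  simp only [if_true, wP]
  constructor
  · rintro ⟨i, hi, hj⟩
    by_cases h1 : i + 1 < K
    · simp only [h1, if_true, Finset.mem_singleton] at hj
      exact Or.inl ⟨i, hi, h1, hj⟩
    · by_cases h2 : i + 1 = K
      · rw [if_neg h1, if_pos h2, Finset.mem_insert, Finset.mem_singleton] at hj
        exact Or.inr (Or.inl ⟨i, hi, h2, hj⟩)
      · simp only [h1, h2, if_false, Finset.mem_singleton] at hj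
        exact Or.inr (Or.inr ⟨i, hi, by omega, hj⟩)
  · rintro (⟨i, hi, h1, h2⟩ | ⟨i, hi, h1, h2⟩ | ⟨i, hi, h1, h2⟩)
    · refine ⟨i, hi, ?_⟩
      simp [h1, h2]
    · refine ⟨i, hi, ?_⟩
      have : ¬ (i + 1 < K) := by omega
      simp [h1, h2]
    · refine ⟨i, hi, ?_⟩
      have h3 : ¬ (i + 1 < K) := by omega
      have h4 : ¬ (i + 1 = K) := by omega
      simp [h2, h3, h4]

theorem P_b (S : Finset ℕ) (j : ℕ) : j ∈ (wP K π s).st 1 S ↔
    (∃ i ∈ S, i < K ∧ π i = K ∧ j = K) ∨ (∃ i ∈ S, i < K ∧ π i ≠ K ∧ (j = 0 ∨ j = π i)) ∨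
    (K ∈ S ∧ j = K + 1) ∨ (∃ i ∈ S, K < i ∧ j = K) := by
  rw [mem_st]
  simp only [one_ne_zero, if_false, wP]
  constructor
  · rintro ⟨i, hi, hj⟩
    by_cases h1 : i < K
    · by_cases h2 : π i = K
      · simp only [h1, h2, if_true, Finset.mem_singleton] at hj
        exact Or.inl ⟨i, hi, h1, h2, hj⟩
      · simp only [h1, h2, if_true, if_false, Finset.mem_singleton, Finset.mem_insert] at hj
        exact Or.inr (Or.inl ⟨i, hi, h1, h2, hj⟩)
    · by_cases h2 : i = K
      · rw [if_neg h1, if_pos h2, Finset.mem_singleton] at hj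
        rw [h2] at hi
        exact Or.inr (Or.inr (Or.inl ⟨hi, hj⟩))
      · simp only [h1, h2, if_false, Finset.mem_singleton] at hj
        exact Or.inr (Or.inr (Or.inr ⟨i, hi, by omega, hj⟩))
  · rintro (⟨i, hi, h1, h2, h3⟩ | ⟨i, hi, h1, h2, h3⟩ | ⟨h1, h2⟩ | ⟨i, hi, h1, h2⟩)
    · exact ⟨i, hi, by simp [h1, h2, h3]⟩
    · exact ⟨i, hi, by simp [h1, h2, h3]⟩
    · exact ⟨K, h1, by simp [h2]⟩
    · have h3 : ¬ (i < K) := by omega
      have h4 : ¬ (i = K) := by omega
      exact ⟨i, hi, by simp [h2, h3, h4]⟩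

theorem P_a_U (S : Finset ℕ) (hS : ∀ i ∈ S, i + 1 < K) : (wP K π s).st 0 S = sh S := by
  ext j
  rw [P_a]
  unfold sh
  rw [Finset.mem_image]
  constructor
  · rintro (⟨i, hi, h1, h2⟩ | ⟨i, hi, h1, h2⟩ | ⟨i, hi, h1, h2⟩)
    · exact ⟨i, hi, h2.symm⟩
    · have := hS i hi; omega
    · have := hS i hi; omega
  · rintro ⟨i, hi, rfl⟩
    exact Or.inl ⟨i, hi, hS i hi, rfl⟩

theorem P_b_U (S : Finset ℕ) (hlt : ∀ i ∈ S, i < K) (hS : ∀ i ∈ S, π i ≠ K) (hne : S.Nonempty) :
    (wP K π s).st 1 S = bs π S := by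
  ext j
  rw [P_b]
  unfold bs
  rw [Finset.mem_insert, Finset.mem_image]
  constructor
  · rintro (⟨i, hi, h1, h2, h3⟩ | ⟨i, hi, h1, h2, h3⟩ | ⟨h1, h2⟩ | ⟨i, hi, h1, h2⟩)
    · exact absurd h2 (hS i hi)
    · rcases h3 with h3 | h3
      · left; exact h3
      · right; exact ⟨i, hi, h3.symm⟩
    · have := hlt K h1; omega
    · have := hlt i hi; omega
  · rintro (h | ⟨i, hi, h⟩)
    · obtain ⟨i, hi⟩ := hne
      exact Or.inr (Or.inl ⟨i, hi, hlt i hi, hS i hi, Or.inl h⟩)
    · exact Or.inr (Or.inl ⟨i, hi, hlt i hi, hS i hi, Or.inr h.symm⟩)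

/-- the third family -/
def famP (K : ℕ) (π : ℕ → ℕ) (s : ℕ) : Finset (Finset ℕ) :=
  (Finset.range K).powerset.image (fun R => (wP K π s).st 1 (insert K R))

theorem P_b_fam (R : Finset ℕ) (hR : ∀ i ∈ R, i < K) (j : ℕ) :
    j ∈ (wP K π s).st 1 (insert K R) ↔
    (∃ i ∈ R, π i = K ∧ j = K) ∨ (∃ i ∈ R, π i ≠ K ∧ (j = 0 ∨ j = π i)) ∨ j = K + 1 := by
  rw [P_b]
  constructor
  · rintro (⟨i, hi, h1, h2, h3⟩ | ⟨i, hi, h1, h2, h3⟩ | ⟨h1, h2⟩ | ⟨i, hi, h1, h2⟩)
    · rcases Finset.mem_insert.1 hi with h4 | h4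
      · omega
      · exact Or.inl ⟨i, h4, h2, h3⟩
    · rcases Finset.mem_insert.1 hi with h4 | h4
      · omega
      · exact Or.inr (Or.inl ⟨i, h4, h2, h3⟩)
    · exact Or.inr (Or.inr h2)
    · rcases Finset.mem_insert.1 hi with h4 | h4
      · omega
      · have := hR i h4; omega
  · rintro (⟨i, hi, h1, h2⟩ | ⟨i, hi, h1, h2⟩ | h)
    · exact Or.inl ⟨i, Finset.mem_insert_of_mem hi, hR i hi, h1, h2⟩
    · exact Or.inr (Or.inl ⟨i, Finset.mem_insert_of_mem hi, hR i hi, h1, h2⟩)
    · exact Or.inr (Or.inr (Or.inl ⟨Finset.mem_insert_self _ _, h⟩))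

theorem card_famP (hπ : Val K π) : (famP K π s).card = 2 ^ K := by
  unfold famP
  rw [Finset.card_image_of_injOn, Finset.card_powerset, Finset.card_range]
  have key : ∀ S T : Finset ℕ, (∀ i ∈ S, i < K) → (∀ i ∈ T, i < K) →
      (wP K π s).st 1 (insert K S) = (wP K π s).st 1 (insert K T) → S ⊆ T := by
    intro S T hS hT h i hi
    by_cases h1 : π i = K
    · have h2 : K ∈ (wP K π s).st 1 (insert K T) := by
        rw [← h, P_b_fam S hS]
        exact Or.inl ⟨i, hi, h1, rfl⟩
      rw [P_b_fam T hT] at h2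
      rcases h2 with ⟨i', hi', h3, _⟩ | ⟨i', hi', h3, h4⟩ | h3
      · have := hπ.inj i' (hT i' hi') i (hS i hi) (by rw [h3, h1])
        rw [← this]; exact hi'
      · have := hπ.pos i (hS i hi)
        rcases h4 with h4 | h4
        · omega
        · exact absurd h4.symm h3
      · omega
    · have h2 : π i ∈ (wP K π s).st 1 (insert K T) := by
        rw [← h, P_b_fam S hS]
        exact Or.inr (Or.inl ⟨i, hi, h1, Or.inr rfl⟩)
      rw [P_b_fam T hT] at h2
      have hp := hπ.pos i (hS i hi)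
      have hl := hπ.le i (hS i hi)
      rcases h2 with ⟨i', hi', h3, h4⟩ | ⟨i', hi', h3, h4⟩ | h3
      · exact absurd h4 h1
      · rcases h4 with h4 | h4
        · omega
        · have := hπ.inj i' (hT i' hi') i (hS i hi) h4.symm
          rw [← this]; exact hi'
      · omega
  intro S hS T hT h
  rw [Finset.mem_coe, Finset.mem_powerset] at hS hT
  have hS' : ∀ i ∈ S, i < K := fun i hi => Finset.mem_range.1 (hS hi)
  have hT' : ∀ i ∈ T, i < K := fun i hi => Finset.mem_range.1 (hT hi)
  exact Finset.Subset.antisymm (key S T hS' hT' h) (key T S hT' hS' h.symm)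

/-- the whole family -/
noncomputable def GP (K : ℕ) (π : ℕ → ℕ) (s : ℕ) : Finset (Finset ℕ) :=
  RS K π {s} ∪ (fam K K ∪ famP K π s)

theorem mem_famP (T : Finset ℕ) : T ∈ famP K π s ↔
    ∃ R, (∀ i ∈ R, i < K) ∧ (wP K π s).st 1 (insert K R) = T := by
  unfold famP
  rw [Finset.mem_image]
  constructor
  · rintro ⟨R, hR, h⟩
    exact ⟨R, fun i hi => Finset.mem_range.1 (Finset.mem_powerset.1 hR hi), h⟩
  · rintro ⟨R, hR, h⟩
    exact ⟨R, Finset.mem_powerset.2 (fun i hi => Finset.mem_range.2 (hR i hi)), h⟩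

theorem card_GP (hπ : Val K π) (V : ℕ) (hs : s < K)
    (hV : ∑ j ∈ Finset.range (K - s), 2 ^ (K - π (s + j)) = V) :
    (GP K π s).card = V + (2 ^ K + 2 ^ K) := by
  have hlt : ∀ i ∈ ({s} : Finset ℕ), i < K := by
    intro i hi; rw [Finset.mem_singleton.1 hi]; exact hs
  unfold GP
  rw [Finset.card_union_of_disjoint, Finset.card_union_of_disjoint, card_U hπ s V hs hV,
    card_fam K K le_rfl, card_famP hπ]
  · rw [Finset.disjoint_left]
    intro T h1 h2
    rw [mem_fam] at h1
    rw [mem_famP] at h2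
    obtain ⟨R, hR, rfl⟩ := h2
    have h3 : K + 1 ∈ (wP K π s).st 1 (insert K R) := by
      rw [P_b_fam R hR]; right; right; rfl
    rcases h1.2 _ h3 with h4 | h4 <;> omega
  · rw [Finset.disjoint_left]
    intro T h1 h2
    rw [mem_RS hπ (by omega) hlt] at h1
    have h3 := h1.lt hπ (by omega) hlt
    rcases Finset.mem_union.1 h2 with h4 | h4
    · rw [mem_fam] at h4
      have := h3 K h4.1
      omega
    · rw [mem_famP] at h4
      obtain ⟨R, hR, rfl⟩ := h4
      have h5 : K + 1 ∈ (wP K π s).st 1 (insert K R) := by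
        rw [P_b_fam R hR]; right; right; rfl
      have := h3 _ h5
      omega

theorem fam_of_b (T : Finset ℕ) (hπ : Val K π)
    (hK : K ∉ T) (h : K ∈ (wP K π s).st 1 T) : (wP K π s).st 1 T ∈ fam K K := by
  rw [mem_fam]
  refine ⟨h, ?_⟩
  intro j hj
  rw [P_b] at hj
  rcases hj with ⟨i, hi, h1, h2, h3⟩ | ⟨i, hi, h1, h2, h3⟩ | ⟨h1, h2⟩ | ⟨i, hi, h1, h2⟩
  · right; exact h3
  · rcases h3 with h3 | h3
    · left; omega
    · have := hπ.le i h1
      left; omega
  · exact absurd h1 hK
  · right; exact h2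

theorem P_closed (hπ : Val K π) (hs : s < K) : ∀ S ∈ GP K π s, ∀ x, (wP K π s).st x S ∈ GP K π s := by
  have hK0 : 0 < K := by omega
  have hlt : ∀ i ∈ ({s} : Finset ℕ), i < K := by
    intro i hi; rw [Finset.mem_singleton.1 hi]; exact hs
  obtain ⟨t, ht, htK⟩ := hπ.surj K hK0 le_rfl
  intro S hS x
  have hx : x = 0 ∨ x = 1 := by omega
  unfold GP at hS ⊢
  rw [Finset.mem_union, Finset.mem_union] at hS ⊢
  rcases hS with hS | hS | hS
  · rw [mem_RS hπ hK0 hlt] at hS
    have hSlt := hS.lt hπ hK0 hlt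
    have hne := hS.nonempty ⟨s, Finset.mem_singleton_self _⟩
    rcases hx with rfl | rfl
    · by_cases h : ∀ i ∈ S, i + 1 < K
      · left
        rw [P_a_U S h, mem_RS hπ hK0 hlt]
        exact Rc.a S hS h
      · right; left
        push Not at h
        obtain ⟨i, hi, h1⟩ := h
        have h2 := hSlt i hi
        rw [mem_fam]
        constructor
        · rw [P_a]; exact Or.inr (Or.inl ⟨i, hi, by omega, Or.inr rfl⟩)
        · intro j hj
          rw [P_a] at hj
          rcases hj with ⟨i, hi, h1, h2⟩ | ⟨i, hi, h1, h2⟩ | ⟨i, hi, h1, h2⟩ <;> omega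
    · by_cases h : ∀ i ∈ S, π i ≠ K
      · left
        rw [P_b_U S hSlt h hne, mem_RS hπ hK0 hlt]
        exact Rc.b S hS h
      · right; left
        push Not at h
        obtain ⟨i, hi, h1⟩ := h
        apply fam_of_b S hπ (fun h' => by have := hSlt K h'; omega)
        rw [P_b]
        exact Or.inl ⟨i, hi, hSlt i hi, h1, rfl⟩
  · rw [mem_fam] at hS
    rcases hx with rfl | rfl
    · right; left
      rw [mem_fam]
      constructor
      · rw [P_a]; exact Or.inr (Or.inr ⟨K, hS.1, le_rfl, rfl⟩)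
      · intro j hj
        rw [P_a] at hj
        rcases hj with ⟨i, hi, h1, h2⟩ | ⟨i, hi, h1, h2⟩ | ⟨i, hi, h1, h2⟩ <;> omega
    · right; right
      rw [mem_famP]
      refine ⟨S.filter (· < K), ?_, ?_⟩
      · intro i hi; exact (Finset.mem_filter.1 hi).2
      · congr 1
        ext i
        rw [Finset.mem_insert, Finset.mem_filter]
        constructor
        · rintro (rfl | h)
          · exact hS.1
          · exact h.1
        · intro h
          rcases hS.2 i h with h3 | h3
          · right; exact ⟨h, h3⟩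
          · left; exact h3
  · rw [mem_famP] at hS
    obtain ⟨R, hR, rfl⟩ := hS
    have hy : K + 1 ∈ (wP K π s).st 1 (insert K R) := by
      rw [P_b_fam R hR]; right; right; rfl
    set T := (wP K π s).st 1 (insert K R) with hT
    rcases hx with rfl | rfl
    · right; left
      rw [mem_fam]
      constructor
      · rw [P_a]; exact Or.inr (Or.inr ⟨K + 1, hy, by omega, rfl⟩)
      · intro j hj
        rw [P_a] at hj
        rcases hj with ⟨i, hi, h1, h2⟩ | ⟨i, hi, h1, h2⟩ | ⟨i, hi, h1, h2⟩ <;> omega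
    · by_cases h : K ∈ T
      · right; right
        rw [mem_famP]
        refine ⟨insert t (T.filter (· < K)), ?_, ?_⟩
        · intro i hi
          rcases Finset.mem_insert.1 hi with rfl | h1
          · exact ht
          · exact (Finset.mem_filter.1 h1).2
        · ext j
          rw [P_b_fam _ (by
            intro i hi
            rcases Finset.mem_insert.1 hi with rfl | h1
            · exact ht
            · exact (Finset.mem_filter.1 h1).2), P_b]
          constructor
          · rintro (⟨i, hi, h1, h2⟩ | ⟨i, hi, h1, h2⟩ | h1)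
            · exact Or.inr (Or.inr (Or.inr ⟨K + 1, hy, by omega, h2⟩))
            · rcases Finset.mem_insert.1 hi with rfl | h3
              · exact absurd htK h1
              · rw [Finset.mem_filter] at h3
                exact Or.inr (Or.inl ⟨i, h3.1, h3.2, h1, h2⟩)
            · exact Or.inr (Or.inr (Or.inl ⟨h, h1⟩))
          · rintro (⟨i, hi, h1, h2, h3⟩ | ⟨i, hi, h1, h2, h3⟩ | ⟨h1, h2⟩ | ⟨i, hi, h1, h2⟩)
            · exact Or.inl ⟨t, Finset.mem_insert_self _ _, htK, h3⟩
            · exact Or.inr (Or.inl ⟨i, Finset.mem_insert_of_mem (Finset.mem_filter.2 ⟨hi, h1⟩),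
                h2, h3⟩)
            · exact Or.inr (Or.inr h2)
            · exact Or.inl ⟨t, Finset.mem_insert_self _ _, htK, h2⟩
      · right; left
        apply fam_of_b T hπ h
        rw [P_b]
        exact Or.inr (Or.inr (Or.inr ⟨K + 1, hy, by omega, rfl⟩))

/-- rotation by `m` -/
def rt (K m : ℕ) (R : Finset ℕ) : Finset ℕ := R.image (fun i => (i + m) % K)

theorem rt_rt (m m' : ℕ) (R : Finset ℕ) : rt K m (rt K m' R) = rt K (m' + m) R := by
  unfold rt
  rw [Finset.image_image]
  apply Finset.image_congr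
  intro i _
  show ((i + m') % K + m) % K = (i + (m' + m)) % K
  rw [Nat.mod_add_mod, add_assoc]

theorem rt_lt (hK : 0 < K) (m : ℕ) (R : Finset ℕ) : ∀ i ∈ rt K m R, i < K := by
  intro i hi
  unfold rt at hi
  obtain ⟨j, _, rfl⟩ := Finset.mem_image.1 hi
  exact Nat.mod_lt _ hK

theorem P_a_fam (R : Finset ℕ) (hR : ∀ i ∈ R, i < K) :
    (wP K π s).st 0 (insert K R) = insert K (rt K 1 R) := by
  ext j
  rw [P_a, Finset.mem_insert]
  unfold rt
  rw [Finset.mem_image]
  constructor
  · rintro (⟨i, hi, h1, h2⟩ | ⟨i, hi, h1, h2⟩ | ⟨i, hi, h1, h2⟩)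
    · rcases Finset.mem_insert.1 hi with h3 | h3
      · omega
      · right; exact ⟨i, h3, by rw [h2, Nat.mod_eq_of_lt h1]⟩
    · rcases Finset.mem_insert.1 hi with h3 | h3
      · omega
      · rcases h2 with h2 | h2
        · right; exact ⟨i, h3, by rw [h2, h1, Nat.mod_self]⟩
        · left; exact h2
    · left; exact h2
  · rintro (h | ⟨i, hi, h⟩)
    · exact Or.inr (Or.inr ⟨K, Finset.mem_insert_self _ _, le_rfl, h⟩)
    · have h1 := hR i hi
      by_cases h2 : i + 1 < K
      · rw [Nat.mod_eq_of_lt h2] at h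
        exact Or.inl ⟨i, Finset.mem_insert_of_mem hi, h2, h.symm⟩
      · have h3 : i + 1 = K := by omega
        rw [h3, Nat.mod_self] at h
        exact Or.inr (Or.inl ⟨i, Finset.mem_insert_of_mem hi, h3, Or.inl h.symm⟩)

/-- reachable from the start -/
def Re (w : Wd) (T : Finset ℕ) : Prop := ∃ u, w.run {w.q0} u = T

theorem Re.start (w : Wd) : Re w {w.q0} := ⟨[], rfl⟩

theorem Re.step {w : Wd} {T : Finset ℕ} (h : Re w T) (x : Fin 2) : Re w (w.st x T) := by
  obtain ⟨u, rfl⟩ := h
  exact ⟨u ++ [x], by rw [run_append]; rfl⟩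

theorem P_re_U (hπ : Val K π) (hs : s < K) {R : Finset ℕ} (h : Rc K π {s} R) :
    Re (wP K π s) R := by
  have hlt : ∀ i ∈ ({s} : Finset ℕ), i < K := by
    intro i hi; rw [Finset.mem_singleton.1 hi]; exact hs
  induction h with
  | refl => exact Re.start _
  | a R h1 h2 ih =>
    have := ih.step 0
    rwa [P_a_U R h2] at this
  | b R h1 h2 ih =>
    have := ih.step 1
    rwa [P_b_U R (h1.lt hπ (by omega) hlt) h2
      (h1.nonempty ⟨s, Finset.mem_singleton_self _⟩)] at this

theorem P_re_rt (hK : 0 < K) {R : Finset ℕ} (hR : ∀ i ∈ R, i < K)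
    (h : Re (wP K π s) (insert K R)) (m : ℕ) : Re (wP K π s) (insert K (rt K m R)) := by
  induction m with
  | zero =>
    have : rt K 0 R = R := by
      unfold rt
      rw [Finset.image_congr (g := id)]
      · simp
      · intro i hi
        exact Nat.mod_eq_of_lt (hR i hi)
    rwa [this]
  | succ m ih =>
    have := ih.step 0
    rw [P_a_fam _ (rt_lt hK m R), rt_rt] at this
    exact this

theorem P_ba (R : Finset ℕ) (hR : ∀ i ∈ R, i < K) (Q : Finset ℕ)
    (hQ : ∀ j, j ∈ Q ↔ ∃ i ∈ R, π i ≠ K ∧ (j = 0 ∨ j = π i)) (hπ : Val K π) :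
    (wP K π s).st 0 ((wP K π s).st 1 (insert K R)) = insert K (rt K 1 Q) := by
  have hQlt : ∀ i ∈ Q, i < K := by
    intro j hj
    obtain ⟨i, hi, h1, h2⟩ := (hQ j).1 hj
    have := hπ.le i (hR i hi)
    omega
  rw [← P_a_fam (π := π) (s := s) Q hQlt]
  ext j
  rw [P_a, P_a]
  have h1 : ∀ i, i < K → (i ∈ (wP K π s).st 1 (insert K R) ↔ i ∈ insert K Q) := by
    intro i hi
    rw [P_b_fam R hR, Finset.mem_insert, hQ]
    constructor
    · rintro (⟨i', _, _, h⟩ | h | h)
      · omega
      · right; exact h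
      · omega
    · rintro (h | h)
      · omega
      · right; left; exact h
  have hy : K + 1 ∈ (wP K π s).st 1 (insert K R) := by
    rw [P_b_fam R hR]; right; right; rfl
  constructor
  · rintro (⟨i, hi, h2, h3⟩ | ⟨i, hi, h2, h3⟩ | ⟨i, hi, h2, h3⟩)
    · exact Or.inl ⟨i, (h1 i (by omega)).1 hi, h2, h3⟩
    · exact Or.inr (Or.inl ⟨i, (h1 i (by omega)).1 hi, h2, h3⟩)
    · exact Or.inr (Or.inr ⟨K, Finset.mem_insert_self _ _, le_rfl, h3⟩)
  · rintro (⟨i, hi, h2, h3⟩ | ⟨i, hi, h2, h3⟩ | ⟨i, hi, h2, h3⟩)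
    · exact Or.inl ⟨i, (h1 i (by omega)).2 hi, h2, h3⟩
    · exact Or.inr (Or.inl ⟨i, (h1 i (by omega)).2 hi, h2, h3⟩)
    · exact Or.inr (Or.inr ⟨K + 1, hy, by omega, h3⟩)

theorem P_re_single (hπ : Val K π) (hs : s < K) (i : ℕ) (hi : i < K) :
    Re (wP K π s) (insert K {i}) := by
  have hK : 0 < K := by omega
  have h1 := (P_re_U hπ hs (Rc.top s hs)).step 0
  have h2 : (wP K π s).st 0 {K - 1} = insert K {0} := by
    ext j
    rw [P_a]
    simp only [Finset.mem_singleton, Finset.mem_insert]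
    constructor
    · rintro (⟨i, rfl, h1, h2⟩ | ⟨i, rfl, h1, h2⟩ | ⟨i, rfl, h1, h2⟩) <;> omega
    · intro h
      exact Or.inr (Or.inl ⟨K - 1, rfl, by omega, h.symm⟩)
  rw [h2] at h1
  have h3 := P_re_rt hK (by
    intro j hj
    rw [Finset.mem_singleton] at hj
    omega) h1 i
  have h4 : rt K i {0} = {i} := by
    unfold rt
    rw [Finset.image_singleton, zero_add, Nat.mod_eq_of_lt hi]
  rwa [h4] at h3

theorem P_re_fam (hπ : Val K π) (hs : s < K) : ∀ (n : ℕ) (R : Finset ℕ), R.card = n →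
    (∀ i ∈ R, i < K) → Re (wP K π s) (insert K R) := by
  have hK : 0 < K := by omega
  intro n
  induction n with
  | zero =>
    intro R hR _
    rw [Finset.card_eq_zero] at hR
    subst hR
    obtain ⟨t, ht, htK⟩ := hπ.surj K hK le_rfl
    have h1 := ((P_re_single hπ hs t ht).step 1).step 0
    rw [P_ba {t} (by
      intro i hi
      rw [Finset.mem_singleton] at hi
      omega) ∅ (by
      intro j
      constructor
      · intro h; simp at h
      · rintro ⟨i, hi, h, _⟩
        rw [Finset.mem_singleton] at hi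
        subst hi
        exact absurd htK h) hπ] at h1
    simpa [rt] using h1
  | succ n ih =>
    intro R hR hlt
    rcases Nat.eq_zero_or_pos n with rfl | hn
    · rw [zero_add, Finset.card_eq_one] at hR
      obtain ⟨i, rfl⟩ := hR
      exact P_re_single hπ hs i (hlt i (Finset.mem_singleton_self _))
    · have hne : R.Nonempty := by
        rw [← Finset.card_pos]; omega
      obtain ⟨r, hr⟩ := hne
      have hrK := hlt r hr
      set Q := rt K (K - r) R with hQ
      have hQlt := rt_lt hK (K - r) R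
      rw [← hQ] at hQlt
      have hQc : Q.card = n + 1 := by
        rw [hQ]
        unfold rt
        rw [Finset.card_image_of_injOn, hR]
        intro a ha b hb hab
        have ha' := hlt a ha
        have hb' := hlt b hb
        have h1 : (a + (K - r)) % K = (b + (K - r)) % K := hab
        have h2 : a ≡ b [MOD K] := Nat.ModEq.add_right_cancel' (K - r) h1
        have h3 : a % K = b % K := h2
        rwa [Nat.mod_eq_of_lt ha', Nat.mod_eq_of_lt hb'] at h3
      have hQ0 : 0 ∈ Q := by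
        rw [hQ]
        unfold rt
        rw [Finset.mem_image]
        refine ⟨r, hr, ?_⟩
        rw [show r + (K - r) = K by omega, Nat.mod_self]
      set R' := (Finset.range K).filter (fun i => π i ∈ Q) with hR'
      have hR'm : ∀ i, i ∈ R' ↔ i < K ∧ π i ∈ Q := by
        intro i; rw [hR', Finset.mem_filter, Finset.mem_range]
      have himg : R'.image π = Q.erase 0 := by
        ext v
        rw [Finset.mem_image, Finset.mem_erase]
        constructor
        · rintro ⟨i, hi, rfl⟩
          rw [hR'm] at hi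
          have := hπ.pos i hi.1
          exact ⟨by omega, hi.2⟩
        · rintro ⟨h1, h2⟩
          obtain ⟨i, hi, h3⟩ := hπ.surj v (by omega) (hQlt v h2).le
          exact ⟨i, (hR'm i).2 ⟨hi, by rw [h3]; exact h2⟩, h3⟩
      have hR'c : R'.card = n := by
        have h1 : (R'.image π).card = R'.card := by
          apply Finset.card_image_of_injOn
          intro a ha b hb hab
          exact hπ.inj a ((hR'm a).1 ha).1 b ((hR'm b).1 hb).1 hab
        rw [← h1, himg, Finset.card_erase_of_mem hQ0, hQc]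
        omega
      have h1 := ((ih R' hR'c (fun i hi => ((hR'm i).1 hi).1)).step 1).step 0
      rw [P_ba R' (fun i hi => ((hR'm i).1 hi).1) Q ?_ hπ] at h1
      · have h2 := P_re_rt hK (rt_lt hK 1 Q) h1 (r + K - 1)
        rw [rt_rt, hQ, rt_rt] at h2
        have h3 : rt K (K - r + (1 + (r + K - 1))) R = R := by
          unfold rt
          rw [Finset.image_congr (g := id)]
          · simp
          · intro i hi
            have h4 := hlt i hi
            show (i + (K - r + (1 + (r + K - 1)))) % K = i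
            rw [show i + (K - r + (1 + (r + K - 1))) = i + K + K by omega, Nat.add_mod_right,
              Nat.add_mod_right, Nat.mod_eq_of_lt h4]
        rwa [h3] at h2
      · intro j
        constructor
        · intro hj
          by_cases hj0 : j = 0
          · have : R'.Nonempty := by rw [← Finset.card_pos]; omega
            obtain ⟨i, hi⟩ := this
            have h2 := (hR'm i).1 hi
            have h3 := hQlt _ h2.2
            exact ⟨i, hi, by omega, Or.inl hj0⟩
          · have h2 : j ∈ R'.image π := by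
              rw [himg, Finset.mem_erase]; exact ⟨hj0, hj⟩
            obtain ⟨i, hi, h3⟩ := Finset.mem_image.1 h2
            have h4 := hQlt _ hj
            exact ⟨i, hi, by omega, Or.inr h3.symm⟩
        · rintro ⟨i, hi, h2, h3 | h3⟩
          · rw [h3]; exact hQ0
          · rw [h3]; exact ((hR'm i).1 hi).2

theorem P_reach (hπ : Val K π) (hs : s < K) : ∀ S ∈ GP K π s, ∃ u, (wP K π s).run {s} u = S := by
  have hK : 0 < K := by omega
  have hlt : ∀ i ∈ ({s} : Finset ℕ), i < K := by
    intro i hi; rw [Finset.mem_singleton.1 hi]; exact hs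
  intro S hS
  show Re (wP K π s) S
  unfold GP at hS
  rw [Finset.mem_union, Finset.mem_union] at hS
  rcases hS with hS | hS | hS
  · rw [mem_RS hπ hK hlt] at hS
    exact P_re_U hπ hs hS
  · unfold fam at hS
    obtain ⟨R, hR, rfl⟩ := Finset.mem_image.1 hS
    exact P_re_fam hπ hs _ R rfl (fun i hi => Finset.mem_range.1 (Finset.mem_powerset.1 hR hi))
  · rw [mem_famP] at hS
    obtain ⟨R, hR, rfl⟩ := hS
    exact (P_re_fam hπ hs _ R rfl hR).step 1

end

end Pool.Agent.Y550.Mag
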